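import Mathlib
import Pool.Agent.MP_edaf86_an.Calc2

namespace SN
open Set Filter Topology MeasureTheory Metric Function
open scoped ENNReal

/-- the space R^(p+2) with the sup norm -/
abbrev W (p : ℕ) : Type := Fin (p + 2) → ℝ

variable {p : ℕ}

/-- good points of level lam -/
def GG (ν : Measure (W p)) (lam : ℝ) : Set (W p) :=
  {x | ∀ s : ℝ, 0 < s → ν (ball x s) ≤ ENNReal.ofReal (lam * s ^ p)}

/-- rank -/
noncomputable def rk (B : W p →L[ℝ] W p) : ℕ :=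
  Module.finrank ℝ (LinearMap.range (B : W p →ₗ[ℝ] W p))

/-- first order remainder -/
noncomputable def rem (f : W p → W p) (A : W p → W p →L[ℝ] W p) (x y : W p) : ℝ :=
  ‖f y - f x - A x (y - x)‖

/-- geometric mass bound at all dyadic scales below k -/
def Mass (ν : Measure (W p)) (Θ : ℝ) (k : ℕ) (b : ℝ) (x : W p) : Prop :=
  ∀ j : ℕ, ν (ball x (8 * (1 / 2 : ℝ) ^ (k + j))) ≤
    ENNReal.ofReal (b * Θ ^ j * ((1 / 2 : ℝ) ^ (k + j)) ^ (p + 2))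

/-- abstract setting: an injective map with jets controlled by a finite measure -/
structure Ctx (q Θ C : ℝ) (k0 : ℕ) (ν : Measure (W p)) (O : Set (W p)) (f : W p → W p)
    (A : W p → W p →L[ℝ] W p) : Prop where
  hq : 2 < q
  h4 : 4 < Θ
  hΘ : Θ < (2 : ℝ) ^ q
  hC : 0 ≤ C
  fin : ν univ < ∞
  op : IsOpen O
  cont : ContinuousOn f O
  inj : InjOn f O
  jet : ∀ x ∈ O, ∀ y ∈ O, ∀ k : ℕ, k0 ≤ k → ∀ b : ℝ, 0 ≤ b → ‖x - y‖ ≤ (1 / 2 : ℝ) ^ k →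
    Mass ν Θ k b x → Mass ν Θ k b y →
    ‖A x - A y‖ ≤ C * (1 / 2 : ℝ) ^ k * b ^ (1 / q) ∧
      rem f A x y ≤ C * ((1 / 2 : ℝ) ^ k) ^ 2 * b ^ (1 / q)

/-- Lipschitz constant of all charts -/
def LL (p : ℕ) : ℝ := 2 * ((p : ℝ) + 2)

/-- level ratio -/
def KK (p : ℕ) : ℝ := ((p : ℝ) + 2) * 2 ^ (p + 4) * (40 * ((p : ℝ) + 2) ^ 2) ^ p

/-- flattening chart adapted to the rank at x0, valid on the set G near x0 -/
structure Chart (G O : Set (W p)) (f : W p → W p) (A : W p → W p →L[ℝ] W p) (x0 : W p) (ρ : ℝ)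
    (Φ Ψ : W p → W p) (J : Finset (Fin (p + 2))) (C0 : ℝ) : Prop where
  rpos : 0 < ρ
  sub : closedBall x0 ρ ⊆ O
  li : LeftInverse Ψ Φ
  ri : RightInverse Ψ Φ
  lipΦ : ∀ x y, ‖Φ x - Φ y‖ ≤ LL p * ‖x - y‖
  lipΨ : ∀ x y, ‖Ψ x - Ψ y‖ ≤ LL p * ‖x - y‖
  c0 : 0 ≤ C0
  rkge : ∀ y ∈ G ∩ closedBall x0 ρ, J.card ≤ rk (A y)
  flat : ∀ x ∈ G ∩ closedBall x0 ρ, ∀ y ∈ G ∩ closedBall x0 ρ, rk (A x) ≤ J.card →
    (∀ j ∈ J, Φ x j = Φ y j) → ‖f y - f x‖ ≤ C0 * rem f A x y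
  mono : ∀ e, J = Finset.univ.erase e → ∃ (φ : W p →L[ℝ] ℝ) (s0 : ℝ), s0 ≠ 0 ∧
    (∀ x ∈ G ∩ closedBall x0 ρ, ∀ y ∈ G ∩ closedBall x0 ρ, (∀ j ∈ J, Φ x j = Φ y j) →
      φ (f x) = φ (f y) → f x = f y) ∧
    ∀ x ∈ G ∩ closedBall x0 ρ, (A x).det ≠ 0 → ∃ δ : ℝ, 0 < δ ∧ ∀ y ∈ G ∩ closedBall x0 ρ,
      ‖y - x‖ ≤ δ → y ≠ x → (∀ j ∈ J, Φ x j = Φ y j) →
      0 < s0 * (A x).det * ((Φ y e - Φ x e) * (φ (f y) - φ (f x)))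

/-- sign of a colour -/
def sg (b : Bool) : ℝ := if b then 1 else -1

/-- two-colouring of the points of rank above r -/
structure Col (G : Set (W p)) (A : W p → W p →L[ℝ] W p) (r : ℕ) (x0 : W p) (ρ : ℝ)
    (Ob : Bool → Set (W p)) : Prop where
  disj : ∀ y, y ∈ Ob true → y ∈ Ob false → False
  opn : ∀ b, ∀ y ∈ Ob b, y ∈ G ∩ closedBall x0 ρ → ∃ δ : ℝ, 0 < δ ∧
    ∀ z ∈ G ∩ closedBall x0 ρ, ‖z - y‖ < δ → z ∈ Ob b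
  cover : ∀ y ∈ G ∩ closedBall x0 ρ, r < rk (A y) → y ∈ Ob true ∨ y ∈ Ob false
  hr : ∀ b, ∀ y ∈ Ob b, r < rk (A y)
  sgn : ∀ b, ∀ y ∈ G ∩ closedBall x0 ρ, 0 < sg b * (A y).det → y ∈ Ob b

/-- points of Q whose e-line inside Q is mapped into G and avoids Z -/
def SS (Ψ : W p → W p) (G Z : Set (W p)) (e : Fin (p + 2)) (Q : Set (W p)) : Set (W p) :=
  {w ∈ Q | ∀ t : ℝ, update w e t ∈ Q → Ψ (update w e t) ∈ G ∧ Ψ (update w e t) ∉ Z}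

/-- near y the determinant has sign b on every good set -/
def Pure (ν : Measure (W p)) (A : W p → W p →L[ℝ] W p) (b : Bool) (y : W p) : Prop :=
  ∀ lam : ℝ, ∃ δ : ℝ, 0 < δ ∧ ∀ z ∈ GG ν lam, ‖z - y‖ < δ → 0 ≤ sg b * (A z).det

/-- the fixed bump -/
noncomputable def bump (p : ℕ) : ContDiffBump (0 : W p) := ⟨1 / 2, 1, by norm_num, by norm_num⟩

/-- mollification at scale 2^(-k) -/
noncomputable def mo (k : ℕ) (u : W p → ℝ) (x : W p) : ℝ :=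
  ∫ y, ((2 : ℝ) ^ k) ^ (p + 2) * (bump p).normed volume ((2 : ℝ) ^ k • (x - y)) * u y

/-- matrix as a continuous linear map -/
noncomputable def toL (M : Matrix (Fin (p + 2)) (Fin (p + 2)) ℝ) : W p →L[ℝ] W p :=
  LinearMap.toContinuousLinearMap (Matrix.toLin' M)

/-- smooth approximations with second derivatives controlled by g -/
structure Moll (O : Set (W p)) (k0 : ℕ) (C0 : ℝ) (g : W p → ℝ) (f : W p → W p)
    (D : W p → W p →L[ℝ] W p) (F : ℕ → W p → W p) : Prop where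
  c0 : 0 ≤ C0
  cd : ∀ k, ContDiff ℝ 2 (F k)
  m1 : ∀ k, k0 ≤ k → ∀ z ∈ O, ‖SJ.D2 (F k) z‖ ≤
    C0 * ((2 : ℝ) ^ k) ^ (p + 2) * ∫ y in ball z (4 * (1 / 2 : ℝ) ^ k), g y
  m2 : ∀ k, k0 ≤ k → ∀ z ∈ O, ‖fderiv ℝ (F k) z - fderiv ℝ (F (k + 1)) z‖ ≤
    C0 * (1 / 2 : ℝ) ^ k * (((2 : ℝ) ^ k) ^ (p + 2) * ∫ y in ball z (4 * (1 / 2 : ℝ) ^ k), g y)
  m3 : ∀ k, k0 ≤ k → ∀ z ∈ O, ‖F k z - F (k + 1) z‖ ≤
    C0 * ((1 / 2 : ℝ) ^ k) ^ 2 *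
      (((2 : ℝ) ^ k) ^ (p + 2) * ∫ y in ball z (4 * (1 / 2 : ℝ) ^ k), g y)
  m4 : ∀ z ∈ O, Tendsto (fun k => F k z) atTop (𝓝 (f z))
  m5 : ∀ᵐ z ∂(volume.restrict O), Tendsto (fun k => fderiv ℝ (F k) z) atTop (𝓝 (D z))

end SN
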