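import Mathlib
import Pool.Agent.MP_edaf86_an.N.Defs

namespace SN
open Set Filter Topology MeasureTheory Metric Function
open scoped ENNReal

variable {p : ℕ}

theorem GG_mono {ν : Measure (W p)} {a b : ℝ} (h : a ≤ b) : GG ν a ⊆ GG ν b :=
  fun _ hx s hs => (hx s hs).trans
    (ENNReal.ofReal_le_ofReal (mul_le_mul_of_nonneg_right h (pow_nonneg hs.le _)))

theorem isClosed_GG (ν : Measure (W p)) (a : ℝ) : IsClosed (GG ν a) := by
  refine isClosed_of_closure_subset fun x hx s hs => ?_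
  have e : ball x s = ⋃ n : ℕ, ball x (s - 1 / ((n : ℝ) + 1)) := by
    refine Subset.antisymm (fun y hy => ?_) (iUnion_subset fun n => ball_subset_ball ?_)
    · obtain ⟨n, hn⟩ := exists_nat_one_div_lt (sub_pos.2 (mem_ball.1 hy))
      exact mem_iUnion.2 ⟨n, mem_ball.2 (by linarith)⟩
    · have : (0 : ℝ) < 1 / ((n : ℝ) + 1) := Nat.one_div_pos_of_nat
      linarith
  have hm : Monotone fun n : ℕ => ball x (s - 1 / ((n : ℝ) + 1)) := fun m n hmn =>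
    ball_subset_ball (by linarith [Nat.one_div_le_one_div (α := ℝ) hmn])
  rw [e, hm.measure_iUnion]
  refine iSup_le fun n => ?_
  obtain ⟨y, hy, hd⟩ := Metric.mem_closure_iff.1 hx (1 / ((n : ℝ) + 1)) Nat.one_div_pos_of_nat
  exact (measure_mono (ball_subset_ball' (by linarith))).trans (hy s hs)

theorem LL_pos (p : ℕ) : 0 < LL p := by
  unfold LL
  positivity

theorem two_pow_le_KK (p : ℕ) : (2 : ℝ) ^ p ≤ KK p := by
  have h0 : (0 : ℝ) ≤ p := Nat.cast_nonneg p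
  have h1 : (1 : ℝ) ≤ (40 * ((p : ℝ) + 2) ^ 2) ^ p := one_le_pow₀ (by nlinarith)
  have h2 : (2 : ℝ) ^ p ≤ 2 ^ (p + 4) := pow_le_pow_right₀ one_le_two (by omega)
  have h3 : (1 : ℝ) ≤ (p : ℝ) + 2 := by linarith
  calc (2 : ℝ) ^ p = 1 * 2 ^ p * 1 := by ring
    _ ≤ _ := by unfold KK; gcongr

theorem one_le_KK (p : ℕ) : 1 ≤ KK p := (one_le_pow₀ one_le_two).trans (two_pow_le_KK p)

namespace GoodX

theorem mass {ν : Measure (W p)} {lam Θ : ℝ} (hl : 0 ≤ lam) (h4 : 4 ≤ Θ) {x : W p}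
    (hx : x ∈ GG ν lam) (k : ℕ) : Mass ν Θ k (lam * 8 ^ p * 4 ^ k) x := by
  intro j
  refine (hx _ (by positivity)).trans (ENNReal.ofReal_le_ofReal ?_)
  have e : (4 : ℝ) ^ (k + j) * ((1 / 2 : ℝ) ^ (k + j)) ^ 2 = 1 := by
    rw [← pow_mul, mul_comm (k + j) 2, pow_mul, ← mul_pow]
    norm_num
  calc lam * (8 * (1 / 2 : ℝ) ^ (k + j)) ^ p
      = lam * (8 * (1 / 2 : ℝ) ^ (k + j)) ^ p * (4 ^ (k + j) * ((1 / 2 : ℝ) ^ (k + j)) ^ 2) := by
        rw [e, mul_one]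
    _ = lam * 8 ^ p * 4 ^ k * 4 ^ j * ((1 / 2 : ℝ) ^ (k + j)) ^ (p + 2) := by
        rw [mul_pow, pow_add (4 : ℝ), pow_add _ p 2]
        ring
    _ ≤ _ := by gcongr

theorem ratio {q : ℝ} (hq : 2 < q) : (4 : ℝ) ^ (1 / q) / 2 < 1 := by
  have h1 : (4 : ℝ) ^ (1 / q) < 4 ^ (1 / 2 : ℝ) :=
    Real.rpow_lt_rpow_of_exponent_lt (by norm_num) (one_div_lt_one_div_of_lt two_pos hq)
  have h2 : (4 : ℝ) ^ (1 / 2 : ℝ) = 2 := by
    rw [← Real.sqrt_eq_rpow, show (4 : ℝ) = 2 ^ 2 by norm_num, Real.sqrt_sq zero_le_two]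
  linarith

theorem scale {c q : ℝ} (hc : 0 ≤ c) (k : ℕ) :
    (1 / 2 : ℝ) ^ k * (c * 4 ^ k) ^ (1 / q) = c ^ (1 / q) * ((4 : ℝ) ^ (1 / q) / 2) ^ k := by
  rw [Real.mul_rpow hc (by positivity), ← Real.rpow_pow_comm (by norm_num), div_pow, div_pow,
    one_pow]
  ring

end GoodX

theorem Ctx.uj {q Θ C : ℝ} {k0 : ℕ} {ν : Measure (W p)} {O : Set (W p)} {f : W p → W p}
    {A : W p → W p →L[ℝ] W p} (h : Ctx q Θ C k0 ν O f A) (lam ε : ℝ) (hε : 0 < ε) :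
    ∃ δ : ℝ, 0 < δ ∧ ∀ x ∈ GG ν lam ∩ O, ∀ y ∈ GG ν lam ∩ O, ‖x - y‖ ≤ δ →
      ‖A x - A y‖ ≤ ε ∧ rem f A x y ≤ ε * ‖x - y‖ := by
  set l := max lam 0 with hl
  have l0 : 0 ≤ l := le_max_right _ _
  set r : ℝ := (4 : ℝ) ^ (1 / q) / 2 with hr
  have r0 : 0 < r := by positivity
  have r1 : r < 1 := GoodX.ratio h.hq
  set C' : ℝ := C * (l * 8 ^ p) ^ (1 / q) with hC'
  have hC := h.hC
  have C0 : 0 ≤ C' := by positivity
  obtain ⟨k2, hk2⟩ := exists_pow_lt_of_lt_one (by positivity : 0 < ε / (2 * C' + 1)) r1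
  set k1 := max k0 k2 with hk1
  have hb : ∀ k, k1 ≤ k → 2 * (C' * r ^ k) ≤ ε := by
    intro k hk
    have h1 : r ^ k ≤ r ^ k2 := pow_le_pow_of_le_one r0.le r1.le ((le_max_right _ _).trans hk)
    have h2 := (lt_div_iff₀ (by positivity)).1 (h1.trans_lt hk2)
    have h3 : 0 ≤ r ^ k := by positivity
    nlinarith
  refine ⟨(1 / 2) ^ k1, by positivity, fun x hx y hy hxy => ?_⟩
  rcases (norm_nonneg (x - y)).eq_or_lt with e | hpos
  · obtain rfl : x = y := sub_eq_zero.1 (norm_eq_zero.1 e.symm)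
    simp [rem, hε.le]
  obtain ⟨k, h1, h2⟩ := exists_nat_pow_near_of_lt_one hpos
    (hxy.trans (pow_le_one₀ (by norm_num) (by norm_num))) (by norm_num : (0 : ℝ) < 1 / 2)
    (by norm_num)
  have hk : k1 ≤ k := Nat.lt_succ_iff.1 ((pow_lt_pow_iff_right_of_lt_one₀ (by norm_num)
    (by norm_num)).1 (h1.trans_le hxy))
  have hj := h.jet x hx.2 y hy.2 k ((le_max_left _ _).trans hk) (l * 8 ^ p * 4 ^ k)
    (by positivity) h2 (GoodX.mass l0 h.h4.le (GG_mono (le_max_left _ _) hx.1) k)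
    (GoodX.mass l0 h.h4.le (GG_mono (le_max_left _ _) hy.1) k)
  have e : C * (1 / 2 : ℝ) ^ k * (l * 8 ^ p * 4 ^ k) ^ (1 / q) = C' * r ^ k := by
    rw [mul_assoc C, GoodX.scale (by positivity), ← mul_assoc]
  have e2 : C * ((1 / 2 : ℝ) ^ k) ^ 2 * (l * 8 ^ p * 4 ^ k) ^ (1 / q) =
      2 * (C' * r ^ k) * (1 / 2 : ℝ) ^ (k + 1) := by
    rw [← e]
    ring
  have h3 := hb k hk
  have h4 : 0 ≤ C' * r ^ k := by positivity
  rw [e, e2] at hj
  exact ⟨by linarith [hj.1], hj.2.trans (mul_le_mul h3 h1.le (by positivity) hε.le)⟩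

theorem Ctx.contA {q Θ C : ℝ} {k0 : ℕ} {ν : Measure (W p)} {O : Set (W p)} {f : W p → W p}
    {A : W p → W p →L[ℝ] W p} (h : Ctx q Θ C k0 ν O f A) (lam : ℝ) :
    ContinuousOn A (GG ν lam ∩ O) := by
  refine Metric.continuousOn_iff.2 fun x hx ε hε => ?_
  obtain ⟨δ, hδ, H⟩ := h.uj lam (ε / 2) (half_pos hε)
  refine ⟨δ, hδ, fun y hy hd => ?_⟩
  rw [dist_eq_norm] at hd ⊢
  exact (H y hy x hx hd.le).1.trans_lt (half_lt_self hε)

theorem witness_of_near {ν : Measure (W p)} {lam μ η : ℝ} (hlam : 0 ≤ lam) (hμ : 2 ^ p * lam ≤ μ)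
    (hη : 0 < η) {x y : W p} (hx : x ∈ GG ν lam) (hy : ‖y - x‖ ≤ η) (s : ℝ) (hs : η ≤ s) :
    ν (ball y s) ≤ ENNReal.ofReal (μ * s ^ p) := by
  have s0 : 0 < s := hη.trans_le hs
  have h1 : ball y s ⊆ ball x (2 * s) := ball_subset_ball' (by rw [dist_eq_norm]; linarith)
  refine (measure_mono h1).trans ((hx _ (by positivity)).trans (ENNReal.ofReal_le_ofReal ?_))
  calc lam * (2 * s) ^ p = 2 ^ p * lam * s ^ p := by rw [mul_pow]; ring
    _ ≤ _ := by gcongr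

end SN
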