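import Mathlib
import Pool.Agent.MP_edaf86_an.N.Good

namespace SN
open Set Filter Topology MeasureTheory Metric Function
open scoped ENNReal

variable {p : ℕ}

namespace ArcX

variable {G O : Set (W p)} {f : W p → W p} {A : W p → W p →L[ℝ] W p} {x0 : W p} {ρ C0 : ℝ}
  {Φ Ψ : W p → W p} {J : Finset (Fin (p + 2))}

theorem lip (hc : Chart G O f A x0 ρ Φ Ψ J C0) (w : W p) (e : Fin (p + 2)) (t t' : ℝ) :
    ‖Ψ (update w e t) - Ψ (update w e t')‖ ≤ LL p * |t - t'| := by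
  refine (hc.lipΨ _ _).trans (mul_le_mul_of_nonneg_left ?_ (LL_pos p).le)
  refine (pi_norm_le_iff_of_nonneg (abs_nonneg _)).2 fun i => ?_
  by_cases hi : i = e
  · simp [hi]
  · simp [hi]

theorem coord (hc : Chart G O f A x0 ρ Φ Ψ J C0) (w : W p) {e : Fin (p + 2)} (he : e ∉ J)
    (t t' : ℝ) : ∀ j ∈ J, Φ (Ψ (update w e t)) j = Φ (Ψ (update w e t')) j := fun j hj => by
  have : j ≠ e := fun h => he (h ▸ hj)
  rw [hc.ri, hc.ri, update_of_ne this, update_of_ne this]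

theorem eq_of (hc : Chart G O f A x0 ρ Φ Ψ J C0) {w : W p} {e : Fin (p + 2)} {t t' : ℝ}
    (h : Ψ (update w e t) = Ψ (update w e t')) : t = t' := by
  simpa using congrFun (hc.ri.injective h) e

theorem exists_near {a b t₀ η : ℝ} (hab : a < b) (h : t₀ ∈ Icc a b) (hη : 0 < η) :
    ∃ t ∈ Icc a b, t ≠ t₀ ∧ |t - t₀| ≤ η := by
  rcases h.2.lt_or_eq with hb | rfl
  · have h₁ : t₀ < min b (t₀ + η) := lt_min hb (by linarith)
    refine ⟨_, ⟨h.1.trans h₁.le, min_le_left _ _⟩, h₁.ne', ?_⟩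
    rw [abs_of_nonneg (by linarith)]
    linarith [min_le_right b (t₀ + η)]
  · have h₁ : max a (t₀ - η) < t₀ := max_lt hab (by linarith)
    refine ⟨_, ⟨le_max_left _ _, h₁.le⟩, h₁.ne, ?_⟩
    rw [abs_of_nonpos (by linarith)]
    linarith [le_max_right a (t₀ - η)]

end ArcX

theorem arc {q Θ C : ℝ} {k0 : ℕ} {ν : Measure (W p)} {O : Set (W p)} {f : W p → W p}
    {A : W p → W p →L[ℝ] W p} (h : Ctx q Θ C k0 ν O f A) {μ ρ C0 : ℝ} {x0 : W p}
    {Φ Ψ : W p → W p} {J : Finset (Fin (p + 2))} (hc : Chart (GG ν μ) O f A x0 ρ Φ Ψ J C0)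
    {e : Fin (p + 2)} (he : e ∉ J) (w : W p) {a b : ℝ} (hab : a < b)
    (hl : ∀ t ∈ Icc a b, Ψ (update w e t) ∈ GG ν μ ∩ closedBall x0 ρ) :
    ∃ t ∈ Icc a b, J.card < rk (A (Ψ (update w e t))) := by
  by_contra hn
  push Not at hn
  have hL := LL_pos p
  have hC := hc.c0
  have hO : ∀ t ∈ Icc a b, Ψ (update w e t) ∈ GG ν μ ∩ O := fun t ht =>
    ⟨(hl t ht).1, hc.sub (hl t ht).2⟩
  have hd : ∀ x ∈ Icc a b, HasDerivWithinAt (fun t => f (Ψ (update w e t))) 0 (Icc a b) x := by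
    intro x hx
    rw [hasDerivWithinAt_iff_isLittleO]
    refine Asymptotics.isLittleO_iff.2 fun c hc0 => ?_
    obtain ⟨δ, hδ, hu⟩ := h.uj μ (c / ((C0 + 1) * LL p)) (by positivity)
    filter_upwards [self_mem_nhdsWithin,
      mem_nhdsWithin_of_mem_nhds (closedBall_mem_nhds x (show 0 < δ / LL p by positivity))]
      with t ht hxt
    rw [mem_closedBall, Real.dist_eq, le_div_iff₀ hL, abs_sub_comm] at hxt
    have h₁ := ArcX.lip hc w e x t
    have h₂ := (hu _ (hO x hx) _ (hO t ht) (by linarith)).2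
    have h₃ := hc.flat _ (hl x hx) _ (hl t ht) (hn x hx) (ArcX.coord hc w he x t)
    rw [smul_zero, sub_zero, Real.norm_eq_abs, abs_sub_comm]
    calc _ ≤ (C0 + 1) * (c / ((C0 + 1) * LL p) * (LL p * |x - t|)) :=
          h₃.trans (mul_le_mul (by linarith) (h₂.trans (by gcongr)) (norm_nonneg _)
            (by linarith))
      _ = c * |x - t| := by field_simp
  have := (convex_Icc a b).norm_image_sub_le_of_norm_hasDerivWithin_le (C := 0) hd
    (fun _ _ => by simp) (left_mem_Icc.2 hab.le) (right_mem_Icc.2 hab.le)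
  rw [zero_mul, norm_le_zero_iff, sub_eq_zero] at this
  exact hab.ne' (ArcX.eq_of hc (h.inj (hO b (right_mem_Icc.2 hab.le)).2
    (hO a (left_mem_Icc.2 hab.le)).2 this))

theorem mono_line {q Θ C : ℝ} {k0 : ℕ} {ν : Measure (W p)} {O : Set (W p)} {f : W p → W p}
    {A : W p → W p →L[ℝ] W p} (h : Ctx q Θ C k0 ν O f A) {μ ρ C0 : ℝ} {x0 : W p}
    {Φ Ψ : W p → W p} {J : Finset (Fin (p + 2))} (hc : Chart (GG ν μ) O f A x0 ρ Φ Ψ J C0)
    {e : Fin (p + 2)} (he : J = Finset.univ.erase e) (w : W p) {a b : ℝ}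
    (hl : ∀ t ∈ Icc a b, Ψ (update w e t) ∈ GG ν μ ∩ closedBall x0 ρ) {t₁ t₂ : ℝ}
    (h1 : t₁ ∈ Icc a b) (h2 : t₂ ∈ Icc a b) (d1 : 0 < (A (Ψ (update w e t₁))).det)
    (d2 : (A (Ψ (update w e t₂))).det < 0) : False := by
  obtain ⟨φ, s0, -, m₁, m₂⟩ := hc.mono e he
  have he' : e ∉ J := by simp [he]
  have hL := LL_pos p
  have hO : ∀ t ∈ Icc a b, Ψ (update w e t) ∈ O := fun t ht => hc.sub (hl t ht).2
  have hab : a < b := by
    by_contra hab
    obtain rfl : t₁ = t₂ := by linarith [h1.1, h1.2, h2.1, h2.2, not_lt.1 hab]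
    linarith
  set u : ℝ → ℝ := fun t => φ (f (Ψ (update w e t))) with hu
  have hγ : Continuous fun t => Ψ (update w e t) :=
    (LipschitzWith.of_dist_le_mul (K := ⟨LL p, hL.le⟩) fun t t' => by
      rw [dist_eq_norm, Real.dist_eq]
      exact ArcX.lip hc w e t t').continuous
  have hcont : ContinuousOn u (Icc a b) :=
    φ.continuous.comp_continuousOn (h.cont.comp hγ.continuousOn hO)
  have hinj : InjOn u (Icc a b) := fun t ht t' ht' e' => ArcX.eq_of hc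
    (h.inj (hO t ht) (hO t' ht') (m₁ _ (hl t ht) _ (hl t' ht') (ArcX.coord hc w he' t t') e'))
  have key : ∀ t₀ ∈ Icc a b, (A (Ψ (update w e t₀))).det ≠ 0 → ∃ t ∈ Icc a b, t ≠ t₀ ∧
      0 < s0 * (A (Ψ (update w e t₀))).det * ((t - t₀) * (u t - u t₀)) := by
    intro t₀ h₀ hd
    obtain ⟨δ, hδ, m₃⟩ := m₂ _ (hl t₀ h₀) hd
    obtain ⟨t, ht, hne, hη⟩ := ArcX.exists_near hab h₀ (show 0 < δ / LL p by positivity)
    rw [le_div_iff₀ hL] at hη
    have := m₃ _ (hl t ht) (by linarith [ArcX.lip hc w e t t₀]) (fun e' => hne (ArcX.eq_of hc e'))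
      (ArcX.coord hc w he' t₀ t)
    rw [hc.ri, hc.ri, update_self, update_self] at this
    exact ⟨t, ht, hne, this⟩
  obtain ⟨s₁, hs₁, n₁, k₁⟩ := key t₁ h1 d1.ne'
  obtain ⟨s₂, hs₂, n₂, k₂⟩ := key t₂ h2 d2.ne
  have sgn : 0 < ((s₁ - t₁) * (u s₁ - u t₁)) * ((s₂ - t₂) * (u s₂ - u t₂)) := by
    rcases hcont.strictMonoOn_of_injOn_Icc' hab.le hinj with hm | hm
    · have : ∀ s ∈ Icc a b, ∀ t ∈ Icc a b, s ≠ t → 0 < (s - t) * (u s - u t) := by
        intro s hs t ht hne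
        rcases hne.lt_or_gt with h' | h'
        · exact mul_pos_of_neg_of_neg (sub_neg.2 h') (sub_neg.2 (hm hs ht h'))
        · exact mul_pos (sub_pos.2 h') (sub_pos.2 (hm ht hs h'))
      exact mul_pos (this _ hs₁ _ h1 n₁) (this _ hs₂ _ h2 n₂)
    · have : ∀ s ∈ Icc a b, ∀ t ∈ Icc a b, s ≠ t → (s - t) * (u s - u t) < 0 := by
        intro s hs t ht hne
        rcases hne.lt_or_gt with h' | h'
        · exact mul_neg_of_neg_of_pos (sub_neg.2 h') (sub_pos.2 (hm hs ht h'))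
        · exact mul_neg_of_pos_of_neg (sub_pos.2 h') (sub_neg.2 (hm ht hs h'))
      exact mul_pos_of_neg_of_neg (this _ hs₁ _ h1 n₁) (this _ hs₂ _ h2 n₂)
  have k₃ := mul_pos k₁ k₂
  have k₄ := mul_nonneg (mul_self_nonneg s0) (mul_pos (mul_pos d1 (neg_pos.2 d2)) sgn).le
  linarith

end SN
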