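import Mathlib
import Pool.Agent.MP_edaf86_an.N.Defs

namespace SN
open Set Filter Topology MeasureTheory Metric Function
open scoped ENNReal

variable {p : ℕ}

theorem rk_le (B : W p →L[ℝ] W p) : rk B ≤ p + 2 := by
  have := Submodule.finrank_le (LinearMap.range (B : W p →ₗ[ℝ] W p))
  simpa [rk] using this

theorem rk_eq_iff (B : W p →L[ℝ] W p) : rk B = p + 2 ↔ B.det ≠ 0 := by
  have h1 : B.det ≠ 0 ↔ LinearMap.range (B : W p →ₗ[ℝ] W p) = ⊤ := by
    rw [← LinearMap.isUnit_iff_range_eq_top, LinearMap.isUnit_iff_isUnit_det, isUnit_iff_ne_zero]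
  rw [h1, rk]
  constructor
  · intro h
    exact Submodule.eq_top_of_finrank_eq (by rw [h]; simp)
  · intro h
    rw [h]
    simp

theorem rk_lsc (B : W p →L[ℝ] W p) : ∀ᶠ B' in 𝓝 B, rk B ≤ rk B' := by
  have h1 : ∀ (n : ℕ) (f : W p →L[ℝ] W p),
      (n : Cardinal) ≤ (f : W p →ₗ[ℝ] W p).rank ↔ n ≤ rk f := by
    intro n f
    rw [rk, LinearMap.rank, ← Module.finrank_eq_rank, Nat.cast_le]
  have h2 := isOpen_setOfPred_nat_le_rank (𝕜 := ℝ) (E := W p) (F := W p) (rk B)
  simp only [h1] at h2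
  exact h2.mem_nhds (le_refl (rk B))

theorem det_toL (M : Matrix (Fin (p + 2)) (Fin (p + 2)) ℝ) : (toL M).det = M.det :=
  LinearMap.det_toLin' M

namespace Lin1X

/-- extension by zero -/
def ext (J : Finset (Fin (p + 2))) : (J → ℝ) →ₗ[ℝ] W p where
  toFun x j := if h : j ∈ J then x ⟨j, h⟩ else 0
  map_add' x y := by
    funext j
    by_cases h : j ∈ J <;> simp [h]
  map_smul' c x := by
    funext j
    by_cases h : j ∈ J <;> simp [h]

theorem ext_inj (J : Finset (Fin (p + 2))) {x : J → ℝ} (h : ext J x = 0) : x = 0 := by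
  funext j
  have := congrFun h j.1
  simpa [ext] using this

theorem cut_ext (J : Finset (Fin (p + 2))) (x : J → ℝ) :
    (fun j => if j ∈ J then ext J x j else 0) = ext J x := by
  funext j
  by_cases h : j ∈ J <;> simp [ext, h]

theorem norm_cut (J : Finset (Fin (p + 2))) (w : W p) :
    ‖(fun j => if j ∈ J then w j else 0 : W p)‖ ≤ ‖w‖ := by
  refine (pi_norm_le_iff_of_nonneg (norm_nonneg _)).2 fun j => ?_
  by_cases h : j ∈ J
  · simpa [h] using norm_le_pi_norm w j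
  · simp [h]

theorem est (J : Finset (Fin (p + 2))) (M : W p →L[ℝ] W p)
    (hM : ∀ v, ‖M v - fun j => if j ∈ J then v j else 0‖ ≤ 1 / 2 * ‖v‖) (x : J → ℝ) :
    ‖ext J x‖ ≤ 2 * ‖(fun j => if j ∈ J then M (ext J x) j else 0 : W p)‖ ∧
      ‖M (ext J x)‖ ≤ 3 / 2 * ‖ext J x‖ := by
  have h1 := hM (ext J x)
  rw [cut_ext] at h1
  have h2 := norm_cut J (M (ext J x) - ext J x)
  have h3 : (fun j => if j ∈ J then (M (ext J x) - ext J x) j else 0 : W p) =
      (fun j => if j ∈ J then M (ext J x) j else 0) - ext J x := by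
    funext j
    by_cases h : j ∈ J <;> simp [ext, h]
  rw [h3] at h2
  have h4 := norm_sub_norm_le (M (ext J x)) (ext J x)
  have h5 := norm_sub_norm_le (ext J x) (fun j => if j ∈ J then M (ext J x) j else 0 : W p)
  rw [norm_sub_rev] at h5
  constructor <;> linarith

end Lin1X

open Lin1X in
theorem normal_near (J : Finset (Fin (p + 2))) (M : W p →L[ℝ] W p)
    (hM : ∀ v, ‖M v - fun j => if j ∈ J then v j else 0‖ ≤ 1 / 2 * ‖v‖) :
    J.card ≤ rk M ∧ (rk M ≤ J.card → ∀ v, ‖M v‖ ≤ 3 * ‖fun j => if j ∈ J then M v j else 0‖) := by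
  have hinj : Injective ((M : W p →ₗ[ℝ] W p).comp (ext J)) := by
    rw [injective_iff_map_eq_zero]
    intro x hx
    have h0 : M (ext J x) = 0 := hx
    have h1 := (est J M hM x).1
    have h2 := norm_cut J (M (ext J x))
    rw [h0] at h1 h2
    rw [norm_zero] at h2
    exact ext_inj J (norm_le_zero_iff.1 (by linarith))
  have hfr : Module.finrank ℝ (LinearMap.range ((M : W p →ₗ[ℝ] W p).comp (ext J))) = J.card := by
    rw [LinearMap.finrank_range_of_inj hinj]
    simp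
  have hle : LinearMap.range ((M : W p →ₗ[ℝ] W p).comp (ext J)) ≤
      LinearMap.range (M : W p →ₗ[ℝ] W p) := LinearMap.range_comp_le_range _ _
  refine ⟨hfr ▸ Submodule.finrank_mono hle, fun h v => ?_⟩
  have heq := Submodule.eq_of_le_of_finrank_le hle (by rw [hfr]; exact h)
  have hv : M v ∈ LinearMap.range ((M : W p →ₗ[ℝ] W p).comp (ext J)) := by
    rw [heq]
    exact ⟨v, rfl⟩
  obtain ⟨x, hx⟩ := hv
  have hx' : M (ext J x) = M v := hx
  have h1 := est J M hM x
  rw [hx'] at h1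
  linarith [h1.1, h1.2]

theorem rk_conj (R P : W p ≃L[ℝ] W p) (B : W p →L[ℝ] W p) :
    rk ((P : W p →L[ℝ] W p).comp (B.comp (R : W p →L[ℝ] W p))) = rk B := by
  have h : LinearMap.range (((P : W p →L[ℝ] W p).comp (B.comp (R : W p →L[ℝ] W p)) :
      W p →L[ℝ] W p) : W p →ₗ[ℝ] W p) =
      (LinearMap.range (B : W p →ₗ[ℝ] W p)).map (P.toLinearEquiv : W p →ₗ[ℝ] W p) := by
    ext w
    constructor
    · rintro ⟨v, rfl⟩
      exact ⟨B (R v), ⟨R v, rfl⟩, rfl⟩
    · rintro ⟨_, ⟨v, rfl⟩, rfl⟩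
      exact ⟨R.symm v, by simp⟩
  rw [rk, h, LinearEquiv.finrank_map_eq, rk]

end SN
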