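import Mathlib
import Pool.Agent.MP_edaf86_an.N.Defs

namespace SN
open Set Filter Topology MeasureTheory Metric Function
open scoped ENNReal

namespace MS2X

/-- grid index at level k -/
noncomputable def idx (k : ℕ) (u : ℝ × ℝ) : ℤ × ℤ := (⌊u.1 * 2 ^ k⌋, ⌊u.2 * 2 ^ k⌋)

/-- grid cell -/
def cell (k : ℕ) (z : ℤ × ℤ) : Set (ℝ × ℝ) := idx k ⁻¹' {z}

theorem measurable_idx (k : ℕ) : Measurable (idx k) := by
  unfold idx
  exact (Int.measurable_floor.comp (measurable_fst.mul_const _)).prodMk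
    (Int.measurable_floor.comp (measurable_snd.mul_const _))

theorem meas_cell (k : ℕ) (z : ℤ × ℤ) : MeasurableSet (cell k z) :=
  measurable_idx k (measurableSet_singleton z)

theorem tsum_cell (μ : Measure (ℝ × ℝ)) (k : ℕ) : ∑' z, μ (cell k z) = μ univ := by
  rw [← measure_iUnion _ (meas_cell k)]
  · congr 1
    ext u
    simp [cell]
  · intro z z' hz
    refine Set.disjoint_left.2 fun u h1 h2 => hz ?_
    simp only [cell, mem_preimage, mem_singleton_iff] at h1 h2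
    rw [← h1, ← h2]

theorem tsum_cell_inter (μ : Measure (ℝ × ℝ)) (k : ℕ) (T : Set (ℝ × ℝ)) :
    ∑' z, μ (cell k z ∩ T) = μ T := by
  have := tsum_cell (μ.restrict T) k
  simp only [Measure.restrict_apply (meas_cell k _), Measure.restrict_apply MeasurableSet.univ,
    univ_inter] at this
  exact this

theorem floor_set (k : ℕ) (a : ℤ) :
    {t : ℝ | ⌊t * 2 ^ k⌋ = a} = Ico (a * (1 / 2 : ℝ) ^ k) ((a + 1) * (1 / 2 : ℝ) ^ k) := by
  ext t
  have h2 : (0 : ℝ) < 2 ^ k := by positivity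
  simp only [mem_ofPred_eq, Int.floor_eq_iff, mem_Ico, one_div, inv_pow, ← div_eq_mul_inv,
    div_le_iff₀ h2, lt_div_iff₀ h2]

theorem vol_cell (k : ℕ) (z : ℤ × ℤ) :
    volume (cell k z) = ENNReal.ofReal (((1 / 2 : ℝ) ^ k) ^ 2) := by
  have : cell k z = {t : ℝ | ⌊t * 2 ^ k⌋ = z.1} ×ˢ {t : ℝ | ⌊t * 2 ^ k⌋ = z.2} := by
    ext u
    simp [cell, idx, Prod.ext_iff]
  rw [this, Measure.volume_eq_prod, Measure.prod_prod, floor_set, floor_set, Real.volume_Ico,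
    Real.volume_Ico, ← ENNReal.ofReal_mul (by have : (0:ℝ) < (1 / 2 : ℝ) ^ k := by positivity
                                              nlinarith)]
  congr 1
  ring

theorem near1 (k : ℕ) (t t' : ℝ) (d : ℤ) (h : |⌊t * 2 ^ k⌋ - ⌊t' * 2 ^ k⌋| ≤ d) :
    |t - t'| ≤ (d + 1) * (1 / 2 : ℝ) ^ k := by
  have h2 : (0 : ℝ) < 2 ^ k := by positivity
  have a1 := Int.floor_le (t * 2 ^ k)
  have a2 := Int.lt_floor_add_one (t * 2 ^ k)
  have b1 := Int.floor_le (t' * 2 ^ k)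
  have b2 := Int.lt_floor_add_one (t' * 2 ^ k)
  have h' : |(⌊t * 2 ^ k⌋ : ℝ) - ⌊t' * 2 ^ k⌋| ≤ d := by exact_mod_cast h
  rw [abs_le] at h'
  rw [one_div, inv_pow, ← div_eq_mul_inv, le_div_iff₀ h2, ← abs_of_pos h2, ← abs_mul,
    abs_le]
  constructor <;> nlinarith

theorem near2 (k : ℕ) (u u' : ℝ × ℝ) (d : ℤ) (h1 : |(idx k u).1 - (idx k u').1| ≤ d)
    (h2 : |(idx k u).2 - (idx k u').2| ≤ d) : ‖u - u'‖ ≤ (d + 1) * (1 / 2 : ℝ) ^ k := by
  rw [Prod.norm_def]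
  exact max_le (near1 k _ _ d h1) (near1 k _ _ d h2)

theorem far1 (k : ℕ) (t t' c : ℝ) (h : |t - t'| < c * (1 / 2 : ℝ) ^ k) :
    |⌊t * 2 ^ k⌋ - ⌊t' * 2 ^ k⌋| ≤ (⌈c⌉₊ : ℤ) + 1 := by
  have h2 : (0 : ℝ) < 2 ^ k := by positivity
  have a1 := Int.floor_le (t * 2 ^ k)
  have a2 := Int.lt_floor_add_one (t * 2 ^ k)
  have b1 := Int.floor_le (t' * 2 ^ k)
  have b2 := Int.lt_floor_add_one (t' * 2 ^ k)
  have hc := Nat.le_ceil c
  rw [one_div, inv_pow, ← div_eq_mul_inv, lt_div_iff₀ h2, ← abs_of_pos h2, ← abs_mul,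
    abs_lt] at h
  have : |(⌊t * 2 ^ k⌋ : ℝ) - ⌊t' * 2 ^ k⌋| ≤ (⌈c⌉₊ : ℝ) + 1 := by
    rw [abs_le]
    constructor <;> nlinarith
  exact_mod_cast this

/-- index window -/
noncomputable def win (n : ℕ) : Finset (ℤ × ℤ) := Finset.Icc (-(n : ℤ)) n ×ˢ Finset.Icc (-(n : ℤ)) n

/-- enlarged cell -/
def big (n k : ℕ) (z : ℤ × ℤ) : Set (ℝ × ℝ) := ⋃ y ∈ win n, cell k (z + y)

theorem tsum_big (μ : Measure (ℝ × ℝ)) (n k : ℕ) :
    ∑' z, μ (big n k z) ≤ (win n).card * μ univ := by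
  calc ∑' z, μ (big n k z) ≤ ∑' z, ∑ y ∈ win n, μ (cell k (z + y)) :=
        ENNReal.tsum_le_tsum fun z => measure_biUnion_finset_le _ _
    _ = ∑ y ∈ win n, ∑' z, μ (cell k (z + y)) := by
        rw [Summable.tsum_finsetSum fun _ _ => ENNReal.summable]
    _ = ∑ y ∈ win n, μ univ := by
        refine Finset.sum_congr rfl fun y _ => ?_
        rw [← tsum_cell μ k]
        exact (Equiv.addRight y).tsum_eq fun z => μ (cell k z)
    _ = _ := by simp

theorem ball_sub_big {c r : ℝ} {k : ℕ} {z : ℤ × ℤ} {u : ℝ × ℝ} (hu : u ∈ cell k z)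
    (hr : r ≤ c * (1 / 2 : ℝ) ^ k) : ball u r ⊆ big (⌈c⌉₊ + 1) k z := by
  intro v hv
  rw [mem_ball, dist_eq_norm, Prod.norm_def, max_lt_iff] at hv
  have h1 := far1 k v.1 u.1 c (hv.1.trans_le hr)
  have h2 := far1 k v.2 u.2 c (hv.2.trans_le hr)
  have hz : idx k u = z := hu
  simp only [big, mem_iUnion]
  refine ⟨idx k v - z, ?_, by simp [cell]⟩
  rw [← hz]
  rw [abs_le] at h1 h2
  simp only [win, idx, Finset.mem_product, Finset.mem_Icc, Prod.fst_sub, Prod.snd_sub]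
  push_cast
  exact ⟨h1, h2⟩

/-- z' is a level k+j subcell of the level k cell z -/
def Sub (j : ℕ) (z z' : ℤ × ℤ) : Prop :=
  (2 ^ j * z.1 ≤ z'.1 ∧ z'.1 < 2 ^ j * z.1 + 2 ^ j) ∧ (2 ^ j * z.2 ≤ z'.2 ∧ z'.2 < 2 ^ j * z.2 + 2 ^ j)

theorem sub1 (k j : ℕ) (t : ℝ) (a : ℤ) : ⌊t * 2 ^ k⌋ = a ↔
    (2 ^ j * a ≤ ⌊t * 2 ^ (k + j)⌋ ∧ ⌊t * 2 ^ (k + j)⌋ < 2 ^ j * a + 2 ^ j) := by
  have h2 : (0 : ℝ) < 2 ^ j := by positivity
  rw [Int.floor_eq_iff, Int.le_floor, Int.floor_lt]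
  push_cast
  rw [pow_add, ← mul_assoc]
  constructor
  · rintro ⟨h1, h3⟩
    constructor <;> nlinarith
  · rintro ⟨h1, h3⟩
    constructor
    · by_contra hh
      push Not at hh
      nlinarith
    · by_contra hh
      push Not at hh
      nlinarith

theorem mem_cell_iff (k j : ℕ) (z : ℤ × ℤ) (u : ℝ × ℝ) :
    u ∈ cell k z ↔ Sub j z (idx (k + j) u) := by
  simp only [cell, mem_preimage, mem_singleton_iff, idx, Prod.ext_iff, Sub]
  rw [sub1 k j, sub1 k j]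

theorem mid (a a' A B d : ℤ) (h : |a - a'| ≤ d + 2) (hd : 0 ≤ d) (h1 : A ≤ a ∧ a < B)
    (h2 : A ≤ a' ∧ a' < B) : ∃ a'', |a - a''| ≤ d + 1 ∧ |a'' - a'| ≤ 1 ∧ A ≤ a'' ∧ a'' < B := by
  rw [abs_le] at h
  rcases lt_trichotomy a a' with h3 | h3 | h3
  · exact ⟨a' - 1, by rw [abs_le]; omega, by rw [abs_le]; omega, by omega, by omega⟩
  · exact ⟨a', by rw [abs_le]; omega, by rw [abs_le]; omega, by omega, by omega⟩
  · exact ⟨a' + 1, by rw [abs_le]; omega, by rw [abs_le]; omega, by omega, by omega⟩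

theorem chain {X : Type*} (K : Set X) (I : X → ℤ × ℤ) (F : X → ℝ) (j : ℕ) (z : ℤ × ℤ) {δ : ℝ}
    (hd : ∀ z', Sub j z z' → ∃ u ∈ K, I u = z')
    (hs : ∀ u ∈ K, ∀ u' ∈ K, Sub j z (I u) → Sub j z (I u') → |(I u).1 - (I u').1| ≤ 1 →
      |(I u).2 - (I u').2| ≤ 1 → |F u - F u'| ≤ δ) (d : ℕ) :
    ∀ u ∈ K, ∀ u' ∈ K, Sub j z (I u) → Sub j z (I u') → |(I u).1 - (I u').1| ≤ d + 1 →
      |(I u).2 - (I u').2| ≤ d + 1 → |F u - F u'| ≤ (d + 1) * δ := by
  induction d with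
  | zero => 
    intro u hu u' hu' s1 s2 a1 a2
    simpa using hs u hu u' hu' s1 s2 (by simpa using a1) (by simpa using a2)
  | succ d ih =>
    intro u hu u' hu' s1 s2 a1 a2
    obtain ⟨x, x1, x2, x3⟩ := mid _ _ _ _ d (by push_cast at a1; linarith) (by positivity) s1.1 s2.1
    obtain ⟨y, y1, y2, y3⟩ := mid _ _ _ _ d (by push_cast at a2; linarith) (by positivity) s1.2 s2.2
    have hsub : Sub j z (x, y) := ⟨x3, y3⟩
    obtain ⟨w, hw, hI⟩ := hd _ hsub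
    have e1 := ih u hu w hw s1 (hI ▸ hsub) (by rw [hI]; exact x1) (by rw [hI]; exact y1)
    have e2 := hs w hw u' hu' (hI ▸ hsub) s2 (by rw [hI]; exact x2) (by rw [hI]; exact y2)
    have := abs_sub_le (F u) (F w) (F u')
    push_cast
    linarith

theorem young {x L q : ℝ} (hx : 0 ≤ x) (hL : 0 < L) (hq : 1 < q) :
    x ^ (1 / q) ≤ L + L ^ (1 - q) * x := by
  have hq0 : 0 < q := by linarith
  have hp : 0 ≤ L ^ (1 - q) * x := by positivity
  rcases le_or_gt (x ^ (1 / q)) L with h | h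
  · linarith
  · set y := x ^ (1 / q) with hy
    have hy0 : 0 < y := hL.trans h
    have hxy : x = y * y ^ (q - 1) := by
      have : y ^ q = x := by
        rw [hy, ← Real.rpow_mul hx, one_div_mul_cancel hq0.ne', Real.rpow_one]
      rw [← this]
      conv_lhs => rw [show q = 1 + (q - 1) by ring, Real.rpow_add hy0, Real.rpow_one]
    have h1 : L ^ (q - 1) ≤ y ^ (q - 1) := Real.rpow_le_rpow hL.le h.le (by linarith)
    have h2 : L ^ (1 - q) * L ^ (q - 1) = 1 := by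
      rw [← Real.rpow_add hL]; simp
    have h3 : 0 < L ^ (1 - q) := by positivity
    have : y ≤ L ^ (1 - q) * x := by
      rw [hxy]
      calc y = y * (L ^ (1 - q) * L ^ (q - 1)) := by rw [h2, mul_one]
        _ ≤ y * (L ^ (1 - q) * y ^ (q - 1)) := by gcongr
        _ = _ := by ring
    linarith

theorem vol_image {X : Type*} (S : Set X) (F : X → ℝ) {d : ℝ}
    (h : ∀ u ∈ S, ∀ u' ∈ S, |F u - F u'| ≤ d) : volume (F '' S) ≤ ENNReal.ofReal (2 * d) := by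
  rcases S.eq_empty_or_nonempty with rfl | ⟨u0, hu0⟩
  · simp
  · rw [← Real.volume_closedBall (F u0)]
    refine measure_mono ?_
    rintro _ ⟨u, hu, rfl⟩
    exact h u hu u0 hu0

theorem scale {θ q N s : ℝ} (hN : 0 ≤ N) (hs : 0 < s) (j : ℕ) :
    (2 : ℝ) ^ j * (θ ^ j * (s * (1 / 2 : ℝ) ^ j) ^ 2 * (N / (s * (1 / 2 : ℝ) ^ j) ^ 2) ^ (1 / q)) =
      (θ * (2 : ℝ) ^ (2 / q) / 2) ^ j * (s ^ 2 * (N / s ^ 2) ^ (1 / q)) := by
  have e1 : N / (s * (1 / 2 : ℝ) ^ j) ^ 2 = N / s ^ 2 * ((2 : ℝ) ^ (2 : ℝ)) ^ j := by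
    have : ((2 : ℝ) ^ (2 : ℝ)) ^ j = (2 ^ j) ^ 2 := by
      rw [Real.rpow_two, ← pow_mul, ← pow_mul, mul_comm]
    rw [this]
    simp only [one_div, inv_pow]
    field_simp
  have e2 : (((2 : ℝ) ^ (2 : ℝ)) ^ j) ^ (1 / q) = ((2 : ℝ) ^ (2 / q)) ^ j := by
    rw [← Real.rpow_natCast, ← Real.rpow_natCast, ← Real.rpow_mul (by positivity),
      ← Real.rpow_mul (by positivity), ← Real.rpow_mul (by positivity)]
    congr 1
    ring
  rw [e1, Real.mul_rpow (by positivity) (by positivity), e2]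
  simp only [one_div, inv_pow, mul_pow, div_pow]
  field_simp

theorem one_cell {K : Set (ℝ × ℝ)} (hK : IsCompact K) (F : ℝ × ℝ → ℝ) {q θ c C : ℝ} (hq : 1 < q)
    (hθ0 : 0 ≤ θ) (hc : 0 < c) (hC : 0 ≤ C) (m : Measure (ℝ × ℝ)) (hm : m univ ≠ ∞) (k : ℕ)
    (h : ∀ j : ℕ, ∀ u ∈ K, ∀ u' ∈ K, ‖u - u'‖ ≤ 2 * (1 / 2 : ℝ) ^ (k + j) →
      ∀ N : ℝ, 0 ≤ N → m (ball u (c * (1 / 2 : ℝ) ^ (k + j))) ≤ ENNReal.ofReal N →
        |F u - F u'| ≤ C * θ ^ j * ((1 / 2 : ℝ) ^ (k + j)) ^ 2 *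
          (N / ((1 / 2 : ℝ) ^ (k + j)) ^ 2) ^ (1 / q)) (j : ℕ) {L : ℝ} (hL : 0 < L) (z : ℤ × ℤ) :
    volume (F '' (K ∩ cell k z)) ≤
      ENNReal.ofReal (2 * C * (θ * (2 : ℝ) ^ (2 / q) / 2) ^ j) *
          volume (cell k z ∩ cthickening 1 K) +
        ENNReal.ofReal (2 * C * L * 4 ^ j) *
          volume (cell k z ∩ (cthickening ((1 / 2 : ℝ) ^ k) K \ K)) +
        ENNReal.ofReal (2 * C * (θ * (2 : ℝ) ^ (2 / q) / 2) ^ j + 2 * C * L ^ (1 - q)) *
          m (big (⌈c⌉₊ + 1) k z) := by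
  rcases (K ∩ cell k z).eq_empty_or_nonempty with he | ⟨u0, hu0K, hu0⟩
  · simp [he]
  set κ := θ * (2 : ℝ) ^ (2 / q) / 2 with hκ
  have hκ0 : 0 ≤ κ := by positivity
  set s := (1 / 2 : ℝ) ^ k with hs
  have hs0 : 0 < s := by positivity
  have hs1 : s ≤ 1 := pow_le_one₀ (by norm_num) (by norm_num)
  have hfin : m (big (⌈c⌉₊ + 1) k z) ≠ ∞ := ne_top_of_le_ne_top hm (measure_mono (subset_univ _))
  set N := (m (big (⌈c⌉₊ + 1) k z)).toReal with hN
  have hN0 : 0 ≤ N := ENNReal.toReal_nonneg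
  have hNe : m (big (⌈c⌉₊ + 1) k z) = ENNReal.ofReal N := (ENNReal.ofReal_toReal hfin).symm
  have hball : ∀ i : ℕ, ∀ u ∈ cell k z, m (ball u (c * (1 / 2 : ℝ) ^ (k + i))) ≤ ENNReal.ofReal N := by
    intro i u hu
    rw [← hNe]
    refine measure_mono (ball_sub_big hu ?_)
    have : (1 / 2 : ℝ) ^ (k + i) ≤ (1 / 2 : ℝ) ^ k :=
      pow_le_pow_of_le_one (by norm_num) (by norm_num) (by omega)
    exact mul_le_mul_of_nonneg_left this hc.le
  have hnear : ∀ u ∈ cell k z, ∀ u' ∈ cell k z, ‖u - u'‖ ≤ s := by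
    intro u hu u' hu'
    have e1 : idx k u = z := hu
    have e2 : idx k u' = z := hu'
    simpa [hs] using near2 k u u' 0 (by simp [e1, e2]) (by simp [e1, e2])
  have hth : ∀ r, s ≤ r → cell k z ⊆ cthickening r K := fun r hr u hu =>
    mem_cthickening_of_dist_le u u0 r K hu0K ((dist_eq_norm u u0).trans_le
      ((hnear u hu u0 hu0).trans hr))
  have hLq : 0 < L ^ (1 - q) := by positivity
  rw [hNe]
  by_cases hd : ∀ z', Sub j z z' → ∃ u ∈ K, idx (k + j) u = z'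
  · have key := chain K (idx (k + j)) F j z (δ := C * θ ^ j * ((1 / 2 : ℝ) ^ (k + j)) ^ 2 *
          (N / ((1 / 2 : ℝ) ^ (k + j)) ^ 2) ^ (1 / q)) hd (fun u hu u' hu' s1 s2 a1 a2 =>
        h j u hu u' hu' (by simpa [one_add_one_eq_two] using near2 (k + j) u u' 1 a1 a2) N hN0
          (hball j u ((mem_cell_iff k j z u).2 s1))) (2 ^ j - 1)
    have hcast : ((2 ^ j - 1 : ℕ) : ℤ) + 1 = 2 ^ j := by
      have : 1 ≤ 2 ^ j := Nat.one_le_two_pow
      push_cast [this]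
      ring
    have hcast' : ((2 ^ j - 1 : ℕ) : ℝ) + 1 = 2 ^ j := by exact_mod_cast hcast
    have hb : ∀ u ∈ K ∩ cell k z, ∀ u' ∈ K ∩ cell k z, |F u - F u'| ≤ C * κ ^ j * (s ^ 2 + N) := by
      intro u hu u' hu'
      have s1 := (mem_cell_iff k j z u).1 hu.2
      have s2 := (mem_cell_iff k j z u').1 hu'.2
      have := key u hu.1 u' hu'.1 s1 s2
        (by rw [hcast, abs_le]; have := s1.1; have := s2.1; omega)
        (by rw [hcast, abs_le]; have := s1.2; have := s2.2; omega)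
      rw [hcast', pow_add (1 / 2 : ℝ), ← hs] at this
      have e := scale (θ := θ) (q := q) hN0 hs0 j
      have y := young (x := N / s ^ 2) (by positivity) one_pos hq
      rw [Real.one_rpow, one_mul] at y
      have y2 : s ^ 2 * (N / s ^ 2) ^ (1 / q) ≤ s ^ 2 + N := by
        calc _ ≤ s ^ 2 * (1 + N / s ^ 2) := by gcongr
          _ = _ := by field_simp
      calc _ ≤ _ := this
        _ = C * (κ ^ j * (s ^ 2 * (N / s ^ 2) ^ (1 / q))) := by rw [← e]; ring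
        _ ≤ C * (κ ^ j * (s ^ 2 + N)) := by gcongr
        _ = _ := by ring
    refine (vol_image _ F hb).trans ?_
    rw [inter_eq_left.2 (hth 1 hs1), vol_cell, ← hs, add_right_comm,
      ← ENNReal.ofReal_mul (by positivity), ← ENNReal.ofReal_mul (by positivity),
      ← ENNReal.ofReal_add (by positivity) (by positivity)]
    refine le_add_right (ENNReal.ofReal_le_ofReal ?_)
    have : 0 ≤ C * L ^ (1 - q) * N := by positivity
    nlinarith
  · push Not at hd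
    obtain ⟨z', hz', hK'⟩ := hd
    have hb : ∀ u ∈ K ∩ cell k z, ∀ u' ∈ K ∩ cell k z,
        |F u - F u'| ≤ C * (L * s ^ 2 + L ^ (1 - q) * N) := by
      intro u hu u' hu'
      have := h 0 u hu.1 u' hu'.1 (by have := hnear u hu.2 u' hu'.2; simp only [add_zero]; linarith)
        N hN0 (hball 0 u hu.2)
      simp only [add_zero, pow_zero, mul_one] at this
      rw [← hs] at this
      have y := young (x := N / s ^ 2) (by positivity) hL hq
      calc _ ≤ _ := this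
        _ ≤ C * s ^ 2 * (L + L ^ (1 - q) * (N / s ^ 2)) := by gcongr
        _ = _ := by field_simp
    refine (vol_image _ F hb).trans ?_
    have hsub : cell (k + j) z' ⊆ cell k z ∩ (cthickening s K \ K) := by
      intro u hu
      have e : idx (k + j) u = z' := hu
      have h1 : u ∈ cell k z := (mem_cell_iff k j z u).2 (e ▸ hz')
      exact ⟨h1, hth s le_rfl h1, fun hk => hK' u hk e⟩
    have hv := measure_mono (μ := volume) hsub
    rw [vol_cell, pow_add (1 / 2 : ℝ), ← hs] at hv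
    rw [add_assoc]
    refine le_add_left (le_trans ?_ (add_le_add_left (mul_le_mul_right hv _) _))
    rw [← ENNReal.ofReal_mul (by positivity), ← ENNReal.ofReal_mul (by positivity),
      ← ENNReal.ofReal_add (by positivity) (by positivity)]
    refine ENNReal.ofReal_le_ofReal ?_
    have e4 : (4 : ℝ) ^ j * ((1 / 2 : ℝ) ^ j) ^ 2 = 1 := by
      rw [← pow_mul, mul_comm j 2, pow_mul, ← mul_pow]; norm_num
    have : 0 ≤ C * κ ^ j * N := by positivity
    have e5 : 2 * C * L * 4 ^ j * (s * (1 / 2) ^ j) ^ 2 = 2 * C * L * s ^ 2 := by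
      rw [mul_pow s]
      linear_combination (2 * C * L * s ^ 2) * e4
    rw [e5]
    nlinarith

end MS2X

open MS2X in
theorem ms2d {K : Set (ℝ × ℝ)} (hK : IsCompact K) (F : ℝ × ℝ → ℝ) {q θ c C M : ℝ} (hq : 1 < q)
    (hθ0 : 0 ≤ θ) (hθ : θ * (2 : ℝ) ^ (2 / q) < 2) (hc : 0 < c) (hC : 0 ≤ C)
    (m : ℕ → Measure (ℝ × ℝ)) (hM : ∃ᶠ k : ℕ in atTop, m k univ ≤ ENNReal.ofReal M) (k0 : ℕ)
    (h : ∀ k : ℕ, k0 ≤ k → ∀ j : ℕ, ∀ u ∈ K, ∀ u' ∈ K, ‖u - u'‖ ≤ 2 * (1 / 2 : ℝ) ^ (k + j) →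
      ∀ N : ℝ, 0 ≤ N → m k (ball u (c * (1 / 2 : ℝ) ^ (k + j))) ≤ ENNReal.ofReal N →
        |F u - F u'| ≤ C * θ ^ j * ((1 / 2 : ℝ) ^ (k + j)) ^ 2 *
          (N / ((1 / 2 : ℝ) ^ (k + j)) ^ 2) ^ (1 / q)) :
    volume (F '' K) = 0 := by
  set κ := θ * (2 : ℝ) ^ (2 / q) / 2 with hκ
  have hκ0 : 0 ≤ κ := by positivity
  have hκ1 : κ < 1 := by rw [hκ]; linarith
  set V1 := volume (cthickening 1 K) with hV1
  have hV1f : V1 ≠ ∞ := (hK.cthickening (r := 1)).measure_lt_top.ne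
  set D : ℝ≥0∞ := (win (⌈c⌉₊ + 1)).card * ENNReal.ofReal M with hD
  have hDf : D ≠ ∞ := ENNReal.mul_ne_top (ENNReal.natCast_ne_top _) ENNReal.ofReal_ne_top
  have hT : Tendsto (fun k : ℕ => volume (cthickening ((1 / 2 : ℝ) ^ k) K \ K)) atTop (𝓝 0) := by
    have h1 := (tendsto_measure_cthickening_of_isCompact (μ := volume) hK).comp
      (tendsto_pow_atTop_nhds_zero_of_lt_one (r := (1 / 2 : ℝ)) (by norm_num) (by norm_num))
    have h2 := ENNReal.Tendsto.sub h1 (tendsto_const_nhds (x := volume K))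
      (Or.inl hK.measure_lt_top.ne)
    rw [tsub_self] at h2
    refine h2.congr fun k => ?_
    rw [measure_sdiff (self_subset_cthickening K) hK.measurableSet.nullMeasurableSet
      hK.measure_lt_top.ne]
    rfl
  have step : ∀ (j : ℕ) (L : ℝ), 0 < L → volume (F '' K) ≤
      ENNReal.ofReal (2 * C * κ ^ j) * V1 +
        ENNReal.ofReal (2 * C * κ ^ j + 2 * C * L ^ (1 - q)) * D := by
    intro j L hL
    have lim : Tendsto (fun k : ℕ => ENNReal.ofReal (2 * C * κ ^ j) * V1 +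
        ENNReal.ofReal (2 * C * L * 4 ^ j) * volume (cthickening ((1 / 2 : ℝ) ^ k) K \ K) +
        ENNReal.ofReal (2 * C * κ ^ j + 2 * C * L ^ (1 - q)) * D) atTop
        (𝓝 (ENNReal.ofReal (2 * C * κ ^ j) * V1 + ENNReal.ofReal (2 * C * L * 4 ^ j) * 0 +
        ENNReal.ofReal (2 * C * κ ^ j + 2 * C * L ^ (1 - q)) * D)) :=
      (tendsto_const_nhds.add (ENNReal.Tendsto.const_mul hT (Or.inr ENNReal.ofReal_ne_top))).add
        tendsto_const_nhds
    rw [mul_zero, add_zero] at lim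
    refine ge_of_tendsto_of_frequently lim ?_
    refine (hM.and_eventually (eventually_ge_atTop k0)).mono fun k hk => ?_
    have hcov : F '' K ⊆ ⋃ z, F '' (K ∩ cell k z) := by
      rintro _ ⟨u, hu, rfl⟩
      exact mem_iUnion.2 ⟨idx k u, u, ⟨hu, rfl⟩, rfl⟩
    refine (measure_mono hcov).trans ((measure_iUnion_le _).trans ?_)
    refine (ENNReal.tsum_le_tsum fun z => one_cell hK F hq hθ0 hc hC (m k)
      (ne_top_of_le_ne_top ENNReal.ofReal_ne_top hk.1) k (h k hk.2) j hL z).trans ?_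
    rw [ENNReal.tsum_add, ENNReal.tsum_add, ENNReal.tsum_mul_left, ENNReal.tsum_mul_left,
      ENNReal.tsum_mul_left, tsum_cell_inter, tsum_cell_inter]
    gcongr
    exact (tsum_big _ _ _).trans (by rw [hD]; gcongr; exact hk.1)
  have hr : (2 : ℝ) ^ (1 - q) < 1 := Real.rpow_lt_one_of_one_lt_of_neg (by norm_num) (by linarith)
  have t1 : Tendsto (fun j : ℕ => 2 * C * κ ^ j) atTop (𝓝 0) := by
    simpa using (tendsto_pow_atTop_nhds_zero_of_lt_one hκ0 hκ1).const_mul (2 * C)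
  have t2 : Tendsto (fun j : ℕ => 2 * C * ((2 : ℝ) ^ j) ^ (1 - q)) atTop (𝓝 0) := by
    have := (tendsto_pow_atTop_nhds_zero_of_lt_one (by positivity) hr).const_mul (2 * C)
    rw [mul_zero] at this
    refine this.congr fun j => ?_
    rw [← Real.rpow_natCast, ← Real.rpow_natCast, ← Real.rpow_mul (by norm_num),
      ← Real.rpow_mul (by norm_num), mul_comm (1 - q)]
  have t3 := ENNReal.Tendsto.mul_const (ENNReal.tendsto_ofReal t1) (Or.inr hV1f)
  have t4 := ENNReal.Tendsto.mul_const (ENNReal.tendsto_ofReal (t1.add t2)) (Or.inr hDf)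
  have t5 := t3.add t4
  simp only [add_zero, ENNReal.ofReal_zero, zero_mul] at t5
  exact le_antisymm (ge_of_tendsto' t5 fun j => step j (2 ^ j) (by positivity)) zero_le

end SN
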