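import Mathlib
import Pool.Agent.MP_edaf86_an.N.Defs

namespace SN
open Set Filter Topology MeasureTheory Metric Function
open scoped ENNReal

variable {p : ℕ}

namespace SlabX

theorem meas_S (T : Finset (Fin (p + 2))) (r : ℝ) :
    MeasurableSet {z : W p × W p | ∀ j, j ∉ T → |z.2 j - z.1 j| < r} := by
  have : {z : W p × W p | ∀ j, j ∉ T → |z.2 j - z.1 j| < r} =
      ⋂ j, ⋂ (_ : j ∉ T), {z : W p × W p | |z.2 j - z.1 j| < r} := by ext; simp
  rw [this]
  exact MeasurableSet.iInter fun j => MeasurableSet.iInter fun _ =>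
    (isOpen_lt (by fun_prop) continuous_const).measurableSet

theorem meas_slab (m : Measure (W p)) [IsFiniteMeasure m] (T : Finset (Fin (p + 2))) (r : ℝ) :
    Measurable fun w : W p => m {w' | ∀ j, j ∉ T → |w' j - w j| < r} :=
  measurable_measure_prodMk_left (meas_S T r)

theorem lint_slab (m : Measure (W p)) [IsFiniteMeasure m] (T : Finset (Fin (p + 2))) {r N : ℝ}
    (hr : 0 ≤ r) :
    ∫⁻ w in ball (0 : W p) N, m {w' | ∀ j, j ∉ T → |w' j - w j| < r} ≤
      ENNReal.ofReal ((2 * r) ^ (p + 2 - T.card)) * (ENNReal.ofReal (2 * N) ^ T.card * m univ) := by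
  have h1 := Measure.prod_apply (μ := volume.restrict (ball (0 : W p) N)) (ν := m) (meas_S T r)
  rw [Measure.prod_apply_symm (meas_S T r)] at h1
  refine h1.symm.trans_le ?_
  rw [← mul_assoc, ← lintegral_const]
  refine lintegral_mono fun w' => ?_
  rw [Measure.restrict_apply' measurableSet_ball]
  refine (measure_mono (t := Set.pi univ fun j =>
    if j ∈ T then Ioo (-N) N else Ioo (w' j - r) (w' j + r)) fun w hw j _ => ?_).trans ?_
  · dsimp only
    split_ifs with hj
    · exact abs_lt.1 ((norm_le_pi_norm w j).trans_lt (mem_ball_zero_iff.1 hw.2))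
    · have := abs_lt.1 (hw.1 j hj)
      exact ⟨by linarith [this.2], by linarith [this.1]⟩
  · rw [volume_pi_pi, ← Finset.prod_mul_prod_compl T, mul_comm,
      Finset.prod_congr rfl (g := fun _ => ENNReal.ofReal (2 * r)) fun j hj => by
        rw [if_neg (Finset.mem_compl.1 hj), Real.volume_Ioo]; congr 1; ring,
      Finset.prod_congr (s₁ := T) rfl (g := fun _ => ENNReal.ofReal (2 * N)) fun j hj => by
        rw [if_pos hj, Real.volume_Ioo]; congr 1; ring,
      Finset.prod_const, Finset.prod_const, Finset.card_compl, Fintype.card_fin,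
      ENNReal.ofReal_pow (by positivity)]

end SlabX

open SlabX in
theorem avg_slab (m : Measure (W p)) (hm : m univ < ∞) (T : Finset (Fin (p + 2))) {c θ : ℝ}
    (hc : 0 < c) (hθ : 1 < θ) :
    ∀ᵐ w ∂(volume : Measure (W p)), ∃ M : ℝ≥0∞, M < ∞ ∧ ∃ᶠ k : ℕ in atTop,
      ∑' i : ℕ, ENNReal.ofReal ((1 / θ) ^ i * ((2 : ℝ) ^ (k + i)) ^ (p + 2 - T.card)) *
        m {w' | ∀ j, j ∉ T → |w' j - w j| < c * (1 / 2 : ℝ) ^ (k + i)} ≤ M := by
  have : IsFiniteMeasure m := ⟨hm⟩
  set a : ℕ → W p → ℝ≥0∞ := fun k w =>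
    ∑' i : ℕ, ENNReal.ofReal ((1 / θ) ^ i * ((2 : ℝ) ^ (k + i)) ^ (p + 2 - T.card)) *
      m {w' | ∀ j, j ∉ T → |w' j - w j| < c * (1 / 2 : ℝ) ^ (k + i)} with ha
  have hma : ∀ k, Measurable (a k) := fun k =>
    Measurable.tsum fun i => (meas_slab m T _).const_mul _
  have hθ0 : 0 ≤ 1 / θ := by positivity
  have hθ1 : ENNReal.ofReal (1 / θ) < 1 :=
    ENNReal.ofReal_lt_one.2 ((div_lt_one (by linarith)).2 hθ)
  have key : ∀ N : ℕ, ∀ᵐ w ∂(volume.restrict (ball (0 : W p) N)),
      liminf (fun k => a k w) atTop < ∞ := by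
    intro N
    set K := ENNReal.ofReal ((2 * c) ^ (p + 2 - T.card)) *
      (ENNReal.ofReal (2 * N) ^ T.card * m univ) with hK
    have h1 : ∀ k, ∫⁻ w in ball (0 : W p) N, a k w ≤ (1 - ENNReal.ofReal (1 / θ))⁻¹ * K := by
      intro k
      rw [lintegral_tsum fun i => ((meas_slab m T _).const_mul _).aemeasurable,
        ← ENNReal.tsum_geometric, ← ENNReal.tsum_mul_right]
      refine ENNReal.tsum_le_tsum fun i => ?_
      rw [lintegral_const_mul _ (meas_slab m T _)]
      refine (mul_le_mul_right (lint_slab m T (by positivity)) _).trans (le_of_eq ?_)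
      rw [hK, ← mul_assoc, ← mul_assoc _ (ENNReal.ofReal ((2 * c) ^ _)),
        ← ENNReal.ofReal_mul (by positivity), ← ENNReal.ofReal_pow hθ0,
        ← ENNReal.ofReal_mul (by positivity), mul_assoc ((1 / θ) ^ i), ← mul_pow]
      congr 4
      rw [one_div, inv_pow]
      field_simp
    refine ae_lt_top (Measurable.liminf hma) (ne_top_of_le_ne_top ?_
      ((lintegral_liminf_le hma).trans (liminf_le_of_frequently_le' (Frequently.of_forall h1))))
    refine ENNReal.mul_ne_top (ENNReal.inv_ne_top.2 (tsub_pos_of_lt hθ1).ne') ?_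
    exact ENNReal.mul_ne_top ENNReal.ofReal_ne_top
      (ENNReal.mul_ne_top (ENNReal.pow_ne_top ENNReal.ofReal_ne_top) hm.ne)
  have key2 := ae_all_iff.2 fun N : ℕ => (ae_restrict_iff' measurableSet_ball).1 (key N)
  filter_upwards [key2] with w hw
  obtain ⟨N, hN⟩ := exists_nat_gt ‖w‖
  have h2 := hw N (mem_ball_zero_iff.2 hN)
  exact ⟨_, ENNReal.add_lt_top.2 ⟨h2, ENNReal.one_lt_top⟩, (frequently_lt_of_liminf_lt
    (h := ENNReal.lt_add_right h2.ne one_ne_zero)).mono fun k hk => hk.le⟩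

theorem ae_update {P : W p → Prop} (h : ∀ᵐ w ∂(volume : Measure (W p)), P w) (i : Fin (p + 2)) :
    ∀ᵐ w ∂(volume : Measure (W p)), ∀ᵐ t ∂(volume : Measure ℝ), P (update w i t) := by
  have e := volume_preserving_piFinSuccAbove (fun _ : Fin (p + 2) => ℝ) i
  have h1 := (e.symm _).quasiMeasurePreserving.ae h
  have h2 := Measure.ae_ae_of_ae_prod
    (Measure.measurePreserving_swap.quasiMeasurePreserving.ae h1)
  have h3 := (Measure.quasiMeasurePreserving_snd.comp e.quasiMeasurePreserving).ae h2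
  refine h3.mono fun w hw => hw.mono fun t ht => ?_
  rw [← Fin.insertNth_removeNth]
  exact ht

end SN
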