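import Mathlib
import Pool.Agent.MP_edaf86_an.N.Good
import Pool.Agent.MP_edaf86_an.N.Lin1
import Pool.Agent.MP_edaf86_an.N.Slab
import Pool.Agent.MP_edaf86_an.N.MS2

namespace SN
open Set Filter Topology MeasureTheory Metric Function
open scoped ENNReal

variable {p : ℕ}

namespace MSChartX

/-- the plane through w in the directions i, e -/
def io (w : W p) (i e : Fin (p + 2)) (u : ℝ × ℝ) : W p := update (update w i u.1) e u.2

/-- the slab around that plane -/
def slab (w : W p) (i e : Fin (p + 2)) (r : ℝ) : Set (W p) :=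
  {w' | ∀ j, j ∉ ({i, e} : Finset (Fin (p + 2))) → |w' j - w j| < r}

/-- projection to the plane -/
def pr (i e : Fin (p + 2)) (w' : W p) : ℝ × ℝ := (w' i, w' e)

theorem io_i (w : W p) {i e : Fin (p + 2)} (hie : i ≠ e) (u : ℝ × ℝ) : io w i e u i = u.1 := by
  simp [io, update_of_ne hie]

theorem io_e (w : W p) (i e : Fin (p + 2)) (u : ℝ × ℝ) : io w i e u e = u.2 := by
  simp [io]

theorem io_o (w : W p) {i e j : Fin (p + 2)} (h1 : j ≠ i) (h2 : j ≠ e) (u : ℝ × ℝ) :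
    io w i e u j = w j := by
  simp [io, update_of_ne h1, update_of_ne h2]

theorem io_cont (w : W p) (i e : Fin (p + 2)) : Continuous (io w i e) := by
  unfold io
  fun_prop

theorem io_lip (w : W p) {i e : Fin (p + 2)} (hie : i ≠ e) (u u' : ℝ × ℝ) :
    ‖io w i e u - io w i e u'‖ ≤ ‖u - u'‖ := by
  refine (pi_norm_le_iff_of_nonneg (norm_nonneg _)).2 fun j => ?_
  rw [Pi.sub_apply]
  by_cases h2 : j = e
  · rw [h2, io_e, io_e]; exact norm_snd_le (u - u')
  by_cases h1 : j = i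
  · rw [h1, io_i w hie, io_i w hie]; exact norm_fst_le (u - u')
  rw [io_o w h1 h2, io_o w h1 h2]; simp

theorem pr_meas (i e : Fin (p + 2)) : Measurable (pr (p := p) i e) := by
  unfold pr
  fun_prop

theorem slab_meas (w : W p) (i e : Fin (p + 2)) (r : ℝ) : MeasurableSet (slab w i e r) := by
  have : slab w i e r = ⋂ j ∈ {j | j ∉ ({i, e} : Finset (Fin (p + 2)))},
      {w' : W p | |w' j - w j| < r} := by
    ext w'; simp [slab]
  rw [this]
  refine MeasurableSet.biInter (to_countable _) fun j _ => ?_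
  exact (isOpen_lt (by fun_prop) continuous_const).measurableSet

theorem near_sub (w : W p) {i e : Fin (p + 2)} (hie : i ≠ e) (v : ℝ × ℝ) {r : ℝ} {z : W p}
    (hz : ‖z - io w i e v‖ < r) : z ∈ pr i e ⁻¹' ball v r ∩ slab w i e r := by
  have hj : ∀ j, |z j - io w i e v j| < r := fun j =>
    (norm_le_pi_norm (z - io w i e v) j).trans_lt hz
  refine ⟨?_, fun j hj' => ?_⟩
  · have h1 := hj i
    have h2 := hj e
    rw [io_i w hie] at h1
    rw [io_e] at h2
    rw [mem_preimage, mem_ball, Prod.dist_eq, max_lt_iff]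
    exact ⟨h1, h2⟩
  · simp only [Finset.mem_insert, Finset.mem_singleton, not_or] at hj'
    have h1 := hj j
    rwa [io_o w hj'.1 hj'.2] at h1

theorem cont_of_lip {Φ : W p → W p} {L : ℝ} (h : ∀ x y, ‖Φ x - Φ y‖ ≤ L * ‖x - y‖) :
    Continuous Φ :=
  (LipschitzWith.of_dist_le' (K := L) fun x y => by
    simpa only [dist_eq_norm] using h x y).continuous

/-- the measures on the plane -/
noncomputable def mk (m : Measure (W p)) (w : W p) (i e : Fin (p + 2)) (c θ : ℝ) (k : ℕ) :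
    Measure (ℝ × ℝ) :=
  Measure.sum fun l : ℕ => ENNReal.ofReal ((1 / θ) ^ l * ((2 : ℝ) ^ (k + l)) ^ p) •
    Measure.map (pr i e) (m.restrict (slab w i e (c * (1 / 2 : ℝ) ^ (k + l))))

theorem mk_univ (m : Measure (W p)) (w : W p) (i e : Fin (p + 2)) (c θ : ℝ) (k : ℕ) :
    mk m w i e c θ k univ = ∑' l : ℕ, ENNReal.ofReal ((1 / θ) ^ l * ((2 : ℝ) ^ (k + l)) ^ p) *
      m (slab w i e (c * (1 / 2 : ℝ) ^ (k + l))) := by
  rw [mk, Measure.sum_apply _ MeasurableSet.univ]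
  refine tsum_congr fun l => ?_
  rw [Measure.smul_apply, smul_eq_mul, Measure.map_apply (pr_meas i e) MeasurableSet.univ,
    preimage_univ, Measure.restrict_apply_univ]

theorem mk_le (m : Measure (W p)) (w : W p) (i e : Fin (p + 2)) (c : ℝ) {θ : ℝ} (hθ : 0 < θ)
    (k l : ℕ) {B : Set (ℝ × ℝ)} (hB : MeasurableSet B) {N : ℝ}
    (h : mk m w i e c θ k B ≤ ENNReal.ofReal N) :
    m (pr i e ⁻¹' B ∩ slab w i e (c * (1 / 2 : ℝ) ^ (k + l))) ≤
      ENNReal.ofReal (N * θ ^ l * ((1 / 2 : ℝ) ^ (k + l)) ^ p) := by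
  have h1 := (Measure.le_sum (fun l : ℕ =>
    ENNReal.ofReal ((1 / θ) ^ l * ((2 : ℝ) ^ (k + l)) ^ p) •
    Measure.map (pr i e) (m.restrict (slab w i e (c * (1 / 2 : ℝ) ^ (k + l))))) l B).trans h
  rw [Measure.smul_apply, smul_eq_mul, Measure.map_apply (pr_meas i e) hB,
    Measure.restrict_apply (pr_meas i e hB)] at h1
  have hp : 0 ≤ θ ^ l * ((1 / 2 : ℝ) ^ (k + l)) ^ p := by positivity
  have h2 := mul_le_mul_right h1 (ENNReal.ofReal (θ ^ l * ((1 / 2 : ℝ) ^ (k + l)) ^ p))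
  have e1 : θ ^ l * ((1 / 2 : ℝ) ^ (k + l)) ^ p * ((1 / θ) ^ l * ((2 : ℝ) ^ (k + l)) ^ p) = 1 := by
    rw [mul_mul_mul_comm, ← mul_pow, ← mul_pow, ← mul_pow, mul_one_div_cancel hθ.ne']
    simp
  rw [← mul_assoc, ← ENNReal.ofReal_mul hp, e1, ENNReal.ofReal_one, one_mul,
    ← ENNReal.ofReal_mul hp] at h2
  refine h2.trans (le_of_eq ?_)
  congr 1
  ring

end MSChartX

open MSChartX

theorem ms_chart {q Θ C : ℝ} {k0 : ℕ} {ν : Measure (W p)} {O : Set (W p)} {f : W p → W p}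
    {A : W p → W p →L[ℝ] W p} (h : Ctx q Θ C k0 ν O f A) {μ ρ C0 : ℝ} {x0 : W p}
    {Φ Ψ : W p → W p} {J : Finset (Fin (p + 2))} (hc : Chart (GG ν μ) O f A x0 ρ Φ Ψ J C0)
    {i e : Fin (p + 2)} (hie : i ≠ e) (hi : i ∉ J) (he : e ∉ J) :
    ∀ᵐ w ∂(volume : Measure (W p)), ∀ a : Fin (p + 2),
      volume ((fun u : ℝ × ℝ => f (Ψ (update (update w i u.1) e u.2)) a) ''
        {u | Ψ (update (update w i u.1) e u.2) ∈ GG ν μ ∩ closedBall x0 ρ ∧
          rk (A (Ψ (update (update w i u.1) e u.2))) ≤ J.card}) = 0 := by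
  have hL := LL_pos p
  obtain ⟨a0, ha0⟩ : ∃ a0 : ℕ, 2 * LL p ≤ (2 : ℝ) ^ a0 :=
    (pow_unbounded_of_one_lt (2 * LL p) one_lt_two).imp fun _ h => h.le
  have hΦc := cont_of_lip hc.lipΦ
  have hΨc := cont_of_lip hc.lipΨ
  set c : ℝ := 8 * LL p * 2 ^ a0 with hcdef
  have hc0 : 0 < c := by positivity
  have hq0 : 0 < q := by linarith [h.hq]
  have hθ1 : 1 < Θ / 4 := by linarith [h.h4]
  have hθ0 : 0 < Θ / 4 := by linarith
  have hΘ0 : 0 < Θ := by linarith
  have hfin : Measure.map Φ ν univ < ∞ := by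
    rw [Measure.map_apply hΦc.measurable MeasurableSet.univ, preimage_univ]; exact h.fin
  have hS : IsClosed ((GG ν μ ∩ closedBall x0 ρ) ∩ A ⁻¹' {B | rk B ≤ J.card}) := by
    refine ContinuousOn.preimage_isClosed_of_isClosed
      ((h.contA μ).mono (inter_subset_inter_right _ hc.sub))
      ((isClosed_GG ν μ).inter isClosed_closedBall) ?_
    rw [← isOpen_compl_iff, isOpen_iff_mem_nhds]
    intro B hB
    filter_upwards [rk_lsc B] with B' hB'
    simp only [mem_compl_iff, mem_ofPred_eq, not_le] at hB ⊢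
    exact hB.trans_le hB'
  filter_upwards [avg_slab (Measure.map Φ ν) hfin {i, e} hc0 hθ1] with w hw a
  obtain ⟨M, hM, hfr⟩ := hw
  have hcard : p + 2 - ({i, e} : Finset (Fin (p + 2))).card = p := by
    rw [Finset.card_pair hie]; simp
  rw [hcard] at hfr
  change volume ((fun u : ℝ × ℝ => f (Ψ (io w i e u)) a) ''
    ((fun u => Ψ (io w i e u)) ⁻¹'
      ((GG ν μ ∩ closedBall x0 ρ) ∩ A ⁻¹' {B | rk B ≤ J.card}))) = 0
  refine ms2d (q := q) (θ := (Θ / 4) ^ (1 / q)) (c := c + 2) (C := C0 * C * 4 ^ a0)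
    (M := M.toReal) ?_ _ (by linarith [h.hq]) (by positivity) ?_ (by linarith)
    (by have := hc.c0; have := h.hC; positivity)
    (mk (Measure.map Φ ν) w i e c (Θ / 4)) ?_ (k0 + a0) ?_
  · refine (isCompact_closedBall (pr i e (Φ x0)) (LL p * ρ)).of_isClosed_subset
      (hS.preimage (hΨc.comp (io_cont w i e))) fun u hu => ?_
    have h1 : ‖Ψ (io w i e u) - x0‖ ≤ ρ := by
      have := hu.1.2
      rwa [mem_closedBall, dist_eq_norm] at this
    have h2 := (hc.lipΦ (Ψ (io w i e u)) x0).trans (mul_le_mul_of_nonneg_left h1 hL.le)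
    rw [hc.ri] at h2
    have hj : ∀ j, |io w i e u j - Φ x0 j| ≤ LL p * ρ := fun j =>
      (norm_le_pi_norm (io w i e u - Φ x0) j).trans h2
    have h3 := hj i
    have h4 := hj e
    rw [io_i w hie] at h3
    rw [io_e] at h4
    rw [mem_closedBall, Prod.dist_eq, max_le_iff]
    exact ⟨h3, h4⟩
  · have e1 : (2 : ℝ) ^ (2 / q) = (4 : ℝ) ^ (1 / q) := by
      rw [show (4 : ℝ) = 2 ^ (2 : ℝ) by norm_num, ← Real.rpow_mul (by norm_num)]
      congr 1; ring
    rw [e1, ← Real.mul_rpow hθ0.le (by norm_num), div_mul_cancel₀ _ (by norm_num)]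
    have := Real.rpow_lt_rpow hΘ0.le h.hΘ (one_div_pos.2 hq0)
    rwa [← Real.rpow_mul (by norm_num), mul_one_div_cancel hq0.ne', Real.rpow_one] at this
  · refine hfr.mono fun k hk => ?_
    rw [mk_univ, ENNReal.ofReal_toReal hM.ne]
    exact hk
  · intro k hk j u hu u' hu' huu N hN hm
    obtain ⟨k', hk'⟩ : ∃ k', k + j = k' + a0 := ⟨k + j - a0, by omega⟩
    have hk0 : k0 ≤ k' := by omega
    set s : ℝ := (1 / 2 : ℝ) ^ (k + j) with hs
    have hs0 : 0 < s := by positivity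
    have hsk : (1 / 2 : ℝ) ^ k' = 2 ^ a0 * s := by
      rw [hs, hk', pow_add, mul_left_comm, ← mul_pow]; simp
    have hxx : ‖Ψ (io w i e u) - Ψ (io w i e u')‖ ≤ (1 / 2 : ℝ) ^ k' := by
      refine (hc.lipΨ _ _).trans ?_
      have h1 := mul_le_mul_of_nonneg_left ((io_lip w hie u u').trans huu) hL.le
      rw [hsk]
      nlinarith [mul_le_mul_of_nonneg_right ha0 hs0.le]
    have hb0 : 0 ≤ (Θ / 4) ^ j * (N / s ^ 2) := by positivity
    have hmass : ∀ v : ℝ × ℝ, ‖u - v‖ ≤ 2 * s →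
        Mass ν Θ k' ((Θ / 4) ^ j * (N / s ^ 2)) (Ψ (io w i e v)) := by
      intro v hv l
      have ht0 : 0 < (1 / 2 : ℝ) ^ l := by positivity
      have ht1 : (1 / 2 : ℝ) ^ l ≤ 1 := pow_le_one₀ (by norm_num) (by norm_num)
      have e1 : (1 / 2 : ℝ) ^ (k + (j + l)) = s * (1 / 2 : ℝ) ^ l := by
        rw [← add_assoc, pow_add]
      have e2 : (1 / 2 : ℝ) ^ (k' + l) = 2 ^ a0 * (s * (1 / 2 : ℝ) ^ l) := by
        rw [pow_add, hsk, mul_assoc]
      have h1 := mk_le (Measure.map Φ ν) w i e c hθ0 k (j + l) measurableSet_ball hm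
      rw [Measure.map_apply hΦc.measurable
        ((pr_meas i e measurableSet_ball).inter (slab_meas w i e _))] at h1
      refine (measure_mono fun z hz => ?_).trans (h1.trans (ENNReal.ofReal_le_ofReal ?_))
      · rw [mem_ball, dist_eq_norm] at hz
        have h2 := (hc.lipΦ z (Ψ (io w i e v))).trans_lt (mul_lt_mul_of_pos_left hz hL)
        rw [hc.ri] at h2
        have h3 : ‖Φ z - io w i e v‖ < c * (1 / 2 : ℝ) ^ (k + (j + l)) := by
          rw [e2] at h2
          rw [e1, hcdef]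
          linarith
        obtain ⟨h4, h5⟩ := near_sub w hie v h3
        refine ⟨?_, h5⟩
        rw [mem_preimage, mem_ball] at h4 ⊢
        have h6 : dist v u ≤ 2 * s := by rw [dist_comm, dist_eq_norm]; exact hv
        have h7 := dist_triangle (pr i e (Φ z)) v u
        rw [e1] at h4
        have h8 : c * (s * (1 / 2 : ℝ) ^ l) ≤ c * s :=
          mul_le_mul_of_nonneg_left (mul_le_of_le_one_right hs0.le ht1) hc0.le
        linarith
      · rw [e1, e2]
        have h2 : (s * (1 / 2 : ℝ) ^ l) ^ (p + 2) ≤ (2 ^ a0 * (s * (1 / 2 : ℝ) ^ l)) ^ (p + 2) :=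
          pow_le_pow_left₀ (by positivity)
            (le_mul_of_one_le_left (by positivity) (one_le_pow₀ one_le_two)) _
        refine le_trans (le_of_eq ?_) (mul_le_mul_of_nonneg_left h2 (by positivity))
        have e3 : (Θ / 4) ^ l = Θ ^ l * ((1 / 2 : ℝ) ^ l) ^ 2 := by
          rw [← pow_mul, mul_comm l 2, pow_mul, ← mul_pow]; congr 1; ring
        rw [pow_add (Θ / 4), e3, pow_add (s * (1 / 2 : ℝ) ^ l)]
        field_simp
    have hjet := (h.jet _ (hc.sub hu.1.2) _ (hc.sub hu'.1.2) k' hk0 _ hb0 hxx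
      (hmass u (by simp; positivity)) (hmass u' huu)).2
    have hflat := hc.flat _ hu.1 _ hu'.1 hu.2 fun j' hj' => by
      have h1 : j' ≠ i := fun h => hi (h ▸ hj')
      have h2 : j' ≠ e := fun h => he (h ▸ hj')
      rw [hc.ri, hc.ri, io_o w h1 h2, io_o w h1 h2]
    have h1 : |f (Ψ (io w i e u)) a - f (Ψ (io w i e u')) a| ≤
        ‖f (Ψ (io w i e u')) - f (Ψ (io w i e u))‖ := by
      rw [abs_sub_comm]
      exact norm_le_pi_norm (f (Ψ (io w i e u')) - f (Ψ (io w i e u))) a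
    refine h1.trans (hflat.trans ((mul_le_mul_of_nonneg_left hjet hc.c0).trans (le_of_eq ?_)))
    have e4 : ((Θ / 4) ^ j * (N / s ^ 2)) ^ (1 / q) =
        ((Θ / 4) ^ (1 / q)) ^ j * (N / s ^ 2) ^ (1 / q) := by
      rw [Real.mul_rpow (by positivity) (by positivity), ← Real.rpow_natCast (Θ / 4) j,
        ← Real.rpow_natCast ((Θ / 4) ^ (1 / q)) j, ← Real.rpow_mul hθ0.le,
        ← Real.rpow_mul hθ0.le, mul_comm (j : ℝ)]
    have e5 : (4 : ℝ) ^ a0 = (2 ^ a0) ^ 2 := by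
      rw [← pow_mul, mul_comm a0 2, pow_mul]; norm_num
    rw [e4, hsk, e5]
    ring

end SN
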