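import Mathlib
import Pool.Agent.MP_edaf86_an.N.Defs

namespace SN
open Set Filter Topology MeasureTheory Metric Function
open scoped ENNReal

variable {p : ℕ}

namespace SepX

open Real

lemma closed_diff {R P : Set (ℝ × ℝ)} (hR : IsClosed R)
    (hP : ∀ u ∈ R, u ∈ P → ∃ δ : ℝ, 0 < δ ∧ ∀ v ∈ R, ‖v - u‖ < δ → v ∈ P) :
    IsClosed (R \ P) := by
  refine isClosed_of_closure_subset fun u hu => ?_
  have h1 : u ∈ R := hR.closure_subset (closure_mono sdiff_subset hu)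
  refine ⟨h1, fun h2 => ?_⟩
  obtain ⟨δ, hδ, H⟩ := hP u h1 h2
  obtain ⟨v, hv, h3⟩ := Metric.mem_closure_iff.1 hu δ hδ
  exact hv.2 (H v hv.1 (by rwa [← dist_eq_norm, dist_comm]))

lemma tot_disc {ι : Type*} {K : Set (ℝ × ℝ)} (g : ℝ × ℝ → ι → ℝ)
    (hg : ∀ i, ContinuousOn (fun u => g u i) K) (hi : InjOn g K)
    (h0 : ∀ i, volume ((fun u => g u i) '' K) = 0) : IsTotallyDisconnected K := by
  intro C hC hc x hx y hy
  refine hi (hC hx) (hC hy) (funext fun i => ?_)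
  have h1 := hc.image _ ((hg i).mono hC)
  have key : ∀ x ∈ C, ∀ y ∈ C, g x i ≤ g y i := fun x hx y hy => by
    have h2 := measure_mono_null ((h1.Icc_subset (mem_image_of_mem _ hy)
      (mem_image_of_mem _ hx)).trans (image_mono hC)) (h0 i)
    rw [Real.volume_Icc, ENNReal.ofReal_eq_zero] at h2
    linarith
  exact le_antisymm (key x hx y hy) (key y hy x hx)

lemma exists_tau {K : Set (ℝ × ℝ)} (hK : IsCompact K) (hd : IsTotallyDisconnected K) {a b : ℝ}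
    (hab : a < b) : ∃ τ : C(ℝ × ℝ, ℝ), (∀ u, u.1 = a → τ u = 0) ∧ (∀ u, u.1 = b → τ u = 1) ∧
      ∀ u ∈ K, τ u = 0 ∨ τ u = 1 := by
  have := isCompact_iff_compactSpace.1 hK
  have := totallyDisconnectedSpace_subtype_iff.2 hd
  obtain ⟨C, hC, h1, h2⟩ := exists_clopen_of_closed_subset_open (X := K)
    (Z := {u | u.1.1 = a}) (U := {u | u.1.1 ≠ b}) (isClosed_eq (by fun_prop) continuous_const)
    (isOpen_ne_fun (by fun_prop) continuous_const) fun u hu => by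
      rw [mem_ofPred_eq] at hu ⊢; rw [hu]; exact hab.ne
  have e := hK.isClosed.isClosedEmbedding_subtypeVal.isClosedMap
  obtain ⟨τ, t0, t1, -⟩ := exists_continuous_zero_one_of_isClosed
    (s := Subtype.val '' C ∪ {u : ℝ × ℝ | u.1 = a}) (t := Subtype.val '' Cᶜ ∪ {u : ℝ × ℝ | u.1 = b})
    ((e _ hC.1).union (isClosed_eq (by fun_prop) continuous_const))
    ((e _ hC.compl.1).union (isClosed_eq (by fun_prop) continuous_const)) (by
      rw [disjoint_left]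
      rintro u (⟨v, hv, rfl⟩ | hu) (⟨w, hw, e⟩ | hu')
      · exact hw (Subtype.ext e ▸ hv)
      · exact h2 hv hu'
      · exact hw (h1 (show w.1.1 = a by rw [e]; exact hu))
      · exact hab.ne (hu.symm.trans hu'))
  refine ⟨τ, fun u hu => t0 (Or.inr hu), fun u hu => t1 (Or.inr hu), fun u hu => ?_⟩
  by_cases h : (⟨u, hu⟩ : K) ∈ C
  · exact Or.inl (t0 (Or.inl ⟨_, h, rfl⟩))
  · exact Or.inr (t1 (Or.inl ⟨_, h, rfl⟩))

lemma const {a b : ℝ} (hab : a ≤ b) {f : ℝ → ℝ} (hf : Continuous f)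
    (h : ∀ t ∈ Icc a b, Circle.exp (f t) = 1) : f a = f b :=
  Circle.isCoveringMap_exp.constOn_of_comp isPreconnected_Icc hf.continuousOn
    (fun s hs t ht => by rw [h s hs, h t ht]) (left_mem_Icc.2 hab) (right_mem_Icc.2 hab)

lemma exp_flip {t : ℝ} (ht : t = 0 ∨ t = 1) : Circle.exp (π * t) = Circle.exp (-(π * t)) := by
  rcases ht with rfl | rfl
  · simp
  · rw [← Circle.exp_sub_two_pi]; congr 1; ring

lemma lift {a b c d : ℝ} (hab : a ≤ b) (hcd : c ≤ d) {h : ℝ × ℝ → Circle}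
    (hc : ContinuousOn h (Icc a b ×ˢ Icc c d)) :
    ∃ H : C(ℝ × ℝ, ℝ), ∀ u ∈ Icc a b ×ˢ Icc c d, Circle.exp (H u) = h u := by
  have c1 : Continuous fun u : ℝ × ℝ => ((projIcc a b hab u.1 : ℝ), (projIcc c d hcd u.2 : ℝ)) :=
    (continuous_subtype_val.comp (continuous_projIcc.comp continuous_fst)).prodMk
      (continuous_subtype_val.comp (continuous_projIcc.comp continuous_snd))
  have c2 := hc.comp_continuous c1 fun u => ⟨(projIcc a b hab u.1).2, (projIcc c d hcd u.2).2⟩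
  obtain ⟨e, he⟩ := Circle.exp_surjective ((⟨_, c2⟩ : C(ℝ × ℝ, Circle)) 0)
  obtain ⟨H, ⟨-, hH⟩, -⟩ := Circle.isCoveringMap_exp.existsUnique_continuousMap_lifts
    (⟨_, c2⟩ : C(ℝ × ℝ, Circle)) 0 e he
  refine ⟨H, fun u hu => ?_⟩
  have := congrFun hH u
  simpa only [comp_apply, ContinuousMap.coe_mk, projIcc_of_mem _ hu.1, projIcc_of_mem _ hu.2]
    using this

end SepX

open SepX Real in
theorem sep {ι : Type*} {a b c d : ℝ} (hab : a < b) (hcd : c < d) (P M : Set (ℝ × ℝ))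
    (hd : ∀ u ∈ Icc a b ×ˢ Icc c d, u ∈ P → u ∈ M → False)
    (hP : ∀ u ∈ Icc a b ×ˢ Icc c d, u ∈ P → ∃ δ : ℝ, 0 < δ ∧
      ∀ v ∈ Icc a b ×ˢ Icc c d, ‖v - u‖ < δ → v ∈ P)
    (hM : ∀ u ∈ Icc a b ×ˢ Icc c d, u ∈ M → ∃ δ : ℝ, 0 < δ ∧
      ∀ v ∈ Icc a b ×ˢ Icc c d, ‖v - u‖ < δ → v ∈ M)
    (hbot : ∀ s ∈ Icc a b, (s, c) ∈ P) (htop : ∀ s ∈ Icc a b, (s, d) ∈ M)
    (g : ℝ × ℝ → ι → ℝ) (hg : ∀ i, ContinuousOn (fun u => g u i) (Icc a b ×ˢ Icc c d))
    (hi : InjOn g (Icc a b ×ˢ Icc c d))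
    (h0 : ∀ i, volume ((fun u => g u i) '' ((Icc a b ×ˢ Icc c d) \ (P ∪ M))) = 0) : False := by
  classical
  have hR : IsCompact (Icc a b ×ˢ Icc c d) := isCompact_Icc.prod isCompact_Icc
  have cP := closed_diff hR.isClosed hP
  have cM := closed_diff hR.isClosed hM
  have hK : IsCompact ((Icc a b ×ˢ Icc c d) \ (P ∪ M)) := by
    rw [← sdiff_inter_sdiff]
    exact hR.of_isClosed_subset (cP.inter cM) fun u hu => hu.1.1
  obtain ⟨τ, t0, t1, t2⟩ := exists_tau hK (tot_disc g (fun i => (hg i).mono sdiff_subset)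
    (hi.mono sdiff_subset) h0) hab
  set h : ℝ × ℝ → Circle := fun u =>
    if u ∈ P then Circle.exp (π * τ u) else Circle.exp (-(π * τ u)) with hh
  have e1 : ∀ u ∈ (Icc a b ×ˢ Icc c d) \ M, h u = Circle.exp (π * τ u) := fun u hu => by
    by_cases h1 : u ∈ P
    · exact if_pos h1
    · exact (if_neg h1).trans (exp_flip (t2 u ⟨hu.1, fun h2 => h2.elim h1 hu.2⟩)).symm
  have e2 : ∀ u ∈ (Icc a b ×ˢ Icc c d) \ P, h u = Circle.exp (-(π * τ u)) := fun u hu =>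
    if_neg hu.2
  have hc : ContinuousOn h (Icc a b ×ˢ Icc c d) := by
    refine (ContinuousOn.union_of_isClosed (ContinuousOn.congr ?_ e1) (ContinuousOn.congr ?_ e2)
      cM cP).mono fun u hu => ?_
    · exact Continuous.continuousOn (by fun_prop)
    · exact Continuous.continuousOn (by fun_prop)
    · by_cases h1 : u ∈ M
      · exact Or.inr ⟨hu, fun h2 => hd u hu h2 h1⟩
      · exact Or.inl ⟨hu, h1⟩
  obtain ⟨H, hH⟩ := lift hab.le hcd.le hc
  have mc := left_mem_Icc.2 hcd.le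
  have md := right_mem_Icc.2 hcd.le
  have ma := left_mem_Icc.2 hab.le
  have mb := right_mem_Icc.2 hab.le
  have s1 := const hab.le (f := fun s => H (s, c) - π * τ (s, c)) (by fun_prop) fun s hs => by
    rw [Circle.exp_sub, hH _ ⟨hs, mc⟩, e1 _ ⟨⟨hs, mc⟩, hd _ ⟨hs, mc⟩ (hbot s hs)⟩, div_self']
  have s2 := const hab.le (f := fun s => H (s, d) - -(π * τ (s, d))) (by fun_prop) fun s hs => by
    rw [Circle.exp_sub, hH _ ⟨hs, md⟩, e2 _ ⟨⟨hs, md⟩, fun h1 => hd _ ⟨hs, md⟩ h1 (htop s hs)⟩,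
      div_self']
  have s3 := const hcd.le (f := fun t => H (a, t)) (by fun_prop) fun t ht => by
    rw [hH _ ⟨ma, ht⟩, hh]; simp [t0 (a, t) rfl]
  have s4 := const hcd.le (f := fun t => H (b, t) - π) (by fun_prop) fun t ht => by
    rw [Circle.exp_sub, hH _ ⟨mb, ht⟩, hh]
    simp only [← exp_flip (Or.inr (t1 (b, t) rfl)), ite_self]
    rw [t1 (b, t) rfl, mul_one, div_self']
  simp only [t0 (a, c) rfl, t0 (a, d) rfl, t1 (b, c) rfl, t1 (b, d) rfl] at s1 s2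
  linarith [Real.pi_pos]

end SN
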