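import Mathlib
import Pool.Agent.MP_edaf86_an.N.Good

namespace SN
open Set Filter Topology MeasureTheory Metric Function
open scoped ENNReal

variable {p : ℕ}

namespace ShadowX

theorem box {i e : Fin (p + 2)} (hie : i ≠ e) (a b c : W p) {t : ℝ} (ht : 0 ≤ t)
    (hi : a i ≤ b i) :
    volume (Set.pi univ fun j => if j = i ∨ j = e then Ioo (a j) (b j)
      else Icc (c j - t) (c j + t)) =
      ENNReal.ofReal ((2 * t) ^ p * ((b i - a i) * (b e - a e))) := by
  have he : e ∈ (Finset.univ : Finset (Fin (p + 2))).erase i :=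
    Finset.mem_erase.2 ⟨hie.symm, Finset.mem_univ _⟩
  rw [volume_pi_pi, ← Finset.mul_prod_erase _ _ (Finset.mem_univ i),
    ← Finset.mul_prod_erase _ _ he]
  have h3 : ∏ j ∈ ((Finset.univ : Finset (Fin (p + 2))).erase i).erase e,
      volume (if j = i ∨ j = e then Ioo (a j) (b j) else Icc (c j - t) (c j + t)) =
      ENNReal.ofReal (2 * t) ^ p := by
    rw [Finset.prod_congr rfl (g := fun _ => ENNReal.ofReal (2 * t)), Finset.prod_const,
      Finset.card_erase_of_mem he, Finset.card_erase_of_mem (Finset.mem_univ i),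
      Finset.card_univ, Fintype.card_fin]
    · rfl
    · intro j hj
      have h1 := Finset.mem_erase.1 hj
      have h2 := Finset.mem_erase.1 h1.2
      rw [if_neg (not_or.2 ⟨h2.1, h1.1⟩), Real.volume_Icc]
      congr 1
      ring
  rw [h3, if_pos (Or.inl rfl), if_pos (Or.inr rfl), Real.volume_Ioo, Real.volume_Ioo,
    ENNReal.ofReal_mul (p := (2 * t) ^ p) (by positivity), ENNReal.ofReal_mul (sub_nonneg.2 hi),
    ENNReal.ofReal_pow (by positivity)]
  ring

end ShadowX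

theorem shadow (ν : Measure (W p)) (Φ : W p → W p) {L μ η : ℝ} (hL : 0 < L) (hμ : 0 < μ)
    (hη : 0 < η) (hΦ : ∀ x y, ‖Φ x - Φ y‖ ≤ L * ‖x - y‖) (U : Set (W p))
    (hw : ∀ y ∈ U, ∀ s : ℝ, η ≤ s → ν (ball y s) ≤ ENNReal.ofReal (μ * s ^ p))
    {i e : Fin (p + 2)} (hie : i ≠ e) (a b : W p) :
    volume {w ∈ Set.pi univ (fun j => Ioo (a j) (b j)) |
        ∃ y ∈ U, y ∉ GG ν μ ∧ ∀ j, j ≠ i → j ≠ e → Φ y j = w j} ≤
      ENNReal.ofReal ((10 * L) ^ p * ((b i - a i) * (b e - a e)) / μ) * ν (thickening η U) := by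
  have _h := hη
  rcases (eq_empty_or_nonempty {w ∈ Set.pi univ (fun j => Ioo (a j) (b j)) |
      ∃ y ∈ U, y ∉ GG ν μ ∧ ∀ j, j ≠ i → j ≠ e → Φ y j = w j}) with h0 | ⟨w0, hw0, -⟩
  · rw [h0, measure_empty]
    exact zero_le
  have hi : a i < b i := (hw0 i (mem_univ _)).1.trans (hw0 i (mem_univ _)).2
  have he : a e < b e := (hw0 e (mem_univ _)).1.trans (hw0 e (mem_univ _)).2
  have hex : ∀ y : W p, ∃ r : ℝ, y ∉ GG ν μ →
      0 < r ∧ ENNReal.ofReal (μ * r ^ p) < ν (ball y r) := by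
    intro y
    by_cases hy : y ∈ GG ν μ
    · exact ⟨0, fun h => absurd hy h⟩
    · simp only [GG, Set.mem_ofPred_eq, not_forall, not_le] at hy
      obtain ⟨r, hr, h⟩ := hy
      exact ⟨r, fun _ => ⟨hr, h⟩⟩
  choose r hr using hex
  set T : Set (W p) := {y | y ∈ U ∧ y ∉ GG ν μ} with hT
  have hrη : ∀ y ∈ T, r y ≤ η := fun y hy => by
    by_contra h
    exact absurd (hw y hy.1 _ (not_le.1 h).le) (not_le.2 (hr y hy.2).2)
  obtain ⟨u, huT, hd, hc⟩ := Vitali.exists_disjoint_subfamily_covering_enlargement_ball T id r η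
    hrη 5 (by norm_num)
  have hu : u.Countable := hd.countable_of_isOpen (fun _ _ => isOpen_ball)
    (fun z hz => nonempty_ball.2 (hr z (huT hz).2).1)
  set K : ℝ := (10 * L) ^ p * ((b i - a i) * (b e - a e)) / μ with hK
  have hK0 : 0 ≤ K := by
    have := sub_pos.2 hi
    have := sub_pos.2 he
    positivity
  set B : W p → Set (W p) := fun z => Set.pi univ fun j => if j = i ∨ j = e then Ioo (a j) (b j)
      else Icc (Φ z j - 5 * L * r z) (Φ z j + 5 * L * r z) with hB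
  have hsub : {w ∈ Set.pi univ (fun j => Ioo (a j) (b j)) |
      ∃ y ∈ U, y ∉ GG ν μ ∧ ∀ j, j ≠ i → j ≠ e → Φ y j = w j} ⊆ ⋃ z ∈ u, B z := by
    rintro w ⟨hw1, y, hyU, hyG, hy⟩
    obtain ⟨z, hz, hyz⟩ := hc y ⟨hyU, hyG⟩
    have h1 : ‖y - z‖ < 5 * r z := by
      rw [← dist_eq_norm]
      exact hyz (mem_ball_self (hr y hyG).1)
    refine mem_biUnion hz fun j _ => ?_
    by_cases hj : j = i ∨ j = e
    · simp only [if_pos hj]
      exact hw1 j (mem_univ _)
    · simp only [if_neg hj]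
      obtain ⟨h2, h3⟩ := not_or.1 hj
      rw [← hy j h2 h3]
      have h4 : |Φ y j - Φ z j| ≤ 5 * L * r z :=
        calc |Φ y j - Φ z j| = ‖(Φ y - Φ z) j‖ := rfl
          _ ≤ ‖Φ y - Φ z‖ := norm_le_pi_norm _ j
          _ ≤ L * ‖y - z‖ := hΦ y z
          _ ≤ L * (5 * r z) := by gcongr
          _ = _ := by ring
      have h5 := abs_le.1 h4
      exact ⟨by linarith [h5.1], by linarith [h5.2]⟩
  have hvol : ∀ z ∈ u, volume (B z) ≤ ENNReal.ofReal K * ν (ball z (r z)) := by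
    intro z hz
    obtain ⟨h1, h2⟩ := hr z (huT hz).2
    rw [hB]
    simp only
    rw [ShadowX.box hie a b (Φ z) (by positivity) hi.le]
    refine le_trans (le_of_eq ?_) (mul_le_mul_right h2.le _)
    rw [← ENNReal.ofReal_mul hK0, hK]
    congr 1
    rw [show 2 * (5 * L * r z) = 10 * L * r z by ring, mul_pow (10 * L)]
    field_simp
  have := hu.to_subtype
  calc _ ≤ volume (⋃ z ∈ u, B z) := measure_mono hsub
    _ ≤ ∑' z : u, volume (B z) := measure_biUnion_le _ hu _
    _ ≤ ∑' z : u, ENNReal.ofReal K * ν (ball (z : W p) (r z)) :=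
        ENNReal.tsum_le_tsum fun z => hvol z z.2
    _ = ENNReal.ofReal K * ν (⋃ z ∈ u, ball z (r z)) := by
        rw [ENNReal.tsum_mul_left]
        congr 1
        exact (measure_biUnion hu hd fun _ _ => measurableSet_ball).symm
    _ ≤ _ := by
        refine mul_le_mul_right (measure_mono (iUnion₂_subset fun z hz y hy => ?_)) _
        exact mem_thickening_iff.2 ⟨z, (huT hz).1, (mem_ball.1 hy).trans_le (hrη z (huT hz))⟩

theorem shadow_ball (ν : Measure (W p)) (Φ : W p → W p) {lam s : ℝ} (hlam : 0 < lam) (hs : 0 < s)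
    (hΦ : ∀ x y, ‖Φ x - Φ y‖ ≤ LL p * ‖x - y‖) {x : W p} (hx : x ∈ GG ν lam)
    {i e : Fin (p + 2)} (hie : i ≠ e) (c : W p) :
    volume {w ∈ ball c s | ∃ y ∈ ball x (LL p * s), y ∉ GG ν (KK p * lam) ∧
        ∀ j, j ≠ i → j ≠ e → Φ y j = w j} ≤
      ENNReal.ofReal ((2 * s) ^ (p + 2) / (((p : ℝ) + 2) * 2 ^ (p + 4))) := by
  have hL := LL_pos p
  have hK : 0 < KK p := one_pos.trans_le (one_le_KK p)
  have hη : 0 < LL p * s := mul_pos hL hs
  have h1 := shadow ν Φ hL (mul_pos hK hlam) hη hΦ (ball x (LL p * s))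
    (fun y hy t ht => witness_of_near hlam.le
      (mul_le_mul_of_nonneg_right (two_pow_le_KK p) hlam.le) hη hx
      (by rw [← dist_eq_norm]; exact (mem_ball.1 hy).le) t ht) hie
    (fun j => c j - s) (fun j => c j + s)
  have h2 : ball c s = Set.pi univ fun j => Ioo (c j - s) (c j + s) := by
    rw [ball_pi c hs]
    simp only [Real.ball_eq_Ioo]
  have h3 : thickening (LL p * s) (ball x (LL p * s)) ⊆ ball x (2 * (LL p * s)) := by
    intro y hy
    obtain ⟨z, hz, hyz⟩ := mem_thickening_iff.1 hy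
    rw [mem_ball] at hz ⊢
    linarith [dist_triangle y z x]
  rw [h2]
  refine h1.trans ((mul_le_mul_right ((measure_mono h3).trans (hx _ (by positivity))) _).trans
    (le_of_eq ?_))
  rw [show c i + s - (c i - s) = 2 * s by ring, show c e + s - (c e - s) = 2 * s by ring,
    ← ENNReal.ofReal_mul (by positivity)]
  congr 1
  have h4 : (10 * LL p) ^ p * (2 * (LL p * s)) ^ p =
      (40 * ((p : ℝ) + 2) ^ 2) ^ p * (2 * s) ^ p := by
    rw [← mul_pow, ← mul_pow]
    congr 1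
    unfold LL
    ring
  have h5 : (0 : ℝ) < (40 * ((p : ℝ) + 2) ^ 2) ^ p := by positivity
  calc (10 * LL p) ^ p * (2 * s * (2 * s)) / (KK p * lam) * (lam * (2 * (LL p * s)) ^ p)
      = (10 * LL p) ^ p * (2 * (LL p * s)) ^ p * (2 * s * (2 * s)) / KK p := by
        field_simp
    _ = _ := by
        rw [h4, pow_add (2 * s) p 2]
        unfold KK
        generalize (40 * ((p : ℝ) + 2) ^ 2) ^ p = Z at h5 ⊢
        field_simp

end SN
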