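import Mathlib
import Pool.Agent.MP_edaf86_an.N.Arc
import Pool.Agent.MP_edaf86_an.N.Shadow
import Pool.Agent.MP_edaf86_an.N.MSChart
import Pool.Agent.MP_edaf86_an.N.Sep

namespace SN
open Set Filter Topology MeasureTheory Metric Function
open scoped ENNReal

variable {p : ℕ}

namespace LemCX

theorem cont_of_lip {Φ : W p → W p} {L : ℝ} (hL : 0 < L) (h : ∀ x y, ‖Φ x - Φ y‖ ≤ L * ‖x - y‖) :
    Continuous Φ :=
  (LipschitzWith.of_dist_le_mul (K := ⟨L, hL.le⟩) fun x y => by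
    rw [dist_eq_norm, dist_eq_norm]; exact h x y).continuous

theorem ev_small (B : ℝ) {δ : ℝ} (hδ : 0 < δ) : ∀ᶠ k : ℕ in atTop, B * (1 / 2 : ℝ) ^ k < δ := by
  have h := (tendsto_pow_atTop_nhds_zero_of_lt_one (r := (1 / 2 : ℝ)) (by norm_num)
    (by norm_num)).const_mul B
  rw [mul_zero] at h
  exact h.eventually (gt_mem_nhds hδ)

/-- the tube around a segment in direction e -/
def tube (w : W p) (e : Fin (p + 2)) (r c d : ℝ) : Set (W p) :=
  {v | (∀ j, j ≠ e → |v j - w j| ≤ r) ∧ v e ∈ Icc c d}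

theorem tube_near {w v : W p} {e : Fin (p + 2)} {r c d : ℝ} (hr : 0 ≤ r)
    (hv : v ∈ tube w e r c d) : ‖v - update w e (v e)‖ ≤ r := by
  rw [pi_norm_le_iff_of_nonneg hr]
  intro j
  by_cases hj : j = e
  · subst hj
    simpa using hr
  · rw [Pi.sub_apply, update_of_ne hj, Real.norm_eq_abs]
    exact hv.1 j hj

/-- the parametrisation of a coordinate plane -/
def io (w : W p) (i e : Fin (p + 2)) (u : ℝ × ℝ) : W p := update (update w i u.1) e u.2

theorem io_e (w : W p) (i e : Fin (p + 2)) (u : ℝ × ℝ) : io w i e u e = u.2 := by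
  simp [io]

theorem io_i (w : W p) {i e : Fin (p + 2)} (hie : i ≠ e) (u : ℝ × ℝ) : io w i e u i = u.1 := by
  simp [io, update_of_ne hie]

theorem io_ne (w : W p) {i e j : Fin (p + 2)} (hi : j ≠ i) (he : j ≠ e) (u : ℝ × ℝ) :
    io w i e u j = w j := by
  simp [io, update_of_ne hi, update_of_ne he]

theorem io_lip (w : W p) {i e : Fin (p + 2)} (hie : i ≠ e) (u v : ℝ × ℝ) :
    ‖io w i e v - io w i e u‖ ≤ ‖v - u‖ := by
  rw [pi_norm_le_iff_of_nonneg (norm_nonneg _)]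
  intro j
  rw [Pi.sub_apply]
  by_cases he : j = e
  · rw [he, io_e, io_e]
    exact norm_snd_le (v - u)
  · by_cases hi : j = i
    · rw [hi, io_i w hie, io_i w hie]
      exact norm_fst_le (v - u)
    · rw [io_ne w hi he, io_ne w hi he]
      simp

theorem io_cont (w : W p) (i e : Fin (p + 2)) : Continuous (io w i e) := by
  have h1 : Continuous fun u : ℝ × ℝ => update w i u.1 := continuous_const.update i continuous_fst
  exact h1.update e continuous_snd

theorem io_inj (w : W p) {i e : Fin (p + 2)} (hie : i ≠ e) : Injective (io w i e) := by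
  intro u v h
  have h1 := congrFun h i
  have h2 := congrFun h e
  rw [io_i w hie, io_i w hie] at h1
  rw [io_e, io_e] at h2
  exact Prod.ext h1 h2

theorem vol_box (w : W p) (e : Fin (p + 2)) {r c d : ℝ} (hr : 0 ≤ r) (hcd : c ≤ d) :
    volume (Set.pi univ fun j => Ioo (update (fun j => w j - r) e c j)
      (update (fun j => w j + r) e d j)) = ENNReal.ofReal ((2 * r) ^ (p + 1) * (d - c)) := by
  rw [Real.volume_pi_Ioo, ← Finset.mul_prod_erase Finset.univ _ (Finset.mem_univ e),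
    update_self, update_self]
  have : ∏ j ∈ Finset.univ.erase e, ENNReal.ofReal (update (fun j => w j + r) e d j -
      update (fun j => w j - r) e c j) = ∏ _j ∈ Finset.univ.erase e, ENNReal.ofReal (2 * r) := by
    refine Finset.prod_congr rfl fun j hj => ?_
    have hj' := Finset.ne_of_mem_erase hj
    rw [update_of_ne hj', update_of_ne hj']
    congr 1
    ring
  rw [this, Finset.prod_const, Finset.card_erase_of_mem (Finset.mem_univ e), Finset.card_univ,
    Fintype.card_fin, ← ENNReal.ofReal_pow (by positivity),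
    ← ENNReal.ofReal_mul (sub_nonneg.2 hcd), mul_comm]
  rfl

theorem key {q Θ C : ℝ} {k0 : ℕ} {ν : Measure (W p)} {O : Set (W p)} {f : W p → W p}
    {A : W p → W p →L[ℝ] W p} (h : Ctx q Θ C k0 ν O f A) {μ ρ C0 : ℝ} (hμ : 0 < μ) {x0 : W p}
    {Φ Ψ : W p → W p} {J : Finset (Fin (p + 2))}
    (hc : Chart (GG ν (KK p * μ)) O f A x0 ρ Φ Ψ J C0) {Ob : Bool → Set (W p)}
    (hcol : Col (GG ν (KK p * μ)) A J.card x0 ρ Ob) {i e : Fin (p + 2)} (hie : i ≠ e)
    (hi : i ∉ J) (he : e ∉ J) {w : W p} {M : ℝ}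
    (hM : ∃ᶠ k : ℕ in atTop, ν (Φ ⁻¹' {v | ∀ j, j ≠ e →
      |v j - w j| < (1 + LL p ^ 2) * (1 / 2 : ℝ) ^ k}) ≤
        ENNReal.ofReal (M * ((1 / 2 : ℝ) ^ k) ^ (p + 1)))
    (b : Bool) {c d : ℝ} (hcd : c < d)
    (hl : ∀ t ∈ Icc c d, Ψ (update w e t) ∈ GG ν μ ∩ ball x0 (ρ / 2))
    (h1 : Ψ (update w e c) ∈ Ob b) (h2 : Ψ (update w e d) ∈ Ob (!b)) : False := by
  have hL := LL_pos p
  have hK : 0 < KK p * μ := mul_pos (one_pos.trans_le (one_le_KK p)) hμ
  have hGG : GG ν μ ⊆ GG ν (KK p * μ) := GG_mono (le_mul_of_one_le_left hμ.le (one_le_KK p))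
  have hρ := hc.rpos
  have hl' : ∀ t ∈ Icc c d, Ψ (update w e t) ∈ GG ν (KK p * μ) ∩ closedBall x0 ρ := fun t ht =>
    ⟨hGG (hl t ht).1, closedBall_subset_closedBall (by linarith)
      (ball_subset_closedBall (hl t ht).2)⟩
  obtain ⟨δ1, hδ1, H1⟩ := hcol.opn b _ h1 (hl' c (left_mem_Icc.2 hcd.le))
  obtain ⟨δ2, hδ2, H2⟩ := hcol.opn (!b) _ h2 (hl' d (right_mem_Icc.2 hcd.le))
  obtain ⟨k, hk, k1, k2, k3, k4⟩ := (hM.and_eventually ((ev_small (LL p) hδ1).and
    ((ev_small (LL p) hδ2).and ((ev_small (LL p) (half_pos hρ)).and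
      (ev_small ((10 * LL p) ^ p * M / (KK p * μ)) one_pos))))).exists
  obtain ⟨r, hr⟩ : ∃ r : ℝ, r = (1 / 2 : ℝ) ^ k := ⟨_, rfl⟩
  rw [← hr] at hk k1 k2 k3 k4
  have r0 : 0 < r := by rw [hr]; positivity
  have near : ∀ v ∈ tube w e r c d, ‖Ψ v - Ψ (update w e (v e))‖ ≤ LL p * r := fun v hv =>
    (hc.lipΨ _ _).trans (mul_le_mul_of_nonneg_left (tube_near r0.le hv) hL.le)
  have hw : ∀ y ∈ Ψ '' tube w e r c d, ∀ s : ℝ, LL p * r ≤ s →
      ν (ball y s) ≤ ENNReal.ofReal (KK p * μ * s ^ p) := by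
    rintro _ ⟨v, hv, rfl⟩ s hs
    exact witness_of_near hμ.le (mul_le_mul_of_nonneg_right (two_pow_le_KK p) hμ.le)
      (mul_pos hL r0) (hl _ hv.2).1 (near v hv) s hs
  have sh := shadow ν Φ hL hK (mul_pos hL r0) hc.lipΦ _ hw hie
    (update (fun j => w j - r) e c) (update (fun j => w j + r) e d)
  have th : thickening (LL p * r) (Ψ '' tube w e r c d) ⊆
      Φ ⁻¹' {v | ∀ j, j ≠ e → |v j - w j| < (1 + LL p ^ 2) * r} := by
    intro z hz
    obtain ⟨_, ⟨v, hv, rfl⟩, hzy⟩ := mem_thickening_iff.1 hz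
    intro j hj
    rw [dist_eq_norm] at hzy
    have a1 := hc.lipΦ z (Ψ v)
    rw [hc.ri v] at a1
    have a2 : |Φ z j - v j| ≤ ‖Φ z - v‖ := norm_le_pi_norm (Φ z - v) j
    have a3 := hv.1 j hj
    have a4 := mul_lt_mul_of_pos_left hzy hL
    have a5 := abs_sub_le (Φ z j) (v j) (w j)
    nlinarith
  have lt : volume {v ∈ Set.pi univ (fun j => Ioo (update (fun j => w j - r) e c j)
      (update (fun j => w j + r) e d j)) |
        ∃ y ∈ Ψ '' tube w e r c d, y ∉ GG ν (KK p * μ) ∧ ∀ j, j ≠ i → j ≠ e → Φ y j = v j} <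
      volume (Set.pi univ fun j => Ioo (update (fun j => w j - r) e c j)
        (update (fun j => w j + r) e d j)) := by
    rw [vol_box w e r0.le hcd.le]
    refine (sh.trans (mul_le_mul_right ((measure_mono th).trans hk) _)).trans_lt ?_
    have dc : 0 < d - c := sub_pos.2 hcd
    rw [update_self, update_self, update_of_ne hie, update_of_ne hie,
      show w i + r - (w i - r) = 2 * r by ring, ← ENNReal.ofReal_mul (by positivity),
      ENNReal.ofReal_lt_ofReal_iff (by positivity)]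
    have e1 : (10 * LL p) ^ p * (2 * r * (d - c)) / (KK p * μ) * (M * r ^ (p + 1)) =
        (10 * LL p) ^ p * M / (KK p * μ) * r * (2 * (r ^ (p + 1) * (d - c))) := by ring
    have e2 : (2 * r) ^ (p + 1) * (d - c) = 2 ^ p * (2 * (r ^ (p + 1) * (d - c))) := by ring
    rw [e1, e2]
    exact mul_lt_mul_of_pos_right (k4.trans_le (one_le_pow₀ one_le_two)) (by positivity)
  have ms := ms_chart h hc hie hi he
  obtain ⟨w', hbox, hgood, hms⟩ : ∃ w' ∈ Set.pi univ fun j => Ioo (update (fun j => w j - r) e c j)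
      (update (fun j => w j + r) e d j),
      (¬∃ y ∈ Ψ '' tube w e r c d, y ∉ GG ν (KK p * μ) ∧ ∀ j, j ≠ i → j ≠ e → Φ y j = w' j) ∧
      ∀ a : Fin (p + 2), volume ((fun u : ℝ × ℝ => f (Ψ (io w' i e u)) a) ''
        {u | Ψ (io w' i e u) ∈ GG ν (KK p * μ) ∩ closedBall x0 ρ ∧
          rk (A (Ψ (io w' i e u))) ≤ J.card}) = 0 := by
    by_contra hno
    refine absurd (measure_mono_ae ?_) (not_le.2 lt)
    filter_upwards [ms] with v hv hb
    refine ⟨hb, ?_⟩
    by_contra hn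
    exact hno ⟨v, hb, hn, hv⟩
  have mt : ∀ u ∈ Icc (w i - r) (w i + r) ×ˢ Icc c d, io w' i e u ∈ tube w e r c d := by
    intro u hu
    refine ⟨fun j hj => ?_, by rw [io_e]; exact hu.2⟩
    by_cases hji : j = i
    · rw [hji, io_i w' hie, abs_le]
      constructor <;> linarith [hu.1.1, hu.1.2]
    · have := hbox j (mem_univ j)
      simp only [update_of_ne hj] at this
      rw [io_ne w' hji hj, abs_le]
      constructor <;> linarith [this.1, this.2]
  have mg : ∀ u ∈ Icc (w i - r) (w i + r) ×ˢ Icc c d,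
      Ψ (io w' i e u) ∈ GG ν (KK p * μ) ∩ closedBall x0 ρ := by
    intro u hu
    constructor
    · by_contra hn
      exact hgood ⟨_, ⟨_, mt u hu, rfl⟩, hn, fun j hji hje => by
        rw [hc.ri, io_ne w' hji hje]⟩
    · have a1 := near _ (mt u hu)
      have a2 := (hl _ (mt u hu).2).2
      rw [mem_ball] at a2
      rw [← dist_eq_norm] at a1
      rw [mem_closedBall]
      linarith [dist_triangle (Ψ (io w' i e u)) (Ψ (update w e (io w' i e u e))) x0]
  have opn : ∀ b' : Bool, ∀ u ∈ Icc (w i - r) (w i + r) ×ˢ Icc c d,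
      u ∈ {u | Ψ (io w' i e u) ∈ Ob b'} → ∃ δ : ℝ, 0 < δ ∧
      ∀ v ∈ Icc (w i - r) (w i + r) ×ˢ Icc c d, ‖v - u‖ < δ →
        v ∈ {u | Ψ (io w' i e u) ∈ Ob b'} := by
    intro b' u hu hb
    obtain ⟨δ, hδ, H⟩ := hcol.opn b' _ hb (mg u hu)
    refine ⟨δ / LL p, div_pos hδ hL, fun v hv hvu => H _ (mg v hv) ?_⟩
    rw [lt_div_iff₀ hL] at hvu
    have a1 := hc.lipΨ (io w' i e v) (io w' i e u)
    have a2 := mul_le_mul_of_nonneg_left (io_lip w' hie u v) hL.le
    linarith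
  have mO : MapsTo (fun u => Ψ (io w' i e u)) (Icc (w i - r) (w i + r) ×ˢ Icc c d) O :=
    fun u hu => hc.sub (mg u hu).2
  refine sep (a := w i - r) (b := w i + r) (by linarith) hcd {u | Ψ (io w' i e u) ∈ Ob b}
    {u | Ψ (io w' i e u) ∈ Ob (!b)} ?_ (opn b) (opn (!b)) ?_ ?_ (fun u => f (Ψ (io w' i e u)))
    ?_ ?_ ?_
  · intro u _ a1 a2
    cases b
    · exact hcol.disj _ a2 a1
    · exact hcol.disj _ a1 a2
  · intro s hs
    have hu : (s, c) ∈ Icc (w i - r) (w i + r) ×ˢ Icc c d := ⟨hs, left_mem_Icc.2 hcd.le⟩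
    have a1 := near _ (mt _ hu)
    rw [io_e] at a1
    exact H1 _ (mg _ hu) (a1.trans_lt k1)
  · intro s hs
    have hu : (s, d) ∈ Icc (w i - r) (w i + r) ×ˢ Icc c d := ⟨hs, right_mem_Icc.2 hcd.le⟩
    have a1 := near _ (mt _ hu)
    rw [io_e] at a1
    exact H2 _ (mg _ hu) (a1.trans_lt k2)
  · intro a
    exact (continuous_apply a).comp_continuousOn
      (h.cont.comp ((cont_of_lip hL hc.lipΨ).comp (io_cont w' i e)).continuousOn mO)
  · intro u hu v hv huv
    exact io_inj w' hie (hc.ri.injective (h.inj (mO hu) (mO hv) huv))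
  · intro a
    refine measure_mono_null (image_mono ?_) (hms a)
    intro u hu
    refine ⟨mg u hu.1, ?_⟩
    by_contra hn
    refine hu.2 ?_
    rcases hcol.cover _ (mg u hu.1) (not_le.1 hn) with a1 | a1
    · cases b
      · exact Or.inr a1
      · exact Or.inl a1
    · cases b
      · exact Or.inl a1
      · exact Or.inr a1

theorem slab {ν : Measure (W p)} (hν : ν univ < ∞) {Φ : W p → W p} (hΦ : Continuous Φ)
    (e : Fin (p + 2)) {c : ℝ} (hc : 0 < c) :
    ∀ᵐ w ∂(volume : Measure (W p)), ∃ M : ℝ, ∃ᶠ k : ℕ in atTop,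
      ν (Φ ⁻¹' {v | ∀ j, j ≠ e → |v j - w j| < c * (1 / 2 : ℝ) ^ k}) ≤
        ENNReal.ofReal (M * ((1 / 2 : ℝ) ^ k) ^ (p + 1)) := by
  have hm : Measure.map Φ ν univ < ∞ := by
    rw [Measure.map_apply hΦ.measurable MeasurableSet.univ]
    exact hν
  filter_upwards [avg_slab (Measure.map Φ ν) hm {e} hc one_lt_two] with w hw
  obtain ⟨M, hM, H⟩ := hw
  refine ⟨M.toReal, H.mono fun k hk => ?_⟩
  have h1 := (ENNReal.le_tsum 0).trans hk
  simp only [pow_zero, one_mul, add_zero, Finset.card_singleton, Finset.mem_singleton] at h1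
  have e0 : p + 2 - 1 = p + 1 := rfl
  rw [e0] at h1
  have h2 := Measure.le_map_apply (μ := ν) hΦ.measurable.aemeasurable
    {v : W p | ∀ j, j ≠ e → |v j - w j| < c * (1 / 2 : ℝ) ^ k}
  refine h2.trans ?_
  have e1 : ENNReal.ofReal (((1 / 2 : ℝ) ^ k) ^ (p + 1)) *
      ENNReal.ofReal (((2 : ℝ) ^ k) ^ (p + 1)) = 1 := by
    rw [← ENNReal.ofReal_mul (by positivity), ← mul_pow, ← mul_pow]
    norm_num
  calc _ = ENNReal.ofReal (((1 / 2 : ℝ) ^ k) ^ (p + 1)) *
        (ENNReal.ofReal (((2 : ℝ) ^ k) ^ (p + 1)) * Measure.map Φ ν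
          {v : W p | ∀ j, j ≠ e → |v j - w j| < c * (1 / 2 : ℝ) ^ k}) := by
        rw [← mul_assoc, e1, one_mul]
    _ ≤ ENNReal.ofReal (((1 / 2 : ℝ) ^ k) ^ (p + 1)) * M := mul_le_mul_right h1 _
    _ = _ := by
        rw [ENNReal.ofReal_mul ENNReal.toReal_nonneg, ENNReal.ofReal_toReal hM.ne, mul_comm]

end LemCX

open LemCX

theorem lemC {q Θ C : ℝ} {k0 : ℕ} {ν : Measure (W p)} {O : Set (W p)} {f : W p → W p}
    {A : W p → W p →L[ℝ] W p} (h : Ctx q Θ C k0 ν O f A) {μ ρ C0 : ℝ} (hμ : 0 < μ) {x0 : W p}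
    {Φ Ψ : W p → W p} {J : Finset (Fin (p + 2))}
    (hc : Chart (GG ν (KK p * μ)) O f A x0 ρ Φ Ψ J C0) {Ob : Bool → Set (W p)}
    (hcol : Col (GG ν (KK p * μ)) A J.card x0 ρ Ob) {e : Fin (p + 2)} (he : e ∉ J) :
    ∀ᵐ w ∂(volume : Measure (W p)), ∀ a b : ℝ,
      (∀ t ∈ Icc a b, Ψ (update w e t) ∈ GG ν μ ∩ ball x0 (ρ / 2)) →
      ∀ t₁ ∈ Icc a b, ∀ t₂ ∈ Icc a b,
        Ψ (update w e t₁) ∈ Ob true → Ψ (update w e t₂) ∈ Ob false → False := by
  have hL := LL_pos p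
  by_cases hJ : J = Finset.univ.erase e
  · refine Eventually.of_forall fun w a b hl t₁ m1 t₂ m2 h1 h2 => ?_
    have hGG : GG ν μ ⊆ GG ν (KK p * μ) := GG_mono (le_mul_of_one_le_left hμ.le (one_le_KK p))
    have hρ := hc.rpos
    have hl' : ∀ t ∈ Icc a b, Ψ (update w e t) ∈ GG ν (KK p * μ) ∩ closedBall x0 ρ :=
      fun t ht => ⟨hGG (hl t ht).1, closedBall_subset_closedBall (by linarith)
        (ball_subset_closedBall (hl t ht).2)⟩
    have cJ : J.card = p + 1 := by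
      rw [hJ, Finset.card_erase_of_mem (Finset.mem_univ e), Finset.card_univ, Fintype.card_fin]
      rfl
    have nz : ∀ b' : Bool, ∀ y ∈ Ob b', (A y).det ≠ 0 := by
      intro b' y hy
      have a1 := hcol.hr b' y hy
      have a2 := rk_le (A y)
      exact (rk_eq_iff (A y)).1 (by omega)
    refine mono_line h hc hJ w hl' m1 m2 ?_ ?_
    · rcases lt_or_gt_of_ne (nz true _ h1) with a1 | a1
      · exact (hcol.disj _ h1 (hcol.sgn false _ (hl' t₁ m1) (by simpa [sg] using a1))).elim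
      · exact a1
    · rcases lt_or_gt_of_ne (nz false _ h2) with a1 | a1
      · exact a1
      · exact (hcol.disj _ (hcol.sgn true _ (hl' t₂ m2) (by simpa [sg] using a1)) h2).elim
  · obtain ⟨i, hie, hi⟩ : ∃ i, i ≠ e ∧ i ∉ J := by
      by_contra hn
      push Not at hn
      refine hJ (Finset.ext fun j => ?_)
      simp only [Finset.mem_erase, Finset.mem_univ, and_true]
      exact ⟨fun hj e' => he (e' ▸ hj), hn j⟩
    filter_upwards [slab h.fin (cont_of_lip hL hc.lipΦ) e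
      (show 0 < 1 + LL p ^ 2 by positivity)] with w hw a b hl t₁ m1 t₂ m2 h1 h2
    obtain ⟨M, hM⟩ := hw
    rcases lt_trichotomy t₁ t₂ with ht | ht | ht
    · exact key h hμ hc hcol hie hi he hM true ht
        (fun t mt => hl t ⟨m1.1.trans mt.1, mt.2.trans m2.2⟩) h1 h2
    · subst ht
      exact hcol.disj _ h1 h2
    · exact key h hμ hc hcol hie hi he hM false ht
        (fun t mt => hl t ⟨m2.1.trans mt.1, mt.2.trans m1.2⟩) h2 h1

end SN
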