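import Mathlib
import Pool.Agent.MP_edaf86_an.N.LemC

namespace SN
open Set Filter Topology MeasureTheory Metric Function
open scoped ENNReal

variable {p : ℕ}

namespace LemSqX

lemma norm_update (w : W p) (i e : Fin (p + 2)) (s s' t : ℝ) :
    ‖update (update w i s') e t - update (update w i s) e t‖ ≤ |s' - s| := by
  refine (pi_norm_le_iff_of_nonneg (abs_nonneg _)).2 fun j => ?_
  rw [Pi.sub_apply, Real.norm_eq_abs]
  by_cases h1 : j = e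
  · subst h1; simp
  · rw [update_of_ne h1, update_of_ne h1]
    by_cases h2 : j = i
    · subst h2; simp
    · rw [update_of_ne h2, update_of_ne h2]; simp

lemma both {a b : ℝ} (hab : a < b) (U : Bool → Set ℝ) {P : ℝ → Prop}
    (hP : ∀ᵐ s ∂(volume : Measure ℝ), P s)
    (ho : ∀ c, ∀ s ∈ Icc a b, s ∈ U c → ∃ δ : ℝ, 0 < δ ∧ ∀ s' ∈ Icc a b, |s' - s| < δ → s' ∈ U c)
    (hc : ∀ s ∈ Icc a b, s ∈ U true ∨ s ∈ U false) {s₁ s₂ : ℝ} (h1 : s₁ ∈ Icc a b)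
    (h2 : s₂ ∈ Icc a b) (u1 : s₁ ∈ U true) (u2 : s₂ ∈ U false) :
    ∃ s ∈ Icc a b, P s ∧ s ∈ U true ∧ s ∈ U false := by
  have hin : ∀ c, ∀ s ∈ Icc a b, s ∈ U c → s ∈ interior (U c ∪ (Icc a b)ᶜ) := by
    intro c s hs hu
    obtain ⟨δ, hδ, H⟩ := ho c s hs hu
    refine mem_interior_iff_mem_nhds.2 (mem_of_superset (ball_mem_nhds s hδ) fun s' hs' => ?_)
    by_cases e : s' ∈ Icc a b
    · exact Or.inl (H s' e hs')
    · exact Or.inr e
  obtain ⟨s0, hs0, hv⟩ := isPreconnected_Icc (a := a) (b := b) _ _ isOpen_interior isOpen_interior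
    (fun s hs => (hc s hs).imp (hin true s hs) (hin false s hs)) ⟨s₁, h1, hin true s₁ h1 u1⟩
    ⟨s₂, h2, hin false s₂ h2 u2⟩
  have hop : IsOpen (interior (U true ∪ (Icc a b)ᶜ) ∩ interior (U false ∪ (Icc a b)ᶜ)) :=
    isOpen_interior.inter isOpen_interior
  rw [← closure_Ioo hab.ne] at hs0
  obtain ⟨s, ⟨⟨v1, v2⟩, hs⟩, hp⟩ := (Measure.dense_of_ae hP).inter_open_nonempty _
    (hop.inter isOpen_Ioo) (mem_closure_iff.1 hs0 _ hop hv)
  have hs' := Ioo_subset_Icc_self hs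
  exact ⟨s, hs', hp, (interior_subset v1).resolve_right fun e => e hs',
    (interior_subset v2).resolve_right fun e => e hs'⟩

end LemSqX

theorem lemSq {q Θ C : ℝ} {k0 : ℕ} {ν : Measure (W p)} {O : Set (W p)} {f : W p → W p}
    {A : W p → W p →L[ℝ] W p} (h : Ctx q Θ C k0 ν O f A) {μ ρ C0 : ℝ} (hμ : 0 < μ) {x0 : W p}
    {Φ Ψ : W p → W p} {J : Finset (Fin (p + 2))}
    (hc : Chart (GG ν (KK p * μ)) O f A x0 ρ Φ Ψ J C0) {Ob : Bool → Set (W p)}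
    (hcol : Col (GG ν (KK p * μ)) A J.card x0 ρ Ob) {e : Fin (p + 2)} (he : e ∉ J)
    (i : Fin (p + 2)) :
    ∀ᵐ w ∂(volume : Measure (W p)), ∀ a' b' a b : ℝ, a' < b' → a < b →
      (∀ s ∈ Icc a' b', ∀ t ∈ Icc a b,
        Ψ (update (update w i s) e t) ∈ GG ν μ ∩ ball x0 (ρ / 2)) →
      ∀ s₁ ∈ Icc a' b', ∀ t₁ ∈ Icc a b, ∀ s₂ ∈ Icc a' b', ∀ t₂ ∈ Icc a b,
        Ψ (update (update w i s₁) e t₁) ∈ Ob true →
        Ψ (update (update w i s₂) e t₂) ∈ Ob false → False := by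
  filter_upwards [ae_update (lemC h hμ hc hcol he) i] with w hw
  intro a' b' a b hab' hab hl s₁ hs₁ t₁ ht₁ s₂ hs₂ t₂ ht₂ o1 o2
  have hG : ∀ s ∈ Icc a' b', ∀ t ∈ Icc a b,
      Ψ (update (update w i s) e t) ∈ GG ν (KK p * μ) ∩ closedBall x0 ρ := fun s hs t ht =>
    ⟨GG_mono (le_mul_of_one_le_left hμ.le (one_le_KK p)) (hl s hs t ht).1,
      ball_subset_closedBall (ball_subset_ball (by linarith [hc.rpos]) (hl s hs t ht).2)⟩
  have hL : 0 < LL p := by unfold LL; positivity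
  obtain ⟨s, hs, hp, ⟨t, ht, ot⟩, ⟨t', ht', ot'⟩⟩ := LemSqX.both hab'
    (fun c => {s | ∃ t ∈ Icc a b, Ψ (update (update w i s) e t) ∈ Ob c}) hw
    (by
      rintro c s hs ⟨t, ht, ot⟩
      obtain ⟨δ, hδ, H⟩ := hcol.opn c _ ot (hG s hs t ht)
      refine ⟨δ / LL p, div_pos hδ hL, fun s' hs' hd => ⟨t, ht, H _ (hG s' hs' t ht) ?_⟩⟩
      refine (hc.lipΨ _ _).trans_lt ?_
      rw [lt_div_iff₀' hL] at hd
      exact (mul_le_mul_of_nonneg_left (LemSqX.norm_update w i e s s' t) hL.le).trans_lt hd)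
    (by
      intro s hs
      obtain ⟨t, ht, hr⟩ := arc h hc he (update w i s) hab (hG s hs)
      exact (hcol.cover _ (hG s hs t ht) hr).imp (fun o => ⟨t, ht, o⟩) fun o => ⟨t, ht, o⟩)
    hs₁ hs₂ ⟨t₁, ht₁, o1⟩ ⟨t₂, ht₂, o2⟩
  exact hp a b (hl s hs) t ht t' ht' ot ot'

end SN
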