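import Mathlib
import Pool.Agent.MP_edaf86_an.N.Defs

namespace SN
open Set Filter Topology MeasureTheory Metric Function
open scoped ENNReal

variable {p : ℕ}

namespace MajX

/-- hybrid point -/
def hy (m : ℕ) (u v : W p) : W p := fun j => if j.val < m then v j else u j

theorem hy_zero (u v : W p) : hy 0 u v = u := by
  funext j; simp [hy]

theorem hy_top (u v : W p) : hy (p + 2) u v = v := by
  funext j; simp only [hy, if_pos j.isLt]

theorem hy_succ (m : Fin (p + 2)) (u v : W p) :
    hy (m.val + 1) u v = update (hy m.val u v) m (v m) := by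
  funext j
  by_cases h : j = m
  · subst h; simp [hy]
  · have h' : j.val ≠ m.val := fun e => h (Fin.ext e)
    rw [update_of_ne h]
    simp only [hy]
    by_cases h2 : j.val < m.val
    · rw [if_pos h2, if_pos (by omega)]
    · rw [if_neg h2, if_neg (by omega)]

theorem hy_mem {c u v : W p} {s : ℝ} (hs : 0 < s) (hu : u ∈ ball c s) (hv : v ∈ ball c s)
    (m : ℕ) : hy m u v ∈ ball c s := by
  rw [mem_ball, dist_pi_lt_iff hs] at hu hv ⊢
  intro j
  simp only [hy]
  split_ifs
  · exact hv j
  · exact hu j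

theorem mp (m : ℕ) : MeasurePreserving (fun x : W p × W p => (hy m x.1 x.2, hy m x.2 x.1))
    ((volume : Measure (W p)).prod volume) ((volume : Measure (W p)).prod volume) := by
  have h1 := measurePreserving_arrowProdEquivProdArrow ℝ ℝ (Fin (p + 2))
    (fun _ => volume) (fun _ => volume)
  have h2 := measurePreserving_pi (fun _ : Fin (p + 2) => (volume : Measure ℝ).prod volume)
    (fun _ : Fin (p + 2) => (volume : Measure ℝ).prod volume)
    (f := fun j (x : ℝ × ℝ) => if j.val < m then x.swap else x) fun j => by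
      by_cases h : j.val < m
      · simp only [if_pos h]; exact Measure.measurePreserving_swap
      · simp only [if_neg h]; exact MeasurePreserving.id _
  have h3 := h1.comp (h2.comp h1.symm)
  rw [volume_pi]
  convert h3 using 1
  funext x
  refine Prod.ext ?_ ?_ <;> funext j <;>
    simp only [hy, MeasurableEquiv.arrowProdEquivProdArrow, Equiv.arrowProdEquivProdArrow,
      comp_apply, MeasurableEquiv.coe_mk, MeasurableEquiv.symm_mk, Equiv.coe_fn_mk,
      Equiv.coe_fn_symm_mk] <;> split_ifs <;> rfl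

end MajX

open MajX

theorem maj (c : W p) {s : ℝ} (hs : 0 < s) (S : Bool → Set (W p))
    (hS : ∀ w, w ∈ S true → w ∈ S false → False) (Bad : Fin (p + 2) → Set (W p)) (ε : ℝ≥0∞)
    (hB : ∀ i, volume (Bad i ∩ ball c s) ≤ ε)
    (hl : ∀ i, ∀ w ∈ ball c s, w ∉ Bad i →
      ∃ b, ∀ t : ℝ, update w i t ∈ ball c s → update w i t ∈ S b) :
    ∃ b, volume (ball c s \ S b) ≤ ((p + 2 : ℕ) : ℝ≥0∞) * ε := by
  obtain ⟨N, hN⟩ : ∃ N : Set (W p × W p), N = ⋃ m : Fin (p + 2),
      (fun x : W p × W p => (hy m.val x.1 x.2, hy m.val x.2 x.1)) ⁻¹'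
        (toMeasurable volume (Bad m ∩ ball c s) ×ˢ ball c s) := ⟨_, rfl⟩
  have mE : ∀ m : Fin (p + 2),
      MeasurableSet (toMeasurable volume (Bad m ∩ ball c s) ×ˢ ball c s) := fun m =>
    (measurableSet_toMeasurable _ _).prod measurableSet_ball
  have mN : MeasurableSet N := hN ▸ MeasurableSet.iUnion fun m => (mp m.val).measurable (mE m)
  have vN : ((volume : Measure (W p)).prod volume) N ≤
      ((p + 2 : ℕ) : ℝ≥0∞) * ε * volume (ball c s) := by
    rw [hN]
    refine (measure_iUnion_fintype_le _ _).trans ?_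
    refine (Finset.sum_le_sum (g := fun _ => ε * volume (ball c s)) fun m _ => ?_).trans_eq ?_
    · rw [(mp m.val).measure_preimage (mE m).nullMeasurableSet, Measure.prod_prod,
        measure_toMeasurable]
      exact mul_le_mul_left (hB m) _
    · rw [Finset.sum_const, Finset.card_univ, Fintype.card_fin, nsmul_eq_mul, mul_assoc]
  obtain ⟨u, hu, hle⟩ := exists_le_setLAverage (μ := (volume : Measure (W p))) (s := ball c s)
    (f := fun u => volume (Prod.mk u ⁻¹' N)) (measure_ball_pos _ c hs).ne' measure_ball_lt_top.ne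
    (measurable_measure_prodMk_left mN).aemeasurable
  have hle2 : volume (Prod.mk u ⁻¹' N) ≤ ((p + 2 : ℕ) : ℝ≥0∞) * ε := by
    refine hle.trans ?_
    rw [setLAverage_eq]
    refine ENNReal.div_le_of_le_mul ((setLIntegral_le_lintegral _ _).trans ?_)
    rwa [← Measure.prod_apply mN]
  have uniq : ∀ w b b', w ∈ S b → w ∈ S b' → b' = b := by
    intro w b b' h h'
    cases b <;> cases b'
    · rfl
    · exact (hS w h' h).elim
    · exact (hS w h h').elim
    · rfl
  obtain ⟨b, hb⟩ : ∃ b, ∀ b', u ∈ S b' → b' = b := by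
    by_cases h : u ∈ S true
    · exact ⟨true, fun b' h' => uniq u _ _ h h'⟩
    · refine ⟨false, fun b' h' => ?_⟩
      cases b'
      · rfl
      · exact (h h').elim
  refine ⟨b, le_trans (measure_mono fun v hv => ?_) hle2⟩
  by_contra hn
  have step : ∀ m : Fin (p + 2), (∀ b', hy m.val u v ∈ S b' → b' = b) →
      hy (m.val + 1) u v ∈ S b := by
    intro m hm
    have hz := hy_mem hs hu hv.1 m.val
    have hbad : hy m.val u v ∉ Bad m := fun hbad => hn (by
      rw [mem_preimage, hN]
      exact mem_iUnion.2 ⟨m, subset_toMeasurable _ _ ⟨hbad, hz⟩, hy_mem hs hv.1 hu m.val⟩)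
    obtain ⟨b0, h0⟩ := hl m _ hz hbad
    have e1 := h0 (hy m.val u v m) (by rwa [update_eq_self])
    rw [update_eq_self] at e1
    rw [← hm b0 e1, hy_succ]
    exact h0 _ (by rw [← hy_succ]; exact hy_mem hs hu hv.1 _)
  have all : ∀ m : ℕ, m < p + 2 → ∀ b', hy m u v ∈ S b' → b' = b := by
    intro m
    induction m with
    | zero => intro _; rw [hy_zero]; exact hb
    | succ m ih =>
      intro hm b' h'
      exact uniq _ _ _ (step ⟨m, by omega⟩ (ih (by omega))) h'
  have := step ⟨p + 1, by omega⟩ (all _ (by simp))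
  rw [hy_top] at this
  exact hv.2 this

end SN
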