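import Mathlib
import Pool.Agent.MP_edaf86_an.N.LemSq
import Pool.Agent.MP_edaf86_an.N.Maj

namespace SN
open Set Filter Topology MeasureTheory Metric Function
open scoped ENNReal

variable {p : ℕ}

namespace OneScaleX

theorem mem_iff {c w : W p} {s : ℝ} (hs : 0 < s) :
    w ∈ ball c s ↔ ∀ j, |w j - c j| < s := by
  rw [mem_ball, dist_pi_lt_iff hs]
  simp only [Real.dist_eq]

theorem upd_mem {c w : W p} {s : ℝ} (hs : 0 < s) (hw : w ∈ ball c s) (i : Fin (p + 2)) {t : ℝ}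
    (ht : |t - c i| < s) : update w i t ∈ ball c s := by
  rw [mem_iff hs] at hw ⊢
  intro j
  by_cases hj : j = i
  · subst hj
    simpa using ht
  · rw [update_of_ne hj]
    exact hw j

theorem of_upd_mem {c w : W p} {s : ℝ} (hs : 0 < s) (i : Fin (p + 2)) {t : ℝ}
    (ht : update w i t ∈ ball c s) : |t - c i| < s := by
  rw [mem_iff hs] at ht
  simpa using ht i

/-- the statement of the square lemma at the point w in the direction i -/
def PP (Ψ : W p → W p) (G : Set (W p)) (Ob : Bool → Set (W p)) (e i : Fin (p + 2)) (w : W p) :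
    Prop :=
  ∀ a' b' a b : ℝ, a' < b' → a < b →
    (∀ s ∈ Icc a' b', ∀ t ∈ Icc a b, Ψ (update (update w i s) e t) ∈ G) →
    ∀ s₁ ∈ Icc a' b', ∀ t₁ ∈ Icc a b, ∀ s₂ ∈ Icc a' b', ∀ t₂ ∈ Icc a b,
      Ψ (update (update w i s₁) e t₁) ∈ Ob true →
      Ψ (update (update w i s₂) e t₂) ∈ Ob false → False

theorem core {Ψ : W p → W p} {G : Set (W p)} {Ob : Bool → Set (W p)} {e i : Fin (p + 2)}
    {w c : W p} {s : ℝ} (hs : 0 < s) (hP : PP Ψ G Ob e i w)
    (hG : ∀ u t : ℝ, |u - c i| < s → |t - c e| < s → Ψ (update (update w i u) e t) ∈ G) :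
    ∃ b : Bool, ∀ u t : ℝ, |u - c i| < s → |t - c e| < s →
      Ψ (update (update w i u) e t) ∉ Ob (!b) := by
  by_contra hcon
  push Not at hcon
  obtain ⟨s₂, t₂, hs₂, ht₂, h₂⟩ := hcon true
  obtain ⟨s₁, t₁, hs₁, ht₁, h₁⟩ := hcon false
  simp only [Bool.not_true] at h₂
  simp only [Bool.not_false] at h₁
  set m : ℝ := max (max |s₁ - c i| |s₂ - c i|) (max |t₁ - c e| |t₂ - c e|) with hm
  have hms : m < s := max_lt (max_lt hs₁ hs₂) (max_lt ht₁ ht₂)
  have hm0 : 0 ≤ m := le_trans (abs_nonneg _) (le_trans (le_max_left _ _) (le_max_left _ _))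
  have k1 : |s₁ - c i| ≤ m := le_trans (le_max_left _ _) (le_max_left _ _)
  have k2 : |s₂ - c i| ≤ m := le_trans (le_max_right _ _) (le_max_left _ _)
  have k3 : |t₁ - c e| ≤ m := le_trans (le_max_left _ _) (le_max_right _ _)
  have k4 : |t₂ - c e| ≤ m := le_trans (le_max_right _ _) (le_max_right _ _)
  rw [abs_le] at k1 k2 k3 k4
  refine hP (c i - (m + s) / 2) (c i + (m + s) / 2) (c e - (m + s) / 2) (c e + (m + s) / 2)
    (by linarith) (by linarith) ?_ s₁ ⟨by linarith, by linarith⟩ t₁ ⟨by linarith, by linarith⟩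
    s₂ ⟨by linarith, by linarith⟩ t₂ ⟨by linarith, by linarith⟩ h₁ h₂
  intro u hu t ht
  refine hG u t ?_ ?_
  · rw [abs_lt]
    constructor <;> linarith [hu.1, hu.2]
  · rw [abs_lt]
    constructor <;> linarith [ht.1, ht.2]

end OneScaleX

open OneScaleX in
theorem one_scale {q Θ C : ℝ} {k0 : ℕ} {ν : Measure (W p)} {O : Set (W p)} {f : W p → W p}
    {A : W p → W p →L[ℝ] W p} (h : Ctx q Θ C k0 ν O f A) {lam ρ C0 : ℝ} (hlam : 0 < lam)
    {x0 : W p} {Φ Ψ : W p → W p} {J : Finset (Fin (p + 2))}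
    (hc : Chart (GG ν (KK p * (KK p * lam))) O f A x0 ρ Φ Ψ J C0) {Ob : Bool → Set (W p)}
    (hcol : Col (GG ν (KK p * (KK p * lam))) A J.card x0 ρ Ob) {e : Fin (p + 2)} (he : e ∉ J)
    {x : W p} (hx : x ∈ GG ν lam) {s : ℝ} (hs : 0 < s)
    (hsub : ball x (LL p * s) ⊆ ball x0 (ρ / 2)) :
    ∃ b, volume (ball (Φ x) s \
        SS Ψ (GG ν (KK p * lam) ∩ ball x0 (ρ / 2)) (Ob (!b)) e (ball (Φ x) s)) ≤
      ENNReal.ofReal ((2 * s) ^ (p + 2) / 2 ^ (p + 4)) := by
  have hK := one_le_KK p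
  have hμ : 0 < KK p * lam := mul_pos (lt_of_lt_of_le one_pos hK) hlam
  have hG1 : GG ν (KK p * lam) ∩ ball x0 (ρ / 2) ⊆
      GG ν (KK p * (KK p * lam)) ∩ closedBall x0 ρ := by
    intro y hy
    refine ⟨GG_mono ?_ hy.1, ?_⟩
    · nlinarith
    · have := hc.rpos
      exact ball_subset_closedBall (ball_subset_ball (by linarith) hy.2)
  obtain ⟨i0, hi0⟩ := exists_ne e
  let dir : Fin (p + 2) → Fin (p + 2) := fun i => if i = e then i0 else i
  have hdir : ∀ i, dir i ≠ e := by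
    intro i
    by_cases hi : i = e
    · simp only [dir, if_pos hi]
      exact hi0
    · simp only [dir, if_neg hi]
      exact hi
  let B1 : Fin (p + 2) → Set (W p) := fun i =>
    {w ∈ ball (Φ x) s | ∃ y ∈ ball x (LL p * s), y ∉ GG ν (KK p * lam) ∧
        ∀ j, j ≠ i → j ≠ e → Φ y j = w j}
  let B2 : Fin (p + 2) → Set (W p) := fun i =>
    {w | ¬ PP Ψ (GG ν (KK p * lam) ∩ ball x0 (ρ / 2)) Ob e i w}
  have hB2 : ∀ i, volume (B2 i) = 0 := by
    intro i
    have := lemSq h hμ hc hcol he i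
    exact ae_iff.1 this
  have hgood : ∀ i, i ≠ e → ∀ w ∈ ball (Φ x) s, w ∉ B1 i → ∀ u t : ℝ, |u - Φ x i| < s →
      |t - Φ x e| < s →
      Ψ (update (update w i u) e t) ∈ GG ν (KK p * lam) ∩ ball x0 (ρ / 2) := by
    intro i _ w hw hnb u t hu ht
    have hz : update (update w i u) e t ∈ ball (Φ x) s := upd_mem hs (upd_mem hs hw i hu) e ht
    have hy : Ψ (update (update w i u) e t) ∈ ball x (LL p * s) := by
      rw [mem_ball, dist_eq_norm] at hz ⊢
      have h1 := hc.lipΨ (update (update w i u) e t) (Φ x)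
      rw [hc.li x] at h1
      exact lt_of_le_of_lt h1 (mul_lt_mul_of_pos_left hz (LL_pos p))
    refine ⟨?_, hsub hy⟩
    by_contra hn
    refine hnb ⟨hw, _, hy, hn, ?_⟩
    intro j hji hje
    rw [hc.ri, update_of_ne hje, update_of_ne hji]
  have key := maj (Φ x) hs
    (fun b => SS Ψ (GG ν (KK p * lam) ∩ ball x0 (ρ / 2)) (Ob (!b)) e (ball (Φ x) s)) ?_
    (fun i => B1 (dir i) ∪ B2 (dir i))
    (ENNReal.ofReal ((2 * s) ^ (p + 2) / (((p : ℝ) + 2) * 2 ^ (p + 4)))) ?_ ?_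
  · obtain ⟨b, hb⟩ := key
    refine ⟨b, hb.trans (le_of_eq ?_)⟩
    rw [← ENNReal.ofReal_natCast, ← ENNReal.ofReal_mul (by positivity)]
    congr 1
    push_cast
    field_simp
  · intro w hw1 hw2
    have hw : w ∈ ball (Φ x) s := hw1.1
    have hwe : |w e - Φ x e| < s := (mem_iff hs).1 hw e
    have hseg : ∀ t ∈ Icc (w e) (w e + (s - |w e - Φ x e|) / 2), update w e t ∈ ball (Φ x) s := by
      intro t ht
      refine upd_mem hs hw e ?_
      have h1 := le_abs_self (w e - Φ x e)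
      have h2 := neg_abs_le (w e - Φ x e)
      rw [abs_lt]
      constructor <;> linarith [ht.1, ht.2]
    obtain ⟨t, ht, hrk⟩ := arc h hc he w (a := w e) (b := w e + (s - |w e - Φ x e|) / 2)
      (by linarith) (fun t ht => hG1 (hw1.2 t (hseg t ht)).1)
    rcases hcol.cover _ (hG1 (hw1.2 t (hseg t ht)).1) hrk with h1 | h1
    · exact (hw2.2 t (hseg t ht)).2 h1
    · exact (hw1.2 t (hseg t ht)).2 h1
  · intro i
    calc volume ((B1 (dir i) ∪ B2 (dir i)) ∩ ball (Φ x) s)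
        ≤ volume (B1 (dir i) ∪ B2 (dir i)) := measure_mono inter_subset_left
      _ ≤ volume (B1 (dir i)) + volume (B2 (dir i)) := measure_union_le _ _
      _ = volume (B1 (dir i)) := by rw [hB2, add_zero]
      _ ≤ _ := shadow_ball ν Φ hlam hs hc.lipΦ hx (hdir i) (Φ x)
  · intro i w hw hnb
    have hn1 : w ∉ B1 (dir i) := fun hh => hnb (Or.inl hh)
    have hn2 : PP Ψ (GG ν (KK p * lam) ∩ ball x0 (ρ / 2)) Ob e (dir i) w := by
      by_contra hh
      exact hnb (Or.inr hh)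
    have hG := hgood (dir i) (hdir i) w hw hn1
    obtain ⟨b, hb⟩ := core hs hn2 hG
    refine ⟨b, fun t ht => ⟨ht, fun t' ht' => ?_⟩⟩
    have ht'e : |t' - Φ x e| < s := of_upd_mem hs e ht'
    by_cases hi : i = e
    · have hd : dir i = i0 := by simp only [dir, if_pos hi]
      have hw0 : |w i0 - Φ x i0| < s := (mem_iff hs).1 hw i0
      rw [hd] at hG hb
      have e1 : update (update w i t) e t' = update (update w i0 (w i0)) e t' := by
        rw [hi, update_idem, update_eq_self]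
      rw [e1]
      exact ⟨hG _ _ hw0 ht'e, hb _ _ hw0 ht'e⟩
    · have hd : dir i = i := by simp only [dir, if_neg hi]
      have hti : |t - Φ x i| < s := of_upd_mem hs i ht
      rw [hd] at hG hb
      exact ⟨hG _ _ hti ht'e, hb _ _ hti ht'e⟩

end SN
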