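import Mathlib
import Pool.Agent.MP_edaf86_an.N.OneScale
import Pool.Agent.MP_edaf86_an.N.Arc

namespace SN
open Set Filter Topology MeasureTheory Metric Function
open scoped ENNReal

variable {p : ℕ}

namespace LocSignX

theorem exists_mem (c : W p) {s : ℝ} (hs : 0 < s) {S1 S2 : Set (W p)}
    (h1 : volume (ball c s \ S1) ≤ ENNReal.ofReal ((2 * s) ^ (p + 2) / 4))
    (h2 : volume (ball c s \ S2) ≤ ENNReal.ofReal ((2 * s) ^ (p + 2) / 4)) :
    ∃ w, w ∈ S1 ∧ w ∈ S2 ∧ w ∈ ball c s := by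
  by_contra hn
  have hsub : ball c s ⊆ (ball c s \ S1) ∪ (ball c s \ S2) := fun w hw => by
    by_cases a : w ∈ S1
    · exact Or.inr ⟨hw, fun b => hn ⟨w, a, b, hw⟩⟩
    · exact Or.inl ⟨hw, a⟩
  have h3 := (measure_mono (μ := volume) hsub).trans ((measure_union_le _ _).trans
    (add_le_add h1 h2))
  have hp : 0 < (2 * s) ^ (p + 2) := by positivity
  rw [Real.volume_pi_ball c hs, Fintype.card_fin,
    ← ENNReal.ofReal_add (by positivity) (by positivity),
    ENNReal.ofReal_le_ofReal_iff (by positivity)] at h3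
  linarith

theorem small1 {s : ℝ} (hs : 0 < s) :
    ENNReal.ofReal ((2 * s) ^ (p + 2) / 2 ^ (p + 4)) ≤ ENNReal.ofReal ((2 * s) ^ (p + 2) / 4) := by
  refine ENNReal.ofReal_le_ofReal (div_le_div_of_nonneg_left (by positivity) (by norm_num) ?_)
  calc (4 : ℝ) = 2 ^ 2 := by norm_num
    _ ≤ _ := pow_le_pow_right₀ one_le_two (by omega)

theorem small2 (s : ℝ) :
    ENNReal.ofReal ((2 * (2 * s)) ^ (p + 2) / 2 ^ (p + 4)) =
      ENNReal.ofReal ((2 * s) ^ (p + 2) / 4) := by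
  congr 1
  rw [mul_pow 2 (2 * s), show p + 4 = p + 2 + 2 by omega, pow_add (2 : ℝ) (p + 2) 2]
  field_simp
  ring

theorem update_mem {c w : W p} {s : ℝ} (hw : w ∈ ball c s) (e : Fin (p + 2)) {t : ℝ}
    (ht : |t - c e| < s) : update w e t ∈ ball c s := by
  have hs : 0 < s := (abs_nonneg _).trans_lt ht
  rw [mem_ball, dist_pi_lt_iff hs] at hw ⊢
  intro j
  by_cases hj : j = e
  · subst hj; rw [update_self, Real.dist_eq]; exact ht
  · rw [update_of_ne hj]; exact hw j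

/-- the conclusion of one_scale -/
def OK (ν : Measure (W p)) (lam ρ : ℝ) (x0 : W p) (Φ Ψ : W p → W p) (Ob : Bool → Set (W p))
    (e : Fin (p + 2)) (x : W p) (s : ℝ) (b : Bool) : Prop :=
  volume (ball (Φ x) s \
      SS Ψ (GG ν (KK p * lam) ∩ ball x0 (ρ / 2)) (Ob (!b)) e (ball (Φ x) s)) ≤
    ENNReal.ofReal ((2 * s) ^ (p + 2) / 2 ^ (p + 4))

theorem up {ν : Measure (W p)} {lam ρ : ℝ} (hlam : 0 < lam) (hρ : 0 < ρ) {x0 y : W p}
    (hy : y ∈ GG ν (KK p * lam) ∩ ball x0 (ρ / 2)) :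
    y ∈ GG ν (KK p * (KK p * lam)) ∩ closedBall x0 ρ := by
  have h1 := one_le_KK p
  refine ⟨GG_mono (le_mul_of_one_le_left (by positivity) h1) hy.1, ?_⟩
  exact ball_subset_closedBall (ball_subset_ball (by linarith) hy.2)

theorem compat {q Θ C : ℝ} {k0 : ℕ} {ν : Measure (W p)} {O : Set (W p)} {f : W p → W p}
    {A : W p → W p →L[ℝ] W p} (h : Ctx q Θ C k0 ν O f A) {lam ρ C0 : ℝ} (hlam : 0 < lam)
    {x0 : W p} {Φ Ψ : W p → W p} {J : Finset (Fin (p + 2))}
    (hc : Chart (GG ν (KK p * (KK p * lam))) O f A x0 ρ Φ Ψ J C0) {Ob : Bool → Set (W p)}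
    (hcol : Col (GG ν (KK p * (KK p * lam))) A J.card x0 ρ Ob) {e : Fin (p + 2)} (he : e ∉ J)
    {x x' : W p} {s : ℝ} (hs : 0 < s) {b b' : Bool} (h1 : OK ν lam ρ x0 Φ Ψ Ob e x s b)
    (h2 : OK ν lam ρ x0 Φ Ψ Ob e x' (2 * s) b') (hb : ball (Φ x) s ⊆ ball (Φ x') (2 * s)) :
    b = b' := by
  unfold OK at h1 h2
  rw [small2] at h2
  obtain ⟨w, w1, w2, hw⟩ := exists_mem (Φ x) hs (h1.trans (small1 hs))
    ((measure_mono (sdiff_subset_sdiff_left hb)).trans h2)
  have hm : ∀ t ∈ Icc (Φ x e - s / 2) (Φ x e + s / 2), update w e t ∈ ball (Φ x) s :=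
    fun t ht => update_mem hw e (abs_lt.2 ⟨by linarith [ht.1], by linarith [ht.2]⟩)
  obtain ⟨t, ht, hr⟩ := arc h hc he w (by linarith : Φ x e - s / 2 < Φ x e + s / 2)
    fun t ht => up hlam hc.rpos (w1.2 t (hm t ht)).1
  have a1 := w1.2 t (hm t ht)
  have a2 := w2.2 t (hb (hm t ht))
  have a3 := hcol.cover _ (up hlam hc.rpos a1.1) hr
  cases b <;> cases b' <;> simp_all

end LocSignX

open LocSignX in
theorem local_sign {q Θ C : ℝ} {k0 : ℕ} {ν : Measure (W p)} {O : Set (W p)} {f : W p → W p}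
    {A : W p → W p →L[ℝ] W p} (h : Ctx q Θ C k0 ν O f A) {lam ρ C0 : ℝ} (hlam : 0 < lam)
    {x0 : W p} {Φ Ψ : W p → W p} {J : Finset (Fin (p + 2))}
    (hc : Chart (GG ν (KK p * (KK p * lam))) O f A x0 ρ Φ Ψ J C0) {Ob : Bool → Set (W p)}
    (hcol : Col (GG ν (KK p * (KK p * lam))) A J.card x0 ρ Ob) {e : Fin (p + 2)} (he : e ∉ J) :
    ∃ δ : ℝ, 0 < δ ∧ ∀ x ∈ GG ν lam ∩ ball x0 δ, ∀ x' ∈ GG ν lam ∩ ball x0 δ,
      0 < (A x).det → (A x').det < 0 → False := by
  have hρ := hc.rpos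
  have hL := LL_pos p
  have hK := one_le_KK p
  set s0 : ℝ := ρ / (8 * LL p) with hs0
  have s0p : 0 < s0 := by positivity
  have e0 : LL p * s0 = ρ / 8 := by rw [hs0]; field_simp
  set δ : ℝ := min (ρ / 4) (s0 / (2 * LL p)) with hδ
  have δ1 : δ ≤ ρ / 4 := min_le_left _ _
  have δ2 : LL p * (2 * δ) ≤ s0 := by
    have := (le_div_iff₀ (by positivity)).1 (min_le_right (ρ / 4) (s0 / (2 * LL p)))
    linarith
  have hex : ∀ x ∈ GG ν lam ∩ ball x0 δ, ∀ s, 0 < s → s ≤ 2 * s0 →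
      ∃ b, OK ν lam ρ x0 Φ Ψ Ob e x s b := by
    intro x hx s hs hs'
    refine one_scale h hlam hc hcol he hx.1 hs (ball_subset_ball' ?_)
    have h1 := mem_ball.1 hx.2
    have h2 : LL p * s ≤ LL p * (2 * s0) := mul_le_mul_of_nonneg_left hs' hL.le
    linarith
  have key : ∀ x ∈ GG ν lam ∩ ball x0 δ, ∀ be b, 0 < sg be * (A x).det →
      OK ν lam ρ x0 Φ Ψ Ob e x s0 b → b = be := by
    intro x hx be b hd hb
    have hall : ∀ k : ℕ, OK ν lam ρ x0 Φ Ψ Ob e x (s0 * (1 / 2) ^ k) b := by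
      intro k
      induction k with
      | zero => simpa using hb
      | succ k ih =>
        have p1 : 0 < s0 * (1 / 2 : ℝ) ^ (k + 1) := by positivity
        have p2 : (1 / 2 : ℝ) ^ (k + 1) ≤ 1 := pow_le_one₀ (by norm_num) (by norm_num)
        obtain ⟨b', hb'⟩ := hex x hx _ p1 (by nlinarith)
        have e1 : s0 * (1 / 2 : ℝ) ^ k = 2 * (s0 * (1 / 2) ^ (k + 1)) := by ring
        rw [e1] at ih
        rwa [compat h hlam hc hcol he p1 hb' ih (ball_subset_ball (by linarith))] at hb'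
    have hxO : x ∈ GG ν (KK p * lam) ∩ O :=
      ⟨GG_mono (le_mul_of_one_le_left hlam.le hK) hx.1,
        hc.sub (ball_subset_closedBall (ball_subset_ball (by linarith) hx.2))⟩
    have hcont : ContinuousOn (fun y => sg be * (A y).det) (GG ν (KK p * lam) ∩ O) :=
      continuousOn_const.mul
        (ContinuousLinearMap.continuous_det.comp_continuousOn (h.contA (KK p * lam)))
    obtain ⟨η, hη, hη'⟩ := Metric.continuousOn_iff.1 hcont x hxO _ hd
    obtain ⟨k, hk⟩ := exists_pow_lt_of_lt_one (by positivity : 0 < η / (LL p * s0))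
      (by norm_num : (1 / 2 : ℝ) < 1)
    have p1 : 0 < s0 * (1 / 2 : ℝ) ^ k := by positivity
    have hk' := (lt_div_iff₀ (by positivity)).1 hk
    obtain ⟨w, w1, -, hw⟩ := exists_mem (Φ x) p1 ((hall k).trans (small1 p1))
      ((hall k).trans (small1 p1))
    have a1 := w1.2 (w e) (by rwa [update_eq_self])
    rw [update_eq_self] at a1
    have a2 := up hlam hρ a1.1
    have a3 : dist (Ψ w) x < η := by
      have b1 := hc.lipΨ w (Φ x)
      rw [hc.li x] at b1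
      have b2 := mul_le_mul_of_nonneg_left (mem_ball_iff_norm.1 hw).le hL.le
      rw [dist_eq_norm]
      linarith
    have a4 := hη' (Ψ w) ⟨a1.1.1, hc.sub a2.2⟩ a3
    rw [Real.dist_eq] at a4
    have a5 := hcol.sgn be _ a2 (by linarith [(abs_lt.1 a4).1])
    have a6 := a1.2
    cases b <;> cases be <;> simp_all
  refine ⟨δ, by positivity, fun x hx x' hx' d1 d2 => ?_⟩
  obtain ⟨b, hb⟩ := hex x hx s0 s0p (by linarith)
  obtain ⟨b', hb'⟩ := hex x' hx' s0 s0p (by linarith)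
  obtain ⟨b2, hb2⟩ := hex x' hx' (2 * s0) (by positivity) le_rfl
  have c1 := compat h hlam hc hcol he s0p hb' hb2 (ball_subset_ball (by linarith))
  have c2 := compat h hlam hc hcol he s0p hb hb2 (ball_subset_ball' (by
    have b1 := hc.lipΦ x x'
    have b2 : ‖x - x'‖ ≤ 2 * δ := by
      rw [← dist_eq_norm]
      linarith [dist_triangle_right x x' x0, mem_ball.1 hx.2, mem_ball.1 hx'.2]
    have b3 := mul_le_mul_of_nonneg_left b2 hL.le
    rw [dist_eq_norm]
    linarith))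
  have c3 := key x hx true b (by simpa [sg] using d1) hb
  have c4 := key x' hx' false b' (by simpa [sg] using d2) hb'
  rw [← c1, c3, c4] at c2
  exact Bool.noConfusion c2

end SN
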