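import Mathlib
import Pool.Agent.MP_edaf86_an.N.Defs
import Pool.Agent.MP_edaf86_an.N.Lin1

namespace SN
open Set Filter Topology MeasureTheory Metric Function
open scoped ENNReal

variable {p : ℕ}

namespace Lin2X

theorem svd {n : ℕ} (T : EuclideanSpace ℝ (Fin n) →ₗ[ℝ] EuclideanSpace ℝ (Fin n)) :
    ∃ b c : OrthonormalBasis (Fin n) ℝ (EuclideanSpace ℝ (Fin n)),
      ∀ j, T (b j) = ‖T (b j)‖ • c j := by
  have hS := T.isSymmetric_adjoint_comp_self
  have hn : Module.finrank ℝ (EuclideanSpace ℝ (Fin n)) = n := by simp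
  obtain ⟨b, lam, hb⟩ : ∃ (b : OrthonormalBasis (Fin n) ℝ (EuclideanSpace ℝ (Fin n)))
      (lam : Fin n → ℝ), ∀ j, LinearMap.adjoint T (T (b j)) = lam j • b j :=
    ⟨_, _, hS.apply_eigenvectorBasis hn⟩
  have ho : Orthonormal ℝ ({j | T (b j) ≠ 0}.domRestrict fun j => ‖T (b j)‖⁻¹ • T (b j)) := by
    refine ⟨fun j => norm_smul_inv_norm j.2, fun i j hij => ?_⟩
    have h0 : inner ℝ (T (b i)) (T (b j)) = 0 := by
      rw [← LinearMap.adjoint_inner_right, hb, inner_smul_right,
        b.orthonormal.2 (fun h => hij (Subtype.ext h)), mul_zero]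
    simp only [Set.domRestrict_apply, inner_smul_left, inner_smul_right, h0, mul_zero]
  obtain ⟨c, hc⟩ := ho.exists_orthonormalBasis_extension_of_card_eq (by simp)
  refine ⟨b, c, fun j => ?_⟩
  by_cases h : T (b j) = 0
  · simp [h]
  · rw [hc j h, smul_smul, mul_inv_cancel₀ (norm_ne_zero_iff.2 h), one_smul]

theorem iso_le {n : ℕ} (U : EuclideanSpace ℝ (Fin n) ≃ₗᵢ[ℝ] EuclideanSpace ℝ (Fin n))
    (v : Fin n → ℝ) : ‖(U (WithLp.toLp 2 v)).ofLp‖ ≤ n * ‖v‖ := by
  refine (pi_norm_le_iff_of_nonneg (by positivity)).2 fun j => ?_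
  refine (PiLp.norm_apply_le _ j).trans ?_
  rw [U.norm_map, EuclideanSpace.norm_eq]
  refine Real.sqrt_le_iff.2 ⟨by positivity, ?_⟩
  have h1 : ∑ i, ‖v i‖ ^ 2 ≤ ∑ _i : Fin n, ‖v‖ ^ 2 :=
    Finset.sum_le_sum fun i _ => pow_le_pow_left₀ (norm_nonneg _) (norm_le_pi_norm v i) 2
  have h2 : (n : ℝ) ≤ n ^ 2 := by exact_mod_cast Nat.le_self_pow (by norm_num) n
  simp only [Finset.sum_const, Finset.card_univ, Fintype.card_fin, nsmul_eq_mul] at h1
  refine h1.trans ?_
  rw [mul_pow]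
  exact mul_le_mul_of_nonneg_right h2 (by positivity)

theorem rk_proj (J : Finset (Fin (p + 2))) (M : W p →L[ℝ] W p)
    (hM : ∀ v, M v = fun j => if j ∈ J then v j else 0) : J.card = rk M := by
  refine le_antisymm (normal_near J M fun v => by rw [hM, sub_self, norm_zero]; positivity).1 ?_
  have h : LinearMap.range (M : W p →ₗ[ℝ] W p) ≤
      Submodule.span ℝ (J.image fun j => (Pi.single j 1 : W p) : Finset (W p)) := by
    rintro _ ⟨v, rfl⟩
    have e : M v = ∑ j ∈ J, v j • (Pi.single j 1 : W p) := by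
      rw [hM]
      funext i
      simp [Finset.sum_apply, Pi.single_apply]
    rw [ContinuousLinearMap.coe_coe, e]
    exact Submodule.sum_mem _ fun j hj => Submodule.smul_mem _ _
      (Submodule.subset_span (Finset.mem_coe.2 (Finset.mem_image_of_mem _ hj)))
  exact (Submodule.finrank_mono h).trans
    ((finrank_span_finset_le_card _).trans Finset.card_image_le)

end Lin2X

theorem exists_normal (B : W p →L[ℝ] W p) : ∃ (R P : W p ≃L[ℝ] W p) (J : Finset (Fin (p + 2))),
    J.card = rk B ∧ (∀ v, ‖R v‖ ≤ ((p : ℝ) + 2) * ‖v‖) ∧ (∀ v, ‖R.symm v‖ ≤ ((p : ℝ) + 2) * ‖v‖) ∧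
    ∀ v, P (B (R v)) = fun j => if j ∈ J then v j else 0 := by
  classical
  set φ := EuclideanSpace.equiv (Fin (p + 2)) ℝ with hφ
  obtain ⟨T, hT⟩ : ∃ T : EuclideanSpace ℝ (Fin (p + 2)) →ₗ[ℝ] EuclideanSpace ℝ (Fin (p + 2)),
      ∀ x, T x = φ.symm (B (φ x)) :=
    ⟨(φ.symm.toLinearEquiv.toLinearMap.comp (B : W p →ₗ[ℝ] W p)).comp φ.toLinearEquiv.toLinearMap,
      fun _ => rfl⟩
  obtain ⟨b, c, hbc⟩ := Lin2X.svd T
  obtain ⟨σ, hσ⟩ : ∃ σ : Fin (p + 2) → ℝ, σ = fun j => if T (b j) = 0 then 1 else ‖T (b j)‖⁻¹ :=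
    ⟨_, rfl⟩
  have hσ0 : ∀ j, σ j ≠ 0 := fun j => by
    rw [hσ]
    dsimp only
    split_ifs with h
    · exact one_ne_zero
    · exact inv_ne_zero (norm_ne_zero_iff.2 h)
  let D : W p ≃L[ℝ] W p :=
    (LinearEquiv.piCongrRight fun j => LinearEquiv.smulOfNeZero ℝ ℝ (σ j) (hσ0 j))
      |>.toContinuousLinearEquiv
  let R : W p ≃L[ℝ] W p := (φ.symm.trans b.repr.symm.toContinuousLinearEquiv).trans φ
  let P : W p ≃L[ℝ] W p := ((φ.symm.trans c.repr.toContinuousLinearEquiv).trans φ).trans D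
  have key : ∀ v, P (B (R v)) =
      fun j => if j ∈ Finset.univ.filter (fun j => T (b j) ≠ 0) then v j else 0 := by
    intro v
    funext j
    have e1 : T (b.repr.symm (φ.symm v)) = c.repr.symm (φ.symm fun i => v i * ‖T (b i)‖) := by
      rw [← b.sum_repr_symm, ← c.sum_repr_symm, map_sum]
      refine Finset.sum_congr rfl fun i _ => ?_
      exact (map_smul T _ _).trans ((congrArg _ (hbc i)).trans (smul_smul _ _ _))
    have e2 : P (B (R v)) j = σ j * φ (c.repr (T (b.repr.symm (φ.symm v)))) j := by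
      rw [hT]; rfl
    rw [e2, e1, LinearIsometryEquiv.apply_symm_apply, ContinuousLinearEquiv.apply_symm_apply, hσ]
    by_cases h : T (b j) = 0
    · simp [h]
    · simp only [h, if_false, Finset.mem_filter, Finset.mem_univ, ne_eq, not_false_eq_true,
        and_self, if_true]
      have := norm_ne_zero_iff.2 h
      field_simp
  refine ⟨R, P, _, ?_, fun v => ?_, fun v => ?_, key⟩
  · rw [← rk_conj R P B]
    exact Lin2X.rk_proj _ _ key
  · exact_mod_cast Lin2X.iso_le b.repr.symm v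
  · exact_mod_cast Lin2X.iso_le b.repr v

theorem corank_one (p : ℕ) (e : Fin (p + 2)) : ∃ ε : ℝ, 0 < ε ∧ ∀ M : W p →L[ℝ] W p,
    (∀ v, ‖M v - fun j => if j = e then 0 else v j‖ ≤ ε * ‖v‖) → M.det ≠ 0 →
    ∃ η : ℝ, 0 < η ∧ ∀ (v : W p) (τ : ℝ), v ≠ 0 → ‖M v - Pi.single e τ‖ ≤ η * ‖v‖ →
      0 < M.det * (v e * τ) := by
  have hc : ∀ᶠ N in 𝓝 (1 : W p →L[ℝ] W p), 0 < N.det :=
    ContinuousLinearMap.continuous_det.continuousAt.eventually
      (lt_mem_nhds (by simp [ContinuousLinearMap.det]))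
  obtain ⟨δ, hδ, hN⟩ := Metric.eventually_nhds_iff.1 hc
  refine ⟨min (δ / 2) (1 / 4), by positivity, fun M hM hdet => ?_⟩
  obtain ⟨A, hA⟩ : ∃ A, A = LinearMap.toMatrix' (M : W p →ₗ[ℝ] W p) := ⟨_, rfl⟩
  have hAd : A.det = M.det := by rw [hA, LinearMap.det_toMatrix']
  have hAv : ∀ v, A.mulVec v = M v := fun v => by
    rw [hA, ← Matrix.toLin'_apply, Matrix.toLin'_toMatrix']; rfl
  have hpos : 0 < A.cramer (Pi.single e 1) e := by
    rw [Matrix.cramer_apply, ← det_toL]
    refine hN (lt_of_le_of_lt ?_ (half_lt_self hδ))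
    rw [dist_eq_norm]
    refine ContinuousLinearMap.opNorm_le_bound _ (by positivity) fun v => ?_
    have e1 : (toL (A.updateCol e (Pi.single e 1)) - 1) v =
        M (update v e 0) - fun j => if j = e then 0 else update v e 0 j := by
      rw [← hAv]
      funext i
      have : (A.updateCol e (Pi.single e 1)).mulVec v i =
          A.mulVec (update v e 0) i + (if i = e then v e else 0) := by
        simp only [Matrix.mulVec, dotProduct]
        rw [← Finset.add_sum_erase _ _ (Finset.mem_univ e),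
          ← Finset.add_sum_erase _ _ (Finset.mem_univ e), Finset.sum_congr rfl
            (g := fun j => A i j * update v e 0 j) fun j hj => by
              rw [Matrix.updateCol_ne (Finset.ne_of_mem_erase hj),
                update_of_ne (Finset.ne_of_mem_erase hj)]]
        simp [Pi.single_apply, add_comm]
      change (A.updateCol e (Pi.single e 1)).mulVec v i - v i = _
      rw [this]
      by_cases h : i = e <;> simp [h]
    have e2 : ‖update v e 0‖ ≤ ‖v‖ := (pi_norm_le_iff_of_nonneg (norm_nonneg _)).2 fun j => by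
      by_cases h : j = e
      · simp [h]
      · rw [update_of_ne h]; exact norm_le_pi_norm v j
    rw [e1]
    exact (hM _).trans (mul_le_mul (min_le_left _ _) e2 (norm_nonneg _) (by positivity))
  obtain ⟨l, hl⟩ : ∃ l : W p →L[ℝ] ℝ, ∀ r, l r = A.cramer r e :=
    ⟨LinearMap.toContinuousLinearMap ((LinearMap.proj e).comp A.cramer), fun _ => rfl⟩
  have hd : 0 < |M.det| := abs_pos.2 hdet
  refine ⟨min (|M.det| / (‖l‖ + 1)) (1 / 4), by positivity, fun v τ hv hη => ?_⟩
  have hv0 : 0 < ‖v‖ := norm_pos_iff.2 hv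
  have h1 : ‖v‖ ≤ |v e| := by
    by_contra hlt
    refine lt_irrefl ‖v‖ ((pi_norm_lt_iff hv0).2 fun j => ?_)
    by_cases h : j = e
    · rw [h]; exact not_le.1 hlt
    · have a1 := (norm_le_pi_norm _ j).trans (hM v)
      have a2 := (norm_le_pi_norm _ j).trans hη
      simp only [Pi.sub_apply, h, if_false, Pi.single_eq_of_ne h, sub_zero] at a1 a2
      have a3 := mul_le_mul_of_nonneg_right (min_le_right (δ / 2) (1 / 4)) hv0.le
      have a4 := mul_le_mul_of_nonneg_right (min_le_right (|M.det| / (‖l‖ + 1)) (1 / 4)) hv0.le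
      have a5 := norm_sub_le (M v j) (M v j - v j)
      rw [sub_sub_cancel] at a5
      linarith
  have h2 : l (M v - Pi.single e τ) = M.det * v e - τ * A.cramer (Pi.single e 1) e := by
    rw [map_sub, hl, ← hAv, Matrix.cramer_eq_adjugate_mulVec, Matrix.mulVec_mulVec,
      Matrix.adjugate_mul, Matrix.smul_mulVec, Matrix.one_mulVec, hAd,
      show (Pi.single e τ : W p) = τ • Pi.single e 1 by rw [← Pi.single_smul, smul_eq_mul, mul_one],
      map_smul, hl]
    rfl
  have h3 : |M.det * v e - τ * A.cramer (Pi.single e 1) e| < |M.det * v e| := by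
    rw [← h2, abs_mul]
    have a1 := l.le_opNorm (M v - Pi.single e τ)
    have a2 := mul_le_mul_of_nonneg_right (min_le_left (|M.det| / (‖l‖ + 1)) (1 / 4)) hv0.le
    have a3 := mul_le_mul_of_nonneg_left (hη.trans a2) (norm_nonneg l)
    have a4 : ‖l‖ * (|M.det| / (‖l‖ + 1) * ‖v‖) < |M.det| * ‖v‖ := by
      rw [← mul_assoc]
      refine mul_lt_mul_of_pos_right ?_ hv0
      rw [← mul_div_assoc, div_lt_iff₀ (by positivity)]
      nlinarith
    have a5 := mul_le_mul_of_nonneg_left h1 hd.le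
    rw [Real.norm_eq_abs] at a1
    linarith
  have h4 := sq_lt_sq.2 h3
  have h5 : 0 < M.det * (v e * τ) * A.cramer (Pi.single e 1) e := by
    nlinarith [sq_nonneg (τ * A.cramer (Pi.single e 1) e)]
  exact (mul_pos_iff_of_pos_right hpos).1 h5

end SN
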