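import Mathlib
import Pool.Agent.MP_edaf86_an.N.Good
import Pool.Agent.MP_edaf86_an.N.Lin1
import Pool.Agent.MP_edaf86_an.N.Lin2

namespace SN
open Set Filter Topology MeasureTheory Metric Function
open scoped ENNReal

variable {p : ℕ}

namespace ChartExX

/-- projection onto the coordinates in J -/
def EJ (J : Finset (Fin (p + 2))) (v : W p) : W p := fun j => if j ∈ J then v j else 0

theorem EJ_sub (J : Finset (Fin (p + 2))) (v w : W p) : EJ J v - EJ J w = EJ J (v - w) := by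
  funext j
  by_cases hj : j ∈ J <;> simp [EJ, hj]

theorem norm_EJ_le (J : Finset (Fin (p + 2))) (v : W p) : ‖EJ J v‖ ≤ ‖v‖ := by
  refine (pi_norm_le_iff_of_nonneg (norm_nonneg _)).2 fun j => ?_
  by_cases hj : j ∈ J
  · simpa [EJ, hj] using norm_le_pi_norm v j
  · simp [EJ, hj]

/-- a Lipschitz perturbation of an affine isomorphism is a bi-Lipschitz bijection -/
theorem exists_inv (R : W p ≃L[ℝ] W p) (J : Finset (Fin (p + 2))) (x0 : W p) (ht : W p → W p)
    (κ : ℝ) (hκ0 : 0 ≤ κ) (hκ : ((p : ℝ) + 2) * κ ≤ 1 / 2)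
    (hR : ∀ v, ‖R v‖ ≤ ((p : ℝ) + 2) * ‖v‖) (hR' : ∀ v, ‖R.symm v‖ ≤ ((p : ℝ) + 2) * ‖v‖)
    (hh : ∀ x y, ‖ht x - ht y‖ ≤ κ * ‖x - y‖) :
    ∃ Ψ : W p → W p, LeftInverse Ψ (fun x => R.symm (x - x0) + EJ J (ht x)) ∧
      RightInverse Ψ (fun x => R.symm (x - x0) + EJ J (ht x)) ∧
      (∀ x y, ‖(R.symm (x - x0) + EJ J (ht x)) - (R.symm (y - x0) + EJ J (ht y))‖ ≤
        LL p * ‖x - y‖) ∧
      ∀ x y, ‖Ψ x - Ψ y‖ ≤ LL p * ‖x - y‖ := by
  set Φ : W p → W p := fun x => R.symm (x - x0) + EJ J (ht x) with hΦ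
  have hp : (0 : ℝ) ≤ p := Nat.cast_nonneg p
  have hE : ∀ x y, ‖EJ J (ht x) - EJ J (ht y)‖ ≤ κ * ‖x - y‖ := fun x y => by
    rw [EJ_sub]
    exact (norm_EJ_le _ _).trans (hh x y)
  have hdiff : ∀ x y, Φ x - Φ y = R.symm (x - y) + (EJ J (ht x) - EJ J (ht y)) := fun x y => by
    have : x - y = (x - x0) - (y - x0) := by abel
    rw [this, map_sub]
    simp only [hΦ]
    abel
  have hup : ∀ x y, ‖Φ x - Φ y‖ ≤ LL p * ‖x - y‖ := fun x y => by
    rw [hdiff]
    have h1 := norm_add_le (R.symm (x - y)) (EJ J (ht x) - EJ J (ht y))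
    have h2 := hR' (x - y)
    have h3 := hE x y
    have h4 : κ ≤ (p : ℝ) + 2 := by nlinarith
    have h5 := mul_le_mul_of_nonneg_right h4 (norm_nonneg (x - y))
    unfold LL
    linarith
  have hlow : ∀ x y, ‖x - y‖ ≤ LL p * ‖Φ x - Φ y‖ := fun x y => by
    have h0 : x - y = R ((Φ x - Φ y) - (EJ J (ht x) - EJ J (ht y))) := by
      rw [hdiff]
      simp
    have h1 := hR ((Φ x - Φ y) - (EJ J (ht x) - EJ J (ht y)))
    rw [← h0] at h1
    have h2 := norm_sub_le (Φ x - Φ y) (EJ J (ht x) - EJ J (ht y))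
    have h3 := hE x y
    have h4 : ((p : ℝ) + 2) * ‖Φ x - Φ y - (EJ J (ht x) - EJ J (ht y))‖ ≤
        ((p : ℝ) + 2) * (‖Φ x - Φ y‖ + κ * ‖x - y‖) :=
      mul_le_mul_of_nonneg_left (by linarith) (by linarith)
    have h5 := mul_le_mul_of_nonneg_right hκ (norm_nonneg (x - y))
    unfold LL
    nlinarith
  have hsurj : ∀ w, ∃ x, Φ x = w := fun w => by
    let T : W p → W p := fun x => x0 + R (w - EJ J (ht x))
    have hT : ContractingWith (1 / 2 : NNReal) T := by
      refine ⟨by norm_num, LipschitzWith.of_dist_le_mul fun x y => ?_⟩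
      rw [dist_eq_norm, dist_eq_norm]
      have h0 : T x - T y = R (EJ J (ht y) - EJ J (ht x)) := by
        have : EJ J (ht y) - EJ J (ht x) = (w - EJ J (ht x)) - (w - EJ J (ht y)) := by abel
        rw [this, map_sub]
        simp only [T]
        abel
      rw [h0]
      have h1 := hR (EJ J (ht y) - EJ J (ht x))
      have h2 := hE y x
      rw [norm_sub_rev y x] at h2
      have h3 := mul_le_mul_of_nonneg_left h2 (show (0 : ℝ) ≤ (p : ℝ) + 2 by linarith)
      have h5 := mul_le_mul_of_nonneg_right hκ (norm_nonneg (x - y))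
      push_cast
      nlinarith
    refine ⟨hT.fixedPoint T, ?_⟩
    have hfix : T (hT.fixedPoint T) = hT.fixedPoint T := hT.fixedPoint_isFixedPt
    set x := hT.fixedPoint T
    have h1 : x - x0 = R (w - EJ J (ht x)) := by
      have : x = x0 + R (w - EJ J (ht x)) := hfix.symm
      rw [sub_eq_iff_eq_add']
      exact this
    simp only [hΦ]
    rw [h1]
    simp
  choose Ψ hΨ using hsurj
  refine ⟨Ψ, fun x => ?_, hΨ, hup, fun x y => ?_⟩
  · have h1 := hlow (Ψ (Φ x)) x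
    rw [hΨ, sub_self, norm_zero, mul_zero] at h1
    exact sub_eq_zero.1 (norm_le_zero_iff.1 h1)
  · have h1 := hlow (Ψ x) (Ψ y)
    rwa [hΨ, hΨ] at h1

theorem det_conj (R P : W p ≃L[ℝ] W p) (B : W p →L[ℝ] W p) :
    ((P : W p →L[ℝ] W p).comp (B.comp (R : W p →L[ℝ] W p))).det =
      ((P : W p →L[ℝ] W p).det * (R : W p →L[ℝ] W p).det) * B.det := by
  have h0 : (((P : W p →L[ℝ] W p).comp (B.comp (R : W p →L[ℝ] W p)) : W p →L[ℝ] W p) :
      W p →ₗ[ℝ] W p) = ((P : W p →L[ℝ] W p) : W p →ₗ[ℝ] W p) ∘ₗ ((B : W p →ₗ[ℝ] W p) ∘ₗ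
        ((R : W p →L[ℝ] W p) : W p →ₗ[ℝ] W p)) := rfl
  unfold ContinuousLinearMap.det
  rw [h0, LinearMap.det_comp, LinearMap.det_comp]
  ring

theorem det_equiv_ne (R : W p ≃L[ℝ] W p) : (R : W p →L[ℝ] W p).det ≠ 0 :=
  (LinearEquiv.isUnit_det' R.toLinearEquiv).ne_zero

end ChartExX

open ChartExX in
theorem exists_chart {q Θ C : ℝ} {k0 : ℕ} {ν : Measure (W p)} {O : Set (W p)} {f : W p → W p}
    {A : W p → W p →L[ℝ] W p} (h : Ctx q Θ C k0 ν O f A) (μ : ℝ) {x0 : W p}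
    (hx : x0 ∈ GG ν μ ∩ O) : ∃ (ρ : ℝ) (Φ Ψ : W p → W p) (J : Finset (Fin (p + 2))) (C0 : ℝ),
      Chart (GG ν μ) O f A x0 ρ Φ Ψ J C0 ∧ J.card = rk (A x0) := by
  obtain ⟨R, P, J, hJ, hR, hR', hPBR⟩ := exists_normal (A x0)
  choose εe hεe hcor using corank_one p
  obtain ⟨e0, -, he0⟩ := Finset.exists_min_image Finset.univ εe ⟨0, Finset.mem_univ _⟩
  have hp : (0 : ℝ) ≤ p := Nat.cast_nonneg p
  set n : ℝ := (p : ℝ) + 2 with hn
  have hn0 : 0 < n := by linarith
  set N : ℝ := ‖(P : W p →L[ℝ] W p)‖ with hN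
  set N' : ℝ := ‖(P.symm : W p →L[ℝ] W p)‖ with hN'
  have hN0 : 0 ≤ N := norm_nonneg _
  have hN'0 : 0 ≤ N' := norm_nonneg _
  have hPle : ∀ v, ‖P v‖ ≤ N * ‖v‖ := fun v => (P : W p →L[ℝ] W p).le_opNorm v
  have hP'le : ∀ v, ‖P.symm v‖ ≤ N' * ‖v‖ := fun v => (P.symm : W p →L[ℝ] W p).le_opNorm v
  have hsmall : ∀ c : ℝ, 0 < c → ∃ ε : ℝ, 0 < ε ∧ N * ε * n ≤ c := fun c hc => by
    have h1 : 0 < N * n + 1 := by positivity
    refine ⟨c / (N * n + 1), by positivity, ?_⟩
    have h2 : N * (c / (N * n + 1)) * n = c * (N * n) / (N * n + 1) := by ring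
    rw [h2, div_le_iff₀ h1]
    nlinarith
  obtain ⟨ε, hε, hεc⟩ := hsmall (min (1 / 4) (εe e0)) (lt_min (by norm_num) (hεe e0))
  have hε4 : N * ε * n ≤ 1 / 4 := hεc.trans (min_le_left _ _)
  have hεe' : ∀ e, N * ε * n ≤ εe e := fun e =>
    (hεc.trans (min_le_right _ _)).trans (he0 e (Finset.mem_univ _))
  obtain ⟨δ, hδ, huj⟩ := h.uj μ ε hε
  obtain ⟨r, hr, hrO⟩ := Metric.nhds_basis_closedBall.mem_iff.1 (h.op.mem_nhds hx.2)
  set ρ : ℝ := min r (δ / 2) with hρ
  have hρ0 : 0 < ρ := lt_min hr (by linarith)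
  have hsub : closedBall x0 ρ ⊆ O := (closedBall_subset_closedBall (min_le_left _ _)).trans hrO
  set S : Set (W p) := GG ν μ ∩ closedBall x0 ρ with hS
  have hSO : ∀ x ∈ S, x ∈ GG ν μ ∩ O := fun x hxS => ⟨hxS.1, hsub hxS.2⟩
  have hx0S : x0 ∈ S := ⟨hx.1, mem_closedBall_self hρ0.le⟩
  have hSd : ∀ x ∈ S, ∀ y ∈ S, ‖x - y‖ ≤ δ := fun x hxS y hyS => by
    have h1 := mem_closedBall.1 hxS.2
    have h2 := mem_closedBall.1 hyS.2
    have h3 := dist_triangle_right x y x0
    have h4 : ρ ≤ δ / 2 := min_le_right _ _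
    rw [← dist_eq_norm]
    linarith
  have hA : ∀ x ∈ S, ‖A x - A x0‖ ≤ ε := fun x hxS =>
    (huj x (hSO x hxS) x0 hx (hSd x hxS x0 hx0S)).1
  have hrem : ∀ x ∈ S, ∀ y ∈ S, rem f A x y ≤ ε * ‖x - y‖ := fun x hxS y hyS =>
    (huj x (hSO x hxS) y (hSO y hyS) (hSd x hxS y hyS)).2
  have hAv : ∀ x ∈ S, ∀ v, ‖A x v - A x0 v‖ ≤ ε * ‖v‖ := fun x hxS v => by
    have h1 := (A x - A x0).le_opNorm v
    exact h1.trans (mul_le_mul_of_nonneg_right (hA x hxS) (norm_nonneg _))
  let g : W p → W p := fun x => P (f x - f x0) - P (A x0 (x - x0))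
  have hκ0 : 0 ≤ 2 * N * ε := by positivity
  have hg : LipschitzOnWith ⟨2 * N * ε, hκ0⟩ g S := by
    refine LipschitzOnWith.of_dist_le_mul fun y hyS x hxS => ?_
    rw [dist_eq_norm, dist_eq_norm]
    have h0 : g y - g x = P (f y - f x - A x (y - x)) + P (A x (y - x) - A x0 (y - x)) := by
      simp only [g, map_sub]
      abel
    rw [h0]
    have h1 := norm_add_le (P (f y - f x - A x (y - x))) (P (A x (y - x) - A x0 (y - x)))
    have h2 := hPle (f y - f x - A x (y - x))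
    have h3 := hPle (A x (y - x) - A x0 (y - x))
    have h4 : ‖f y - f x - A x (y - x)‖ ≤ ε * ‖y - x‖ := by
      have := hrem x hxS y hyS
      rwa [norm_sub_rev x y] at this
    have h5 := hAv x hxS (y - x)
    have h6 := mul_le_mul_of_nonneg_left h4 hN0
    have h7 := mul_le_mul_of_nonneg_left h5 hN0
    change _ ≤ 2 * N * ε * ‖y - x‖
    nlinarith
  obtain ⟨ht, hht, hgt⟩ := hg.extend_pi
  have hh : ∀ x y, ‖ht x - ht y‖ ≤ 2 * N * ε * ‖x - y‖ := fun x y => by
    have := hht.dist_le_mul x y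
    rwa [dist_eq_norm, dist_eq_norm] at this
  obtain ⟨Ψ, hli, hri, hlΦ, hlΨ⟩ := exists_inv R J x0 ht (2 * N * ε) hκ0 (by nlinarith) hR hR' hh
  set Φ : W p → W p := fun x => R.symm (x - x0) + EJ J (ht x) with hΦ
  have hΦin : ∀ x ∈ S, ∀ j ∈ J, Φ x j = P (f x - f x0) j := fun x hxS j hj => by
    have h1 := congrFun (hPBR (R.symm (x - x0))) j
    rw [R.apply_symm_apply, if_pos hj] at h1
    have h2 : ht x = g x := (hgt hxS).symm
    simp only [hΦ, Pi.add_apply, EJ, if_pos hj, h2, g, Pi.sub_apply, h1]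
    ring
  have hΦout : ∀ x, ∀ j ∉ J, Φ x j = R.symm (x - x0) j := fun x j hj => by
    simp only [hΦ, Pi.add_apply, EJ, if_neg hj, add_zero]
  have hzero : ∀ x ∈ S, ∀ y ∈ S, (∀ j ∈ J, Φ x j = Φ y j) → ∀ j ∈ J, P (f y - f x) j = 0 :=
    fun x hxS y hyS hxy j hj => by
      have h1 := hxy j hj
      rw [hΦin x hxS j hj, hΦin y hyS j hj] at h1
      have h2 : f y - f x = (f y - f x0) - (f x - f x0) := by abel
      rw [h2, map_sub, Pi.sub_apply, h1, sub_self]
  let M : W p → W p →L[ℝ] W p := fun y =>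
    (P : W p →L[ℝ] W p).comp ((A y).comp (R : W p →L[ℝ] W p))
  have hMv : ∀ y v, M y v = P (A y (R v)) := fun y v => rfl
  have hM : ∀ y ∈ S, ∀ v, ‖M y v - fun j => if j ∈ J then v j else 0‖ ≤ N * ε * n * ‖v‖ :=
    fun y hyS v => by
      rw [← hPBR, hMv, ← map_sub]
      have h1 := hPle (A y (R v) - A x0 (R v))
      have h2 := hAv y hyS (R v)
      have h3 := mul_le_mul_of_nonneg_left (hR v) hε.le
      have h4 := mul_le_mul_of_nonneg_left (h2.trans h3) hN0
      nlinarith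
  have hMhalf : ∀ y ∈ S, ∀ v, ‖M y v - fun j => if j ∈ J then v j else 0‖ ≤ 1 / 2 * ‖v‖ :=
    fun y hyS v => (hM y hyS v).trans
      (mul_le_mul_of_nonneg_right (by linarith) (norm_nonneg _))
  have hdec : ∀ x y, M x (R.symm (y - x)) = P (f y - f x) - P (f y - f x - A x (y - x)) :=
    fun x y => by
      rw [hMv, R.apply_symm_apply, ← map_sub]
      congr 1
      abel
  refine ⟨ρ, Φ, Ψ, J, 4 * N' * N, ⟨hρ0, hsub, hli, hri, hlΦ, hlΨ, by positivity, ?_, ?_, ?_⟩, hJ⟩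
  · intro y hyS
    have h1 := (normal_near J (M y) (hMhalf y hyS)).1
    rwa [rk_conj] at h1
  · intro x hxS y hyS hrk hxy
    have h1 := (normal_near J (M x) (hMhalf x hxS)).2 (by rw [rk_conj]; exact hrk)
      (R.symm (y - x))
    have h2 : (fun j => if j ∈ J then M x (R.symm (y - x)) j else 0) =
        EJ J (-P (f y - f x - A x (y - x))) := by
      funext j
      by_cases hj : j ∈ J
      · simp only [EJ, if_pos hj]
        rw [hdec, Pi.sub_apply, hzero x hxS y hyS hxy j hj, Pi.neg_apply, zero_sub]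
      · simp only [EJ, if_neg hj]
    rw [h2] at h1
    have h3 := norm_EJ_le J (-P (f y - f x - A x (y - x)))
    rw [norm_neg] at h3
    have h4 := hPle (f y - f x - A x (y - x))
    have h5 : P (f y - f x) = M x (R.symm (y - x)) + P (f y - f x - A x (y - x)) := by
      rw [hdec]
      abel
    have h6 := norm_add_le (M x (R.symm (y - x))) (P (f y - f x - A x (y - x)))
    rw [← h5] at h6
    have h7 := hP'le (P (f y - f x))
    rw [P.symm_apply_apply] at h7
    have h8 : ‖P (f y - f x)‖ ≤ 4 * (N * ‖f y - f x - A x (y - x)‖) := by linarith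
    have h9 := mul_le_mul_of_nonneg_left h8 hN'0
    unfold rem
    nlinarith
  · intro e hJe
    have heJ : e ∉ J := by rw [hJe]; simp
    have hmem : ∀ j, j ≠ e → j ∈ J := fun j hj => by rw [hJe]; simp [hj]
    have hsingle : ∀ x ∈ S, ∀ y ∈ S, (∀ j ∈ J, Φ x j = Φ y j) →
        P (f y - f x) = Pi.single e (P (f y - f x) e) := fun x hxS y hyS hxy => by
      funext j
      by_cases hj : j = e
      · subst hj
        simp
      · rw [Pi.single_eq_of_ne hj]
        exact hzero x hxS y hyS hxy j (hmem j hj)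
    let φ : W p →L[ℝ] ℝ := (ContinuousLinearMap.proj e).comp (P : W p →L[ℝ] W p)
    have hφ : ∀ x y, φ (f y) - φ (f x) = P (f y - f x) e := fun x y => by
      rw [← map_sub]
      rfl
    refine ⟨φ, (P : W p →L[ℝ] W p).det * (R : W p →L[ℝ] W p).det,
      mul_ne_zero (det_equiv_ne P) (det_equiv_ne R), ?_, ?_⟩
    · intro x hxS y hyS hxy hφxy
      have h1 := hsingle x hxS y hyS hxy
      rw [← hφ, hφxy, sub_self, Pi.single_zero] at h1
      have h2 : f y - f x = 0 := P.injective (by rw [h1, map_zero])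
      exact (sub_eq_zero.1 h2).symm
    · intro x hxS hdet
      have hdM : (M x).det =
          ((P : W p →L[ℝ] W p).det * (R : W p →L[ℝ] W p).det) * (A x).det := det_conj R P (A x)
      have hM' : ∀ v, ‖M x v - fun j => if j = e then 0 else v j‖ ≤ εe e * ‖v‖ := fun v => by
        have h1 : (fun j => if j = e then 0 else v j) = fun j => if j ∈ J then v j else 0 := by
          funext j
          by_cases hj : j = e
          · rw [if_pos hj, hj, if_neg heJ]
          · rw [if_neg hj, if_pos (hmem j hj)]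
        rw [h1]
        exact (hM x hxS v).trans (mul_le_mul_of_nonneg_right (hεe' e) (norm_nonneg _))
      obtain ⟨η, hη, hcone⟩ := hcor e (M x) hM' (by
        rw [hdM]
        exact mul_ne_zero (mul_ne_zero (det_equiv_ne P) (det_equiv_ne R)) hdet)
      obtain ⟨ε', hε', hε'c⟩ := hsmall η hη
      obtain ⟨δ', hδ', huj'⟩ := h.uj μ ε' hε'
      refine ⟨δ', hδ', fun y hyS hyx hne hxy => ?_⟩
      have hv0 : R.symm (y - x) ≠ 0 := fun h0 =>
        hne (sub_eq_zero.1 (R.symm.injective (by rw [h0, map_zero])))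
      have h1 := (huj' x (hSO x hxS) y (hSO y hyS) (by rwa [norm_sub_rev])).2
      have h2 := hR (R.symm (y - x))
      rw [R.apply_symm_apply] at h2
      have h3 : ‖M x (R.symm (y - x)) - Pi.single e (P (f y - f x) e)‖ ≤
          η * ‖R.symm (y - x)‖ := by
        rw [← hsingle x hxS y hyS hxy, hdec, sub_sub_cancel_left, norm_neg]
        have h4 := hPle (f y - f x - A x (y - x))
        unfold rem at h1
        rw [norm_sub_rev x y] at h1
        have h5 := mul_le_mul_of_nonneg_left h2 hε'.le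
        have h6 := mul_le_mul_of_nonneg_left (h1.trans h5) hN0
        have h7 := mul_le_mul_of_nonneg_right hε'c (norm_nonneg (R.symm (y - x)))
        nlinarith
      have h4 := hcone _ _ hv0 h3
      have h5 : Φ y e - Φ x e = R.symm (y - x) e := by
        rw [hΦout y e heJ, hΦout x e heJ, ← Pi.sub_apply, ← map_sub, sub_sub_sub_cancel_right]
      rw [h5, hφ, ← hdM]
      exact h4

end SN
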