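import Mathlib
import Pool.Agent.MP_edaf86_an.N.ChartEx
import Pool.Agent.MP_edaf86_an.N.Arc
import Pool.Agent.MP_edaf86_an.N.Shadow
import Pool.Agent.MP_edaf86_an.N.Lin1
import Pool.Agent.MP_edaf86_an.N.Good

namespace SN
open Set Filter Topology MeasureTheory Metric Function
open scoped ENNReal

variable {p : ℕ}

namespace NonZeroX

theorem step {q Θ C : ℝ} {k0 : ℕ} {ν : Measure (W p)} {O : Set (W p)} {f : W p → W p}
    {A : W p → W p →L[ℝ] W p} (h : Ctx q Θ C k0 ν O f A) {lam : ℝ} (hlam : 0 < lam) {y : W p}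
    (hy : y ∈ GG ν lam ∩ O) {δ : ℝ} (hδ : 0 < δ) (hr : rk (A y) < p + 2) :
    ∃ z ∈ GG ν (KK p * lam) ∩ O, ‖z - y‖ < δ ∧ rk (A y) < rk (A z) := by
  have hK : lam ≤ KK p * lam := le_mul_of_one_le_left hlam.le (one_le_KK p)
  obtain ⟨ρ, Φ, Ψ, J, C0, hc, hJ⟩ := exists_chart h (KK p * lam) ⟨GG_mono hK hy.1, hy.2⟩
  obtain ⟨e, he⟩ : ∃ e, e ∉ J := by
    by_contra hn
    push Not at hn
    rw [Finset.eq_univ_iff_forall.2 hn, Finset.card_univ, Fintype.card_fin] at hJ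
    omega
  obtain ⟨i, hi⟩ := exists_ne e
  have hL := LL_pos p
  have hm : 0 < min ρ δ := lt_min hc.rpos hδ
  obtain ⟨s, hs, hLs⟩ : ∃ s : ℝ, 0 < s ∧ LL p * s = min ρ δ :=
    ⟨min ρ δ / LL p, div_pos hm hL, mul_div_cancel₀ _ hL.ne'⟩
  have h1 := shadow_ball ν Φ hlam hs hc.lipΦ hy.1 hi (Φ y)
  obtain ⟨w, hw, hw'⟩ : ∃ w ∈ ball (Φ y) s, ∀ z ∈ ball y (LL p * s),
      (∀ j, j ≠ i → j ≠ e → Φ z j = w j) → z ∈ GG ν (KK p * lam) := by
    by_contra hn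
    push Not at hn
    have h2 := (measure_mono (μ := volume) (s := ball (Φ y) s) fun w hw => by
      obtain ⟨z, h3, h4, h5⟩ := hn w hw
      exact ⟨hw, z, h3, h5, h4⟩).trans h1
    rw [Real.volume_pi_ball _ hs, Fintype.card_fin,
      ENNReal.ofReal_le_ofReal_iff (by positivity), le_div_iff₀ (by positivity)] at h2
    have h3 : (0 : ℝ) < (2 * s) ^ (p + 2) := by positivity
    have h4 : (1 : ℝ) ≤ 2 ^ (p + 4) := one_le_pow₀ (by norm_num)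
    have h5 : (0 : ℝ) ≤ p := Nat.cast_nonneg p
    have h6 : (2 : ℝ) ≤ ((p : ℝ) + 2) * 2 ^ (p + 4) := by nlinarith
    nlinarith
  have h2 : ∀ t ∈ Icc (Φ y e - s / 2) (Φ y e + s / 2),
      ‖Ψ (update w e t) - y‖ < min ρ δ := by
    intro t ht
    have h3 : ‖update w e t - Φ y‖ < s := by
      rw [pi_norm_lt_iff hs]
      intro j
      by_cases hj : j = e
      · subst hj
        rw [Pi.sub_apply, update_self, Real.norm_eq_abs, abs_lt]
        constructor <;> linarith [ht.1, ht.2]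
      · rw [Pi.sub_apply, update_of_ne hj]
        exact (norm_le_pi_norm (w - Φ y) j).trans_lt (mem_ball_iff_norm.1 hw)
    have h4 := hc.lipΨ (update w e t) (Φ y)
    rw [hc.li y] at h4
    exact h4.trans_lt (hLs ▸ mul_lt_mul_of_pos_left h3 hL)
  have h3 : ∀ t ∈ Icc (Φ y e - s / 2) (Φ y e + s / 2),
      Ψ (update w e t) ∈ GG ν (KK p * lam) ∩ closedBall y ρ := fun t ht =>
    ⟨hw' _ (mem_ball_iff_norm.2 (hLs ▸ h2 t ht)) fun j _ hj => by rw [hc.ri, update_of_ne hj],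
      mem_closedBall_iff_norm.2 ((h2 t ht).le.trans (min_le_left _ _))⟩
  obtain ⟨t, ht, h4⟩ := arc h hc he w (by linarith) h3
  exact ⟨_, ⟨(h3 t ht).1, hc.sub (h3 t ht).2⟩, (h2 t ht).trans_le (min_le_right _ _), hJ ▸ h4⟩

theorem ind {q Θ C : ℝ} {k0 : ℕ} {ν : Measure (W p)} {O : Set (W p)} {f : W p → W p}
    {A : W p → W p →L[ℝ] W p} (h : Ctx q Θ C k0 ν O f A) (d : ℕ) : ∀ (lam : ℝ), 0 < lam →
    ∀ y ∈ GG ν lam ∩ O, ∀ δ : ℝ, 0 < δ → p + 2 ≤ rk (A y) + d →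
    ∃ z ∈ GG ν (KK p ^ d * lam) ∩ O, ‖z - y‖ < δ ∧ (A z).det ≠ 0 := by
  have h0 : ∀ (d : ℕ) (lam : ℝ), 0 < lam → ∀ y ∈ GG ν lam ∩ O, ∀ δ : ℝ, 0 < δ →
      p + 2 ≤ rk (A y) → ∃ z ∈ GG ν (KK p ^ d * lam) ∩ O, ‖z - y‖ < δ ∧ (A z).det ≠ 0 :=
    fun d lam hlam y hy δ hδ hr =>
      ⟨y, ⟨GG_mono (le_mul_of_one_le_left hlam.le (one_le_pow₀ (one_le_KK p))) hy.1, hy.2⟩,
        by simpa using hδ, (rk_eq_iff _).1 (le_antisymm (rk_le _) hr)⟩
  induction d with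
  | zero => exact fun lam hlam y hy δ hδ hr => h0 0 lam hlam y hy δ hδ hr
  | succ d ih =>
    intro lam hlam y hy δ hδ hr
    rcases le_or_gt (p + 2) (rk (A y)) with h1 | h1
    · exact h0 _ lam hlam y hy δ hδ h1
    obtain ⟨x, hx, h2, h3⟩ := step h hlam hy (half_pos hδ) h1
    obtain ⟨z, hz, h4, h5⟩ := ih _ (mul_pos (one_pos.trans_le (one_le_KK p)) hlam) x hx _
      (half_pos hδ) (by omega)
    refine ⟨z, by rwa [pow_succ, mul_assoc], ?_, h5⟩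
    have := norm_sub_le_norm_sub_add_norm_sub z x y
    linarith

end NonZeroX

theorem exists_nz {q Θ C : ℝ} {k0 : ℕ} {ν : Measure (W p)} {O : Set (W p)} {f : W p → W p}
    {A : W p → W p →L[ℝ] W p} (h : Ctx q Θ C k0 ν O f A) {lam : ℝ} (hlam : 0 < lam) {y : W p}
    (hy : y ∈ GG ν lam ∩ O) {δ : ℝ} (hδ : 0 < δ) :
    ∃ z ∈ GG ν (KK p ^ (p + 2) * lam) ∩ O, ‖z - y‖ < δ ∧ (A z).det ≠ 0 :=
  NonZeroX.ind h (p + 2) lam hlam y hy δ hδ (Nat.le_add_left _ _)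

theorem pure_uniq {q Θ C : ℝ} {k0 : ℕ} {ν : Measure (W p)} {O : Set (W p)} {f : W p → W p}
    {A : W p → W p →L[ℝ] W p} (h : Ctx q Θ C k0 ν O f A) {lam : ℝ} (hlam : 0 < lam) {y : W p}
    (hy : y ∈ GG ν lam ∩ O) (h1 : Pure ν A true y) (h2 : Pure ν A false y) : False := by
  obtain ⟨δ1, p1, h1⟩ := h1 (KK p ^ (p + 2) * lam)
  obtain ⟨δ2, p2, h2⟩ := h2 (KK p ^ (p + 2) * lam)
  obtain ⟨z, hz, h3, h4⟩ := exists_nz h hlam hy (lt_min p1 p2)
  have h5 := h1 z hz.1 (h3.trans_le (min_le_left _ _))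
  have h6 := h2 z hz.1 (h3.trans_le (min_le_right _ _))
  simp only [sg, if_true, Bool.false_eq_true, if_false] at h5 h6
  exact h4 (by linarith)

theorem pure_open {q Θ C : ℝ} {k0 : ℕ} {ν : Measure (W p)} {O : Set (W p)} {f : W p → W p}
    {A : W p → W p →L[ℝ] W p} (h : Ctx q Θ C k0 ν O f A) {lam : ℝ} (hlam : 0 < lam) {y : W p}
    {b : Bool} (h1 : Pure ν A b y) : ∃ δ : ℝ, 0 < δ ∧ ∀ z ∈ GG ν lam ∩ O, ‖z - y‖ < δ →
      ∀ b', Pure ν A b' z → b' = b := by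
  obtain ⟨δ1, p1, h1⟩ := h1 (KK p ^ (p + 2) * lam)
  refine ⟨δ1 / 2, half_pos p1, fun x hx h2 b' h3 => ?_⟩
  obtain ⟨δ2, p2, h3⟩ := h3 (KK p ^ (p + 2) * lam)
  obtain ⟨z, hz, h4, h5⟩ := exists_nz h hlam hx (lt_min (half_pos p1) p2)
  have h6 := h1 z hz.1 (by
    have := norm_sub_le_norm_sub_add_norm_sub z x y
    have := h4.trans_le (min_le_left _ _)
    linarith)
  have h7 := h3 z hz.1 (h4.trans_le (min_le_right _ _))
  by_contra hne
  apply h5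
  cases b <;> cases b' <;>
    simp only [sg, if_true, Bool.false_eq_true, if_false, not_true] at h6 h7 hne <;> linarith

theorem pure_of_det {q Θ C : ℝ} {k0 : ℕ} {ν : Measure (W p)} {O : Set (W p)} {f : W p → W p}
    {A : W p → W p →L[ℝ] W p} (h : Ctx q Θ C k0 ν O f A) {lam : ℝ} {y : W p}
    (hy : y ∈ GG ν lam ∩ O) {b : Bool} (hd : 0 < sg b * (A y).det) : Pure ν A b y := by
  intro lam'
  have h1 : ContinuousWithinAt (fun z => sg b * (A z).det) (GG ν (max lam lam') ∩ O) y :=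
    continuousWithinAt_const.mul (ContinuousLinearMap.continuous_det.continuousAt.comp_continuousWithinAt
      (h.contA _ y ⟨GG_mono (le_max_left _ _) hy.1, hy.2⟩))
  obtain ⟨δ1, p1, h2⟩ := Metric.mem_nhdsWithin_iff.1 (h1.eventually (lt_mem_nhds hd))
  obtain ⟨δ2, p2, h3⟩ := Metric.isOpen_iff.1 h.op y hy.2
  refine ⟨min δ1 δ2, lt_min p1 p2, fun z hz h4 => le_of_lt (h2 ⟨mem_ball_iff_norm.2
    (h4.trans_le (min_le_left _ _)), GG_mono (le_max_right _ _) hz,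
    h3 (mem_ball_iff_norm.2 (h4.trans_le (min_le_right _ _)))⟩)⟩

end SN
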