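import Mathlib
import Pool.Agent.MP_edaf86_an.N.NonZero
import Pool.Agent.MP_edaf86_an.N.LocSign

namespace SN
open Set Filter Topology MeasureTheory Metric Function
open scoped ENNReal

variable {p : ℕ}

namespace AllPureX

theorem pure_of_ne {q Θ C : ℝ} {k0 : ℕ} {ν : Measure (W p)} {O : Set (W p)} {f : W p → W p}
    {A : W p → W p →L[ℝ] W p} (h : Ctx q Θ C k0 ν O f A) {lam : ℝ} {y : W p}
    (hy : y ∈ GG ν lam ∩ O) (hd : (A y).det ≠ 0) : ∃ b, Pure ν A b y := by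
  rcases lt_or_gt_of_ne hd with h1 | h1
  · exact ⟨false, pure_of_det h hy (by simpa [sg] using h1)⟩
  · exact ⟨true, pure_of_det h hy (by simpa [sg] using h1)⟩

theorem col_of {q Θ C : ℝ} {k0 : ℕ} {ν : Measure (W p)} {O : Set (W p)} {f : W p → W p}
    {A : W p → W p →L[ℝ] W p} (h : Ctx q Θ C k0 ν O f A) {μ : ℝ} (hμ : 0 < μ) {r : ℕ}
    (hr : r < p + 2) (ih : ∀ z ∈ GG ν μ ∩ O, r < rk (A z) → ∃ b, Pure ν A b z) {y : W p}
    {ρ : ℝ} (hsub : closedBall y ρ ⊆ O) :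
    Col (GG ν μ) A r y ρ fun b => {z | z ∈ GG ν μ ∩ O ∧ r < rk (A z) ∧ Pure ν A b z} where
  disj z h1 h2 := pure_uniq h hμ h1.1 h1.2.2 h2.2.2
  opn b z hz _ := by
    obtain ⟨δ1, hδ1, h1⟩ := pure_open h hμ hz.2.2
    have h2 : ∀ᶠ w in 𝓝[GG ν μ ∩ O] z, rk (A z) ≤ rk (A w) :=
      (h.contA μ z hz.1).eventually (rk_lsc (A z))
    obtain ⟨δ2, hδ2, h3⟩ := Metric.mem_nhdsWithin_iff.1 h2
    refine ⟨min δ1 δ2, lt_min hδ1 hδ2, fun w hw hwz => ?_⟩
    have hw' : w ∈ GG ν μ ∩ O := ⟨hw.1, hsub hw.2⟩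
    have h4 : r < rk (A w) := hz.2.1.trans_le
      (h3 ⟨mem_ball_iff_norm.2 (hwz.trans_le (min_le_right _ _)), hw'⟩)
    obtain ⟨b', hb'⟩ := ih w hw' h4
    have h5 := h1 w hw' (hwz.trans_le (min_le_left _ _)) b' hb'
    exact ⟨hw', h4, h5 ▸ hb'⟩
  cover z hz hrz := by
    have hz' : z ∈ GG ν μ ∩ O := ⟨hz.1, hsub hz.2⟩
    obtain ⟨b, hb⟩ := ih z hz' hrz
    cases b
    · exact Or.inr ⟨hz', hrz, hb⟩
    · exact Or.inl ⟨hz', hrz, hb⟩
  hr _ _ hz := hz.2.1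
  sgn b z hz hd := by
    have hz' : z ∈ GG ν μ ∩ O := ⟨hz.1, hsub hz.2⟩
    have h1 : (A z).det ≠ 0 := by
      intro h0
      rw [h0, mul_zero] at hd
      exact lt_irrefl _ hd
    exact ⟨hz', by rw [(rk_eq_iff _).2 h1]; exact hr, pure_of_det h hz' hd⟩

theorem aux {q Θ C : ℝ} {k0 : ℕ} {ν : Measure (W p)} {O : Set (W p)} {f : W p → W p}
    {A : W p → W p →L[ℝ] W p} (h : Ctx q Θ C k0 ν O f A) (d : ℕ) :
    ∀ lam : ℝ, 0 < lam → ∀ y ∈ GG ν lam ∩ O, p + 2 ≤ rk (A y) + d → ∃ b, Pure ν A b y := by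
  induction d with
  | zero =>
    intro lam _ y hy hd
    exact pure_of_ne h hy ((rk_eq_iff _).1 (le_antisymm (rk_le _) (by simpa using hd)))
  | succ d ih =>
    intro lam hlam y hy hd
    by_cases hfull : rk (A y) = p + 2
    · exact pure_of_ne h hy ((rk_eq_iff _).1 hfull)
    have hr : rk (A y) < p + 2 := lt_of_le_of_ne (rk_le _) hfull
    by_contra hcon
    push Not at hcon
    have h1 := hcon true
    have h2 := hcon false
    simp only [Pure, not_forall, not_exists, not_and, not_le] at h1 h2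
    obtain ⟨l1, h1⟩ := h1
    obtain ⟨l2, h2⟩ := h2
    set l := max lam (max l1 l2) with hl
    have hl0 : 0 < l := hlam.trans_le (le_max_left _ _)
    have hK := one_le_KK p
    have hle1 : l ≤ KK p * l := le_mul_of_one_le_left hl0.le hK
    have hle2 : KK p * l ≤ KK p * (KK p * l) := le_mul_of_one_le_left (hl0.le.trans hle1) hK
    have hμ : 0 < KK p * (KK p * l) := hl0.trans_le (hle1.trans hle2)
    have hy' : y ∈ GG ν (KK p * (KK p * l)) ∩ O :=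
      ⟨GG_mono ((le_max_left _ _).trans (hle1.trans hle2)) hy.1, hy.2⟩
    obtain ⟨ρ, Φ, Ψ, J, C0, hc, hJ⟩ := exists_chart h _ hy'
    have hcol := col_of h hμ hr (fun z hz hrz => ih _ hμ z hz (by omega)) hc.sub
    rw [← hJ] at hcol
    obtain ⟨e, he⟩ : ∃ e, e ∉ J := by
      by_contra h0
      push Not at h0
      rw [Finset.eq_univ_iff_forall.2 h0, Finset.card_univ, Fintype.card_fin] at hJ
      exact hfull hJ.symm
    obtain ⟨δ, hδ, h3⟩ := local_sign h hl0 hc hcol he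
    obtain ⟨z1, hz1, hz1', hd1⟩ := h1 δ hδ
    obtain ⟨z2, hz2, hz2', hd2⟩ := h2 δ hδ
    refine h3 z2 ⟨GG_mono ((le_max_right _ _).trans (le_max_right _ _)) hz2,
      mem_ball_iff_norm.2 hz2'⟩ z1 ⟨GG_mono ((le_max_left _ _).trans (le_max_right _ _)) hz1,
      mem_ball_iff_norm.2 hz1'⟩ ?_ ?_
    · simpa [sg] using hd2
    · simpa [sg] using hd1

end AllPureX

theorem all_pure {q Θ C : ℝ} {k0 : ℕ} {ν : Measure (W p)} {O : Set (W p)} {f : W p → W p}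
    {A : W p → W p →L[ℝ] W p} (h : Ctx q Θ C k0 ν O f A) {lam : ℝ} (hlam : 0 < lam) {y : W p}
    (hy : y ∈ GG ν lam ∩ O) : ∃ b, Pure ν A b y :=
  AllPureX.aux h (p + 2) lam hlam y hy (Nat.le_add_left _ _)

end SN
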