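import Mathlib
import Pool.Agent.MP_edaf86_an.N.Defs

namespace SN
open Set Filter Topology MeasureTheory Metric Function
open scoped ENNReal

variable {p : ℕ}

namespace JetX

theorem holder {q c v : ℝ} (hq : 2 < q) {g : W p → ℝ} (hg0 : ∀ y, 0 ≤ g y)
    (hg : AEStronglyMeasurable g volume) {B : Set (W p)} (hB : MeasurableSet B) (hc : 0 ≤ c)
    (hv : 0 < v) (hvol : volume B = ENNReal.ofReal v)
    (hν : (volume.withDensity fun y => ENNReal.ofReal (g y ^ q)) B ≤ ENNReal.ofReal (c * v)) :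
    ∫ y in B, g y ≤ c ^ (1 / q) * v := by
  have hq0 : 0 < q := by linarith
  have hq1 : 1 < q := by linarith
  have hconj : q.HolderConjugate (Real.conjExponent q) := Real.HolderConjugate.conjExponent hq1
  rw [integral_eq_lintegral_of_nonneg_ae (Eventually.of_forall hg0) hg.restrict]
  have hm : AEMeasurable (fun y => ENNReal.ofReal (g y)) (volume.restrict B) :=
    hg.restrict.aemeasurable.ennreal_ofReal
  have h1 := ENNReal.lintegral_mul_le_Lp_mul_Lq (volume.restrict B) hconj hm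
    (aemeasurable_const (b := (1 : ℝ≥0∞)))
  rw [withDensity_apply _ hB] at hν
  have h2 : ∫⁻ y in B, ENNReal.ofReal (g y) ^ q = ∫⁻ y in B, ENNReal.ofReal (g y ^ q) := by
    refine lintegral_congr fun y => ?_
    rw [ENNReal.ofReal_rpow_of_nonneg (hg0 y) hq0.le]
  simp only [Pi.mul_apply, mul_one, ENNReal.one_rpow, lintegral_const, one_mul,
    Measure.restrict_apply MeasurableSet.univ, univ_inter] at h1
  rw [h2, hvol] at h1
  have hs : 1 / q + 1 / Real.conjExponent q = 1 := by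
    have := hconj.inv_add_inv_eq_one
    simpa [one_div] using this
  have hp0 : 0 ≤ 1 / q := by positivity
  have hp1 : 0 ≤ 1 / Real.conjExponent q := by
    have := hconj.symm.pos
    positivity
  have h3 : ∫⁻ y in B, ENNReal.ofReal (g y) ≤ ENNReal.ofReal (c ^ (1 / q) * v) := by
    refine h1.trans ?_
    calc _ ≤ ENNReal.ofReal (c * v) ^ (1 / q) * ENNReal.ofReal v ^ (1 / Real.conjExponent q) := by
          gcongr
      _ = ENNReal.ofReal (c ^ (1 / q) * v) := by
          rw [ENNReal.ofReal_rpow_of_nonneg (by positivity) hp0,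
            ENNReal.ofReal_rpow_of_nonneg hv.le hp1,
            ← ENNReal.ofReal_mul (by positivity), Real.mul_rpow hc hv.le, mul_assoc,
            ← Real.rpow_add hv, hs, Real.rpow_one]
  exact ENNReal.toReal_le_of_le_ofReal (by positivity) h3

theorem avg_le {q Θ b : ℝ} (hq : 2 < q) (hΘ : 0 ≤ Θ) (hb : 0 ≤ b) {g : W p → ℝ}
    (hg0 : ∀ y, 0 ≤ g y) (hg : AEStronglyMeasurable g volume) {k : ℕ} {x z : W p}
    (hM : Mass (volume.withDensity fun y => ENNReal.ofReal (g y ^ q)) Θ k b x) (j : ℕ)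
    (hz : ‖z - x‖ ≤ 4 * (1 / 2 : ℝ) ^ (k + j)) :
    ((2 : ℝ) ^ (k + j)) ^ (p + 2) * ∫ y in ball z (4 * (1 / 2 : ℝ) ^ (k + j)), g y ≤
      8 ^ (p + 2) * b ^ (1 / q) * (Θ ^ (1 / q)) ^ j := by
  have hs : 0 < (1 / 2 : ℝ) ^ (k + j) := by positivity
  have h2 : (2 : ℝ) ^ (k + j) * (1 / 2 : ℝ) ^ (k + j) = 1 := by
    rw [← mul_pow]; norm_num
  have hMj := hM j
  generalize (1 / 2 : ℝ) ^ (k + j) = s at *
  have hvol : volume (ball z (4 * s)) = ENNReal.ofReal ((8 * s) ^ (p + 2)) := by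
    rw [Real.volume_pi_ball z (by positivity : 0 < 4 * s), Fintype.card_fin]
    congr 2
    ring
  have hsub : ball z (4 * s) ⊆ ball x (8 * s) := by
    intro w hw
    rw [mem_ball_iff_norm] at hw ⊢
    calc ‖w - x‖ = ‖(w - z) + (z - x)‖ := by congr 1; abel
      _ ≤ ‖w - z‖ + ‖z - x‖ := norm_add_le _ _
      _ < 8 * s := by linarith
  have hν : (volume.withDensity fun y => ENNReal.ofReal (g y ^ q)) (ball z (4 * s)) ≤
      ENNReal.ofReal (b * Θ ^ j * (8 * s) ^ (p + 2)) := by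
    refine (measure_mono hsub).trans (hMj.trans (ENNReal.ofReal_le_ofReal ?_))
    gcongr
    linarith
  have h := holder hq hg0 hg measurableSet_ball (by positivity) (by positivity) hvol hν
  calc _ ≤ ((2 : ℝ) ^ (k + j)) ^ (p + 2) * ((b * Θ ^ j) ^ (1 / q) * (8 * s) ^ (p + 2)) := by
        gcongr
    _ = (8 * ((2 : ℝ) ^ (k + j) * s)) ^ (p + 2) * (b ^ (1 / q) * (Θ ^ j) ^ (1 / q)) := by
        rw [Real.mul_rpow hb (by positivity), mul_pow, mul_pow, mul_pow]
        ring
    _ = _ := by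
        rw [h2, mul_one, ← Real.rpow_natCast Θ j, ← Real.rpow_mul hΘ, mul_comm (j : ℝ),
          Real.rpow_mul hΘ, Real.rpow_natCast, mul_assoc]

theorem geo {E : Type*} [NormedAddCommGroup E] [CompleteSpace E] {u : ℕ → E} {k : ℕ} {K r : ℝ}
    (hr : r < 1) (h : ∀ j, ‖u (k + j) - u (k + j + 1)‖ ≤ K * r ^ j) :
    Tendsto u atTop (𝓝 (limUnder atTop u)) ∧
      ∀ L, Tendsto u atTop (𝓝 L) → ‖u k - L‖ ≤ K / (1 - r) := by
  have h' : ∀ j, dist (u (k + j)) (u (k + (j + 1))) ≤ K * r ^ j := by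
    intro j
    rw [dist_eq_norm]
    exact h j
  have hc : CauchySeq fun j => u (k + j) := cauchySeq_of_le_geometric r K hr h'
  have hc' : CauchySeq u := by
    rw [← cauchySeq_shift k]
    simpa [add_comm] using hc
  refine ⟨hc'.tendsto_limUnder, fun L hL => ?_⟩
  have hL' : Tendsto (fun j => u (k + j)) atTop (𝓝 L) := by
    have := (tendsto_add_atTop_iff_nat k).2 hL
    simpa [add_comm] using this
  have := dist_le_of_le_geometric_of_tendsto₀ r K hr h' hL'
  simpa [dist_eq_norm] using this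

end JetX

open JetX in
theorem ctx_of_moll {q R C0 : ℝ} (hq : 2 < q) (x0 : W p) {k0 : ℕ} {g : W p → ℝ} {f : W p → W p}
    {D : W p → W p →L[ℝ] W p} {F : ℕ → W p → W p} (hg0 : ∀ y, 0 ≤ g y)
    (hg : MemLp g (ENNReal.ofReal q) volume) (h : Moll (ball x0 R) k0 C0 g f D F)
    (hf : ContinuousOn f (ball x0 R)) (hi : InjOn f (ball x0 R)) :
    ∃ (Θ C : ℝ) (ν : Measure (W p)) (A : W p → W p →L[ℝ] W p),
      Ctx q Θ C k0 ν (ball x0 R) f A ∧ ∀ᵐ y ∂(volume.restrict (ball x0 R)), A y = D y := by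
  have hq0 : 0 < q := by linarith
  have h4 : (4 : ℝ) < 2 ^ q := by
    have : (2 : ℝ) ^ (2 : ℝ) < 2 ^ q := Real.rpow_lt_rpow_of_exponent_lt (by norm_num) hq
    have e : (2 : ℝ) ^ (2 : ℝ) = 4 := by norm_num
    rwa [e] at this
  obtain ⟨Θ, hΘ4, hΘq⟩ := exists_between h4
  have hΘ0 : 0 ≤ Θ := by linarith
  have hth0 : 0 ≤ Θ ^ (1 / q) := by positivity
  have hth2 : Θ ^ (1 / q) < 2 := by
    have := Real.rpow_lt_rpow hΘ0 hΘq (by positivity : 0 < 1 / q)
    rwa [← Real.rpow_mul (by norm_num), mul_one_div_cancel hq0.ne', Real.rpow_one] at this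
  have hC0 := h.c0
  have hgm := hg.aestronglyMeasurable
  have hav := fun (b : ℝ) (hb : 0 ≤ b) (k : ℕ) (x z : W p) =>
    avg_le (Θ := Θ) (b := b) (k := k) (x := x) (z := z) hq hΘ0 hb hg0 hgm
  generalize Θ ^ (1 / q) = th at hth0 hth2 hav
  obtain ⟨τ, hτ⟩ : ∃ τ : ℝ, τ = 1 / (1 - th / 2) := ⟨_, rfl⟩
  have hd2 : 0 < 1 - th / 2 := by linarith
  have hτ0 : 0 ≤ τ := by rw [hτ]; positivity
  refine ⟨Θ, C0 * 8 ^ (p + 2) * (3 * τ + 1),
    volume.withDensity fun y => ENNReal.ofReal (g y ^ q),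
    fun x => limUnder atTop fun k => fderiv ℝ (F k) x,
    ⟨hq, hΘ4, hΘq, by positivity, ?_, isOpen_ball, hf, hi, ?_⟩, ?_⟩
  · rw [withDensity_apply _ MeasurableSet.univ, Measure.restrict_univ]
    have h1 := hg.integrable_norm_rpow (by simpa using hq0) ENNReal.ofReal_ne_top
    rw [ENNReal.toReal_ofReal hq0.le] at h1
    have h2 : Integrable (fun y => g y ^ q) volume := by
      refine h1.congr (Eventually.of_forall fun y => ?_)
      simp only [Real.norm_of_nonneg (hg0 y)]
    exact h2.lintegral_lt_top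
  · intro x hx y hy k hk b hb hxy hMx hMy
    have hs : 0 < (1 / 2 : ℝ) ^ k := by positivity
    obtain ⟨K, hK⟩ : ∃ K : ℝ, K = C0 * 8 ^ (p + 2) * b ^ (1 / q) := ⟨_, rfl⟩
    have hK0 : 0 ≤ K := by rw [hK]; positivity
    have hA : ∀ z ∈ ball x0 R,
        Mass (volume.withDensity fun y => ENNReal.ofReal (g y ^ q)) Θ k b z →
        ‖fderiv ℝ (F k) z - limUnder atTop fun k => fderiv ℝ (F k) z‖ ≤
          K * (1 / 2 : ℝ) ^ k * τ := by
      intro z hz hM
      have hgeo := geo (u := fun k => fderiv ℝ (F k) z) (k := k) (K := K * (1 / 2 : ℝ) ^ k)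
        (r := th / 2) (by linarith) (fun j => by
          have h1 := h.m2 (k + j) (by omega) z hz
          have h2 := hav b hb k z z hM j (by simp)
          refine h1.trans ?_
          calc _ ≤ C0 * (1 / 2 : ℝ) ^ (k + j) * (8 ^ (p + 2) * b ^ (1 / q) * th ^ j) := by
                gcongr
            _ = _ := by
                rw [hK, pow_add, div_pow th, div_pow 1 2 j]
                ring)
      have := hgeo.2 _ hgeo.1
      rw [hτ, mul_one_div]
      exact this
    have hF : ∀ z ∈ ball x0 R,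
        Mass (volume.withDensity fun y => ENNReal.ofReal (g y ^ q)) Θ k b z →
        ‖F k z - f z‖ ≤ K * ((1 / 2 : ℝ) ^ k) ^ 2 * τ := by
      intro z hz hM
      have hgeo := geo (u := fun k => F k z) (k := k) (K := K * ((1 / 2 : ℝ) ^ k) ^ 2)
        (r := th / 2) (by linarith) (fun j => by
          have h1 := h.m3 (k + j) (by omega) z hz
          have h2 := hav b hb k z z hM j (by simp)
          refine h1.trans ?_
          have h3 : (1 / 2 : ℝ) ^ j ≤ 1 := pow_le_one₀ (by norm_num) (by norm_num)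
          calc _ ≤ C0 * ((1 / 2 : ℝ) ^ (k + j)) ^ 2 * (8 ^ (p + 2) * b ^ (1 / q) * th ^ j) := by
                gcongr
            _ = K * ((1 / 2 : ℝ) ^ k) ^ 2 * (th / 2) ^ j * (1 / 2 : ℝ) ^ j := by
                rw [hK, pow_add, div_pow th, div_pow 1 2 j]
                ring
            _ ≤ K * ((1 / 2 : ℝ) ^ k) ^ 2 * (th / 2) ^ j * 1 := by gcongr
            _ = _ := mul_one _)
      have := hgeo.2 _ (h.m4 z hz)
      rw [hτ, mul_one_div]
      exact this
    have hconv : Convex ℝ (ball x0 R ∩ closedBall x ((1 / 2 : ℝ) ^ k)) :=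
      (convex_ball _ _).inter (convex_closedBall _ _)
    have hxS : x ∈ ball x0 R ∩ closedBall x ((1 / 2 : ℝ) ^ k) := ⟨hx, mem_closedBall_self hs.le⟩
    have hyx : ‖y - x‖ ≤ (1 / 2 : ℝ) ^ k := by rwa [norm_sub_rev]
    have hyS : y ∈ ball x0 R ∩ closedBall x ((1 / 2 : ℝ) ^ k) :=
      ⟨hy, mem_closedBall_iff_norm.2 hyx⟩
    have hd1 : Differentiable ℝ (F k) := (h.cd k).differentiable (by norm_num)
    have hd2' : Differentiable ℝ (fderiv ℝ (F k)) :=
      ((h.cd k).fderiv_right (m := 1) (by norm_num)).differentiable (by norm_num)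
    have hD2 : ∀ z ∈ ball x0 R ∩ closedBall x ((1 / 2 : ℝ) ^ k),
        ‖fderiv ℝ (fderiv ℝ (F k)) z‖ ≤ K := by
      intro z hz
      have h1 := h.m1 k hk z hz.1
      have hzx := mem_closedBall_iff_norm.1 hz.2
      have h2 := hav b hb k x z hMx 0 (by simp only [add_zero]; linarith)
      simp only [add_zero, pow_zero, mul_one] at h2
      refine h1.trans ?_
      rw [hK, mul_assoc, mul_assoc]
      gcongr
    have hD1 : ∀ z ∈ ball x0 R ∩ closedBall x ((1 / 2 : ℝ) ^ k),
        ‖fderiv ℝ (F k) z - fderiv ℝ (F k) x‖ ≤ K * (1 / 2 : ℝ) ^ k := by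
      intro z hz
      have h1 := hconv.norm_image_sub_le_of_norm_fderiv_le (𝕜 := ℝ) (f := fderiv ℝ (F k))
        (fun w _ => hd2' w) hD2 hxS hz
      have hzx := mem_closedBall_iff_norm.1 hz.2
      exact h1.trans (by gcongr)
    have hT : ‖F k y - F k x - fderiv ℝ (F k) x (y - x)‖ ≤ K * ((1 / 2 : ℝ) ^ k) ^ 2 := by
      have h1 := hconv.norm_image_sub_le_of_norm_fderiv_le' (𝕜 := ℝ) (f := F k)
        (fun w _ => hd1 w) hD1 hxS hyS
      refine h1.trans ?_
      rw [sq, ← mul_assoc]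
      gcongr
    have hAx := hA x hx hMx
    have hAy := hA y hy hMy
    have hFx := hF x hx hMx
    have hFy := hF y hy hMy
    have hDy := hD1 y hyS
    unfold rem
    beta_reduce
    generalize (limUnder atTop fun k => fderiv ℝ (F k) x) = Ax at *
    generalize (limUnder atTop fun k => fderiv ℝ (F k) y) = Ay at *
    generalize (1 / 2 : ℝ) ^ k = s at *
    constructor
    · have e : Ax - Ay = (fderiv ℝ (F k) y - Ay) - (fderiv ℝ (F k) y - fderiv ℝ (F k) x) -
          (fderiv ℝ (F k) x - Ax) := by abel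
      have h1 := norm_sub_le ((fderiv ℝ (F k) y - Ay) - (fderiv ℝ (F k) y - fderiv ℝ (F k) x))
        (fderiv ℝ (F k) x - Ax)
      have h2 := norm_sub_le (fderiv ℝ (F k) y - Ay) (fderiv ℝ (F k) y - fderiv ℝ (F k) x)
      have h3 : 0 ≤ K * s * τ := by positivity
      have e2 : C0 * 8 ^ (p + 2) * (3 * τ + 1) * s * b ^ (1 / q) = 3 * (K * s * τ) + K * s := by
        rw [hK]; ring
      rw [e, e2]
      linarith
    · have e : f y - f x - Ax (y - x) = (F k y - F k x - fderiv ℝ (F k) x (y - x)) +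
          (fderiv ℝ (F k) x - Ax) (y - x) + (F k x - f x) - (F k y - f y) := by
        rw [sub_apply]
        abel
      have h0 : ‖(fderiv ℝ (F k) x - Ax) (y - x)‖ ≤ K * s ^ 2 * τ := by
        refine ((fderiv ℝ (F k) x - Ax).le_opNorm _).trans ?_
        calc _ ≤ K * s * τ * s := by gcongr
          _ = _ := by ring
      have h1 := norm_sub_le ((F k y - F k x - fderiv ℝ (F k) x (y - x)) +
          (fderiv ℝ (F k) x - Ax) (y - x) + (F k x - f x)) (F k y - f y)
      have h2 := norm_add₃_le (a := F k y - F k x - fderiv ℝ (F k) x (y - x))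
        (b := (fderiv ℝ (F k) x - Ax) (y - x)) (c := F k x - f x)
      have e2 : C0 * 8 ^ (p + 2) * (3 * τ + 1) * s ^ 2 * b ^ (1 / q) =
          3 * (K * s ^ 2 * τ) + K * s ^ 2 := by
        rw [hK]; ring
      rw [e, e2]
      linarith
  · filter_upwards [h.m5] with y hy
    exact hy.limUnder_eq

end SN
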