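import Mathlib
import Pool.Agent.MP_edaf86_an.N.AllPure
import Pool.Agent.MP_edaf86_an.N.Maj

namespace SN
open Set Filter Topology MeasureTheory Metric Function
open scoped ENNReal NNReal

variable {p : ℕ}

namespace LocAEX

lemma bad (ν : Measure (W p)) (hfin : ν univ < ∞) (c : W p) {R : ℝ} (hR : 0 < R) {ε : ℝ≥0}
    (hε : 0 < ε) : ∃ μ : ℝ, 0 < μ ∧ ∀ i e : Fin (p + 2), i ≠ e →
      volume {w ∈ ball c R | ∃ y ∈ ball c R, y ∉ GG ν μ ∧ ∀ j, j ≠ i → j ≠ e → y j = w j} ≤ ε := by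
  obtain ⟨M, hM⟩ : ∃ M : ℝ, M = (ν univ).toReal := ⟨_, rfl⟩
  have hM0 : 0 ≤ M := hM ▸ ENNReal.toReal_nonneg
  have hMe : ν univ = ENNReal.ofReal M := by rw [hM, ENNReal.ofReal_toReal hfin.ne]
  have hε' : (0 : ℝ) < ε := hε
  obtain ⟨K, hK⟩ : ∃ K : ℝ, K = (10 * 1) ^ p * (2 * R * (2 * R)) := ⟨_, rfl⟩
  have hK0 : 0 ≤ K := by rw [hK]; positivity
  have h1 : 0 ≤ K * M / ε := by positivity
  refine ⟨M + 1 + K * M / ε, by linarith, fun i e hie => ?_⟩
  have hsh := shadow ν id (L := 1) (μ := M + 1 + K * M / ε) (η := 1) one_pos (by linarith) one_pos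
    (fun x y => by simp) (ball c R) (fun y _ s hs => by
      refine (measure_mono (subset_univ _)).trans ?_
      rw [hMe]
      refine ENNReal.ofReal_le_ofReal ?_
      have h2 : (1 : ℝ) ≤ s ^ p := one_le_pow₀ hs
      nlinarith) hie (fun j => c j - R) (fun j => c j + R)
  have hb : ball c R = Set.pi univ (fun j => Ioo (c j - R) (c j + R)) := by
    rw [ball_pi c hR]
    simp only [Real.ball_eq_Ioo]
  rw [← hb] at hsh
  refine hsh.trans ?_
  have e1 : c i + R - (c i - R) = 2 * R := by ring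
  have e2 : c e + R - (c e - R) = 2 * R := by ring
  rw [e1, e2, ← hK]
  refine (mul_le_mul_right (measure_mono (subset_univ _)) _).trans ?_
  rw [hMe, ← ENNReal.ofReal_mul (by positivity), ← ENNReal.ofReal_coe_nnreal]
  refine ENNReal.ofReal_le_ofReal ?_
  rw [div_mul_eq_mul_div, div_le_iff₀ (by linarith)]
  have h3 : (ε : ℝ) * (K * M / ε) = K * M := by field_simp
  nlinarith

lemma line_conn (c w : W p) {R : ℝ} (hR : 0 < R) (i : Fin (p + 2)) :
    IsPreconnected {t : ℝ | update w i t ∈ ball c R} := by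
  refine Set.OrdConnected.isPreconnected ⟨fun a ha b hb t ht => ?_⟩
  simp only [mem_ofPred_eq, mem_ball, dist_pi_lt_iff hR] at ha hb ⊢
  intro j
  by_cases hj : j = i
  · subst hj
    have h1 := ha j
    have h2 := hb j
    simp only [update_self, Real.dist_eq, abs_lt] at h1 h2 ⊢
    constructor <;> linarith [ht.1, ht.2]
  · have h1 := ha j
    simp only [update_of_ne hj] at h1 ⊢
    exact h1

end LocAEX

open LocAEX

theorem local_ae {q Θ C : ℝ} {k0 : ℕ} {ν : Measure (W p)} {O : Set (W p)} {f : W p → W p}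
    {A : W p → W p →L[ℝ] W p} (h : Ctx q Θ C k0 ν O f A) {c : W p} {R : ℝ} (hR : 0 < R)
    (hsub : ball c R ⊆ O) :
    ∃ b, ∀ᵐ x ∂(volume.restrict (ball c R)), 0 ≤ sg b * (A x).det := by
  classical
  let S : Bool → Set (W p) := fun b => {w | ∃ lam : ℝ, 0 < lam ∧ w ∈ GG ν lam ∩ O ∧ Pure ν A b w}
  have hS : ∀ w, w ∈ S true → w ∈ S false → False := by
    rintro w ⟨lam, h1, h2, h3⟩ ⟨-, -, -, h4⟩
    exact pure_uniq h h1 h2 h3 h4
  have key : ∀ ε : ℝ≥0, 0 < ε → ∃ b, volume (ball c R \ S b) ≤ ((p + 2 : ℕ) : ℝ≥0∞) * ε := by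
    intro ε hε
    obtain ⟨μ, hμ, hbad⟩ := bad ν h.fin c hR hε
    choose e he using fun i : Fin (p + 2) => exists_ne i
    refine maj c hR S hS (fun i => {w ∈ ball c R | ∃ y ∈ ball c R, y ∉ GG ν μ ∧
      ∀ j, j ≠ i → j ≠ e i → y j = w j}) ε
      (fun i => (measure_mono inter_subset_left).trans (hbad i (e i) (he i).symm)) ?_
    intro i w hw hwb
    have hG : ∀ t : ℝ, update w i t ∈ ball c R → update w i t ∈ GG ν μ ∩ O := by
      intro t ht
      refine ⟨?_, hsub ht⟩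
      by_contra hc
      exact hwb ⟨hw, _, ht, hc, fun j hj _ => update_of_ne hj _ _⟩
    have hex : ∀ t : ℝ, ∃ b, update w i t ∈ ball c R → Pure ν A b (update w i t) := by
      intro t
      by_cases ht : update w i t ∈ ball c R
      · obtain ⟨b, hb⟩ := all_pure h hμ (hG t ht)
        exact ⟨b, fun _ => hb⟩
      · exact ⟨true, fun h => absurd h ht⟩
    choose col hcol using hex
    have hcont : ContinuousOn col {t : ℝ | update w i t ∈ ball c R} := by
      intro t0 ht0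
      obtain ⟨δ, hδ, hop⟩ := pure_open h hμ (hcol t0 ht0)
      have hu : Continuous fun t : ℝ => ‖update w i t - update w i t0‖ := by
        have h1 : Continuous fun t : ℝ => update w i t := continuous_const.update i continuous_id
        exact (h1.sub continuous_const).norm
      have hev : ∀ᶠ t in 𝓝 t0, ‖update w i t - update w i t0‖ < δ :=
        hu.continuousAt.eventually_lt continuousAt_const (by simpa using hδ)
      refine (continuousWithinAt_const (b := col t0)).congr_of_eventuallyEq ?_ rfl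
      filter_upwards [nhdsWithin_le_nhds hev, self_mem_nhdsWithin] with t h1 h2
      exact hop _ (hG t h2) h1 _ (hcol t h2)
    have hw0 : w i ∈ {t : ℝ | update w i t ∈ ball c R} := by simpa using hw
    refine ⟨col (w i), fun t ht => ⟨μ, hμ, hG t ht, ?_⟩⟩
    rw [(line_conn c w hR i).constant hcont hw0 ht]
    exact hcol t ht
  have hnull : ∃ b, volume (ball c R \ S b) = 0 := by
    by_contra hc
    push Not at hc
    have hm : min (volume (ball c R \ S true)) (volume (ball c R \ S false)) ≠ 0 :=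
      (lt_min (pos_iff_ne_zero.2 (hc true)) (pos_iff_ne_zero.2 (hc false))).ne'
    obtain ⟨ε, hε, hlt⟩ := ENNReal.exists_nnreal_pos_mul_lt
      (ENNReal.natCast_ne_top (p + 2)) hm
    obtain ⟨b, hb⟩ := key ε hε
    rw [mul_comm] at hb
    cases b
    · exact absurd (hb.trans_lt (hlt.trans_le (min_le_right _ _))) (lt_irrefl _)
    · exact absurd (hb.trans_lt (hlt.trans_le (min_le_left _ _))) (lt_irrefl _)
  obtain ⟨b, hb⟩ := hnull
  refine ⟨b, (ae_restrict_iff' measurableSet_ball).2 ?_⟩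
  filter_upwards [measure_eq_zero_iff_ae_notMem.1 hb] with x hx hxb
  have hxS : x ∈ S b := by
    by_contra hc
    exact hx ⟨hxb, hc⟩
  obtain ⟨lam, -, h2, h3⟩ := hxS
  obtain ⟨δ, hδ, h4⟩ := h3 lam
  exact h4 x h2.1 (by simpa using hδ)

theorem local_nz {q Θ C : ℝ} {k0 : ℕ} {ν : Measure (W p)} {O : Set (W p)} {f : W p → W p}
    {A : W p → W p →L[ℝ] W p} (h : Ctx q Θ C k0 ν O f A) {c : W p} {R : ℝ} (hR : 0 < R)
    (hsub : ball c R ⊆ O) :
    ¬ ∀ᵐ x ∂(volume.restrict (ball c R)), (A x).det = 0 := by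
  intro hae
  have h01 : (0 : Fin (p + 2)) ≠ 1 := zero_ne_one
  obtain ⟨ε, hε, hlt⟩ := ENNReal.exists_nnreal_pos_mul_lt ENNReal.one_ne_top
    (measure_ball_pos volume c hR).ne'
  obtain ⟨μ, hμ, hbad⟩ := bad ν h.fin c hR hε
  obtain ⟨y, hy, hyG⟩ : ∃ y ∈ ball c R, y ∈ GG ν μ := by
    by_contra hc
    push Not at hc
    refine absurd (lt_of_le_of_lt (le_trans (measure_mono fun w hw => ?_) (hbad 0 1 h01))
      (by simpa using hlt)) (lt_irrefl (volume (ball c R)))
    exact ⟨hw, w, hw, hc w hw, fun _ _ _ => rfl⟩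
  obtain ⟨δ, hδ, hδb⟩ := Metric.isOpen_iff.1 isOpen_ball y hy
  obtain ⟨z, hz, hzy, hdet⟩ := exists_nz h hμ ⟨hyG, hsub hy⟩ hδ
  have hzb : z ∈ ball c R := hδb (mem_ball_iff_norm.2 hzy)
  obtain ⟨l, hl⟩ : ∃ l, l = KK p ^ (p + 2) * μ := ⟨_, rfl⟩
  rw [← hl] at hz
  have hK := one_le_KK p
  have hl0 : 0 < l := by rw [hl]; positivity
  have hz2 : z ∈ GG ν (KK p * l) ∩ O := ⟨GG_mono (by nlinarith) hz.1, hz.2⟩
  have hcd : ContinuousWithinAt (fun x => (A x).det) (GG ν (KK p * l) ∩ O) z :=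
    ContinuousLinearMap.continuous_det.continuousAt.comp_continuousWithinAt
      (h.contA (KK p * l) z hz2)
  have hev : ∀ᶠ x in 𝓝[GG ν (KK p * l) ∩ O] z, (A x).det ≠ 0 := hcd.eventually_ne hdet
  have hev2 := (eventually_nhdsWithin_iff.1 hev).and (isOpen_ball.mem_nhds hzb)
  obtain ⟨s, hs, hsb⟩ := Metric.eventually_nhds_iff_ball.1 hev2
  have hLL : 1 ≤ LL p := by
    have : (0 : ℝ) ≤ p := Nat.cast_nonneg p
    unfold LL
    linarith
  have hsh := shadow_ball ν id hl0 hs (fun x y => by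
    simpa using le_mul_of_one_le_left (norm_nonneg (x - y)) hLL) hz.1 h01 z
  have h0 : volume {x | x ∈ ball c R ∧ (A x).det ≠ 0} = 0 := by
    have := (ae_restrict_iff' measurableSet_ball).1 hae
    rw [ae_iff] at this
    simpa using this
  have hcov : ball z s ⊆ {w ∈ ball z s | ∃ y ∈ ball z (LL p * s), y ∉ GG ν (KK p * l) ∧
      ∀ j, j ≠ 0 → j ≠ 1 → id y j = w j} ∪ {x | x ∈ ball c R ∧ (A x).det ≠ 0} := by
    intro w hw
    by_cases hwG : w ∈ GG ν (KK p * l)
    · obtain ⟨h1, h2⟩ := hsb w hw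
      exact Or.inr ⟨h2, h1 ⟨hwG, hsub h2⟩⟩
    · exact Or.inl ⟨hw, w, ball_subset_ball (le_mul_of_one_le_left hs.le hLL) hw, hwG,
        fun _ _ _ => rfl⟩
  have h5 := (measure_mono (μ := volume) hcov).trans (measure_union_le _ _)
  rw [h0, add_zero, Real.volume_pi_ball z hs, Fintype.card_fin] at h5
  have h6 := (ENNReal.ofReal_le_ofReal_iff (by positivity)).1 (h5.trans hsh)
  have h7 : 0 < (2 * s) ^ (p + 2) := by positivity
  have h8 : (1 : ℝ) < ((p : ℝ) + 2) * 2 ^ (p + 4) := by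
    have : (0 : ℝ) ≤ p := Nat.cast_nonneg p
    have h9 : (1 : ℝ) ≤ 2 ^ (p + 4) := one_le_pow₀ (by norm_num)
    nlinarith
  exact absurd (div_lt_self h7 h8) (not_lt.2 h6)

end SN
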