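import Mathlib
import Pool.Agent.MP_edaf86_an.N.Defs

namespace SN
open Set Filter Topology MeasureTheory Metric Function
open scoped ENNReal

variable {p : ℕ}

namespace MoAX

/-- the rescaled kernel -/
noncomputable def Kk (p k : ℕ) (z : W p) : ℝ :=
  ((2 : ℝ) ^ k) ^ (p + 2) * (bump p).normed volume ((2 : ℝ) ^ k • z)

theorem contDiff_Kk (k : ℕ) {n : ℕ∞} : ContDiff ℝ n (Kk p k) :=
  contDiff_const.mul ((bump p).contDiff_normed.comp (contDiff_id.const_smul ((2 : ℝ) ^ k)))

theorem norm_lt_of_Kk {k : ℕ} {z : W p} (h : Kk p k z ≠ 0) : ‖z‖ < (1 / 2 : ℝ) ^ k := by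
  have h1 : (2 : ℝ) ^ k • z ∈ support ((bump p).normed volume) := right_ne_zero_of_mul h
  rw [ContDiffBump.support_normed_eq, mem_ball_zero_iff, norm_smul, Real.norm_eq_abs,
    abs_of_pos (by positivity)] at h1
  have h2 : (2 : ℝ) ^ k * ‖z‖ < 1 := h1
  rw [one_div, inv_pow, inv_eq_one_div, lt_div_iff₀ (by positivity)]
  linarith

theorem supp_Kk (k : ℕ) : HasCompactSupport (Kk p k) :=
  HasCompactSupport.of_support_subset_isCompact (isCompact_closedBall 0 ((1 / 2 : ℝ) ^ k))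
    fun _ hz => mem_closedBall_zero_iff.2 (norm_lt_of_Kk hz).le

theorem mo_eq (k : ℕ) (u : W p → ℝ) :
    mo k u = convolution u (Kk p k) (ContinuousLinearMap.lsmul ℝ ℝ) volume := by
  funext x
  rw [convolution_lsmul, mo]
  congr 1
  funext y
  rw [smul_eq_mul, Kk, mul_comm]

theorem weak_mono {n : ℕ} {Ω Ω' : Set (Fin n → ℝ)} (hΩ : MeasurableSet Ω) (hsub : Ω' ⊆ Ω)
    {i : Fin n} {u v : (Fin n → ℝ) → ℝ} (h : SJ.WeakPD Ω i u v) : SJ.WeakPD Ω' i u v := by
  intro φ h1 h2 h3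
  have e := h φ h1 h2 (h3.trans hsub)
  rw [setIntegral_eq_of_subset_of_forall_sdiff_eq_zero hΩ hsub (fun x hx => by
      rw [fderiv_of_notMem_tsupport ℝ fun hh => hx.2 (h3 hh)]; simp),
    setIntegral_eq_of_subset_of_forall_sdiff_eq_zero hΩ hsub (fun x hx => by
      rw [image_eq_zero_of_notMem_tsupport fun hh => hx.2 (h3 hh)]; simp)] at e
  exact e

end MoAX

open MoAX

theorem mo_contDiff (k : ℕ) {u : W p → ℝ} (hu : Integrable u volume) :
    ContDiff ℝ 2 (mo k u) := by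
  rw [mo_eq]
  exact (supp_Kk k).contDiff_convolution_right (n := 2) _ hu.locallyIntegrable (contDiff_Kk k)

theorem mo_fderiv (k : ℕ) {Ω : Set (W p)} (hΩ : MeasurableSet Ω) {i : Fin (p + 2)}
    {u v : W p → ℝ} (hu : IntegrableOn u Ω volume) (hv : IntegrableOn v Ω volume)
    (h : SJ.WeakPD Ω i u v) (x : W p) (hx : closedBall x ((1 / 2 : ℝ) ^ k) ⊆ Ω) :
    fderiv ℝ (mo k (Ω.indicator u)) x (Pi.single i 1) = mo k (Ω.indicator v) x := by
  have _ := hv
  have hl : LocallyIntegrable (Ω.indicator u) volume :=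
    ((integrable_indicator_iff hΩ).2 hu).locallyIntegrable
  have h1 : ContDiff ℝ 1 (Kk p k) := contDiff_Kk (n := 1) k
  rw [mo_eq, ((supp_Kk k).hasFDerivAt_convolution_right _ hl h1 x).fderiv,
    convolution_precompR_apply _ hl ((supp_Kk k).fderiv ℝ) (h1.continuous_fderiv one_ne_zero),
    convolution_lsmul]
  have hs : support (fun y => Kk p k (x - y)) ⊆ closedBall x ((1 / 2 : ℝ) ^ k) := fun y hy => by
    rw [mem_closedBall, dist_comm, dist_eq_norm]
    exact (norm_lt_of_Kk hy).le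
  have e := h (fun y => Kk p k (x - y)) ((contDiff_Kk k).comp (contDiff_const.sub contDiff_id))
    (HasCompactSupport.of_support_subset_isCompact (isCompact_closedBall _ _) hs)
    ((closure_minimal hs isClosed_closedBall).trans hx)
  have hd : ∀ y, fderiv ℝ (fun y => Kk p k (x - y)) y (Pi.single i 1) =
      -fderiv ℝ (Kk p k) (x - y) (Pi.single i 1) := fun y => by
    have := ((h1.differentiable one_ne_zero) (x - y)).hasFDerivAt.comp y
      ((hasFDerivAt_id y).const_sub x)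
    rw [show (fun y => Kk p k (x - y)) = Kk p k ∘ HSub.hSub x from rfl, this.fderiv]
    simp
  simp only [hd, mul_neg, integral_neg, neg_inj] at e
  have e1 : (fun t => Ω.indicator u t • fderiv ℝ (Kk p k) (x - t) (Pi.single i 1)) =
      Ω.indicator fun t => u t * fderiv ℝ (Kk p k) (x - t) (Pi.single i 1) := by
    funext t
    by_cases ht : t ∈ Ω <;> simp [ht]
  have e2 : (fun t => Ω.indicator v t • Kk p k (x - t)) =
      Ω.indicator fun t => v t * Kk p k (x - t) := by
    funext t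
    by_cases ht : t ∈ Ω <;> simp [ht]
  rw [mo_eq, convolution_lsmul, e1, e2, integral_indicator hΩ, integral_indicator hΩ, e]

theorem mo_abs_le (p : ℕ) : ∃ Cρ : ℝ, 0 ≤ Cρ ∧ ∀ (k : ℕ) (u : W p → ℝ) (x : W p),
    Integrable u volume → |mo k u x| ≤
      Cρ * ((2 : ℝ) ^ k) ^ (p + 2) * ∫ y in ball x (2 * (1 / 2 : ℝ) ^ k), |u y| := by
  obtain ⟨C, hC⟩ := ((bump p).continuous_normed (μ := volume)).bounded_above_of_compact_support
    (bump p).hasCompactSupport_normed
  refine ⟨C, (norm_nonneg _).trans (hC 0), fun k u x hu => ?_⟩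
  rw [← integral_const_mul, ← integral_indicator measurableSet_ball, mo, ← Real.norm_eq_abs]
  refine norm_integral_le_of_norm_le
    ((integrable_indicator_iff measurableSet_ball).2 (hu.abs.const_mul _).integrableOn)
    (Eventually.of_forall fun y => ?_)
  by_cases hy : y ∈ ball x (2 * (1 / 2 : ℝ) ^ k)
  · rw [indicator_of_mem hy, norm_mul, norm_mul, Real.norm_eq_abs (u y),
      Real.norm_of_nonneg (by positivity), mul_comm C]
    gcongr
    exact hC _
  · rw [indicator_of_notMem hy]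
    have h0 : Kk p k (x - y) = 0 := by
      by_contra hne
      have h1 := norm_lt_of_Kk hne
      have h2 : (0 : ℝ) < (1 / 2 : ℝ) ^ k := by positivity
      refine hy ?_
      rw [mem_ball, dist_comm, dist_eq_norm]
      linarith
    rw [Kk] at h0
    rw [h0, zero_mul, norm_zero]

theorem W2q_mono {n : ℕ} {q : ℝ} {Ω Ω' : Set (Fin n → ℝ)} (hΩ : MeasurableSet Ω)
    (hΩ' : MeasurableSet Ω') (hsub : Ω' ⊆ Ω) {f : (Fin n → ℝ) → Fin n → ℝ}
    {Df : (Fin n → ℝ) → Matrix (Fin n) (Fin n) ℝ} (h : SJ.W2q q Ω f Df) :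
    SJ.W2q q Ω' f Df := by
  have _ := hΩ'
  have hm : volume.restrict Ω' ≤ volume.restrict Ω := Measure.restrict_mono hsub le_rfl
  intro a
  refine ⟨(h a).1.mono_measure hm, fun i => ?_⟩
  obtain ⟨h1, h2, h3⟩ := (h a).2 i
  refine ⟨h1.mono_measure hm, weak_mono hΩ hsub h2, fun j => ?_⟩
  obtain ⟨w, hw1, hw2⟩ := h3 j
  exact ⟨w, hw1.mono_measure hm, weak_mono hΩ hsub hw2⟩

end SN
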