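import Mathlib
import Pool.Agent.MP_edaf86_an.N.MoA

namespace SN
open Set Filter Topology MeasureTheory Metric Function
open scoped ENNReal Convolution

variable {p : ℕ}

namespace MoBX

/-- the bump at scale 2^(-k) -/
noncomputable def bk (p k : ℕ) : ContDiffBump (0 : W p) :=
  ⟨(1 / 2 : ℝ) ^ k / 2, (1 / 2 : ℝ) ^ k, by positivity,
    half_lt_self (by positivity)⟩

theorem bk_apply (k : ℕ) (z : W p) : bk p k z = bump p ((2 : ℝ) ^ k • z) := by
  rw [ContDiffBump.apply, ContDiffBump.apply]
  have h1 : (bk p k).rOut / (bk p k).rIn = (bump p).rOut / (bump p).rIn := by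
    simp only [bk, bump]
    have : (0 : ℝ) < (1 / 2 : ℝ) ^ k := by positivity
    field_simp
  have h2 : (bk p k).rIn⁻¹ • (z - 0) = (bump p).rIn⁻¹ • ((2 : ℝ) ^ k • z - 0) := by
    simp only [bk, bump, sub_zero, smul_smul]
    congr 1
    rw [one_div, inv_pow]
    have : (0 : ℝ) < (2 : ℝ) ^ k := by positivity
    field_simp
  rw [h1, h2]

theorem bk_normed (k : ℕ) (z : W p) : (bk p k).normed volume z =
    ((2 : ℝ) ^ k) ^ (p + 2) * (bump p).normed volume ((2 : ℝ) ^ k • z) := by
  have h1 : ∫ x, bk p k x = (((2 : ℝ) ^ k) ^ (p + 2))⁻¹ * ∫ x, bump p x := by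
    simp only [bk_apply]
    rw [Measure.integral_comp_smul (volume : Measure (W p)) (fun x => bump p x) ((2 : ℝ) ^ k)]
    simp only [Module.finrank_fintype_fun_eq_card, Fintype.card_fin, smul_eq_mul]
    rw [abs_of_nonneg (by positivity)]
  rw [ContDiffBump.normed_def, ContDiffBump.normed_def, h1, bk_apply]
  have : (0 : ℝ) < ((2 : ℝ) ^ k) ^ (p + 2) := by positivity
  have h2 : 0 < ∫ x, bump p x := (bump p).integral_pos
  field_simp

theorem mo_eq (k : ℕ) (u : W p → ℝ) (x : W p) :
    mo k u x = ∫ y, (bk p k).normed volume (x - y) * u y := by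
  simp only [mo, bk_normed]

theorem mo_conv (k : ℕ) (u : W p → ℝ) (x : W p) :
    mo k u x = ((bk p k).normed volume ⋆[ContinuousLinearMap.lsmul ℝ ℝ, volume] u) x := by
  rw [mo_eq, convolution_eq_swap]
  simp

theorem mo_eq' (k : ℕ) (u : W p → ℝ) (x : W p) :
    mo k u x = ∫ t, (bk p k).normed volume t * u (x - t) := by
  rw [mo_conv, convolution_def]
  simp

theorem rOut_tendsto : Tendsto (fun k => (bk p k).rOut) atTop (𝓝 0) :=
  tendsto_pow_atTop_nhds_zero_of_lt_one (by norm_num) (by norm_num)

theorem int_mul (k : ℕ) {g : W p → ℝ} (hg : Continuous g) :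
    Integrable (fun t => (bk p k).normed volume t * g t) volume :=
  ((bk p k).continuous_normed.mul hg).integrable_of_hasCompactSupport
    (bk p k).hasCompactSupport_normed.mul_right

theorem int_bound (k : ℕ) {g : W p → ℝ} {C : ℝ}
    (hg : ∀ t, ‖t‖ < (1 / 2 : ℝ) ^ k → |g t| ≤ C) :
    |∫ t, (bk p k).normed volume t * g t| ≤ C := by
  have h1 : ∫ t, (bk p k).normed volume t * C = C := by
    rw [integral_mul_const, (bk p k).integral_normed, one_mul]
  rw [← h1, ← Real.norm_eq_abs]
  refine norm_integral_le_of_norm_le (int_mul k continuous_const) (Eventually.of_forall fun t => ?_)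
  rw [Real.norm_eq_abs, abs_mul, abs_of_nonneg ((bk p k).nonneg_normed t)]
  by_cases ht : (bk p k).normed volume t = 0
  · simp [ht]
  · have h2 : t ∈ support ((bk p k).normed volume) := ht
    rw [(bk p k).support_normed_eq, mem_ball_zero_iff] at h2
    exact mul_le_mul_of_nonneg_left (hg t h2) ((bk p k).nonneg_normed t)

theorem swap_int (k l : ℕ) {u : W p → ℝ} (hu : Integrable u volume) (x : W p) :
    mo k (mo l u) x = ∫ z, (∫ y, (bk p k).normed volume (x - y) *
      (bk p l).normed volume (y - z)) * u z := by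
  have h1 : Integrable (fun y => (bk p k).normed volume (x - y)) volume :=
    (bk p k).integrable_normed.comp_sub_left x
  obtain ⟨C, hC⟩ := (bk p l).continuous_normed (μ := volume).bounded_above_of_compact_support
    (bk p l).hasCompactSupport_normed
  have h2 : Integrable (fun q : W p × W p => (bk p l).normed volume (q.1 - q.2) *
      ((bk p k).normed volume (x - q.1) * u q.2)) ((volume : Measure (W p)).prod volume) := by
    refine Integrable.bdd_mul (c := C) (h1.mul_prod hu) ?_ (Eventually.of_forall fun q => hC _)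
    exact ((bk p l).continuous_normed.comp (continuous_fst.sub continuous_snd)).aestronglyMeasurable
  have h3 := integral_integral_swap (f := fun y z => (bk p l).normed volume (y - z) *
      ((bk p k).normed volume (x - y) * u z)) h2
  rw [mo_eq]
  simp only [mo_eq, ← integral_const_mul, ← integral_mul_const]
  refine Eq.trans ?_ (h3.trans ?_)
  · refine integral_congr_ae (Eventually.of_forall fun y => ?_)
    exact integral_congr_ae (Eventually.of_forall fun z => by ring)
  · refine integral_congr_ae (Eventually.of_forall fun y => ?_)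
    exact integral_congr_ae (Eventually.of_forall fun z => by ring)

end MoBX
open MoBX

theorem mo_comm (k l : ℕ) {u : W p → ℝ} (hu : Integrable u volume) :
    mo k (mo l u) = mo l (mo k u) := by
  funext x
  rw [swap_int k l hu, swap_int l k hu]
  congr 1
  funext z
  congr 1
  rw [← integral_sub_left_eq_self _ volume (x + z)]
  congr 1
  funext y
  have a : x - (x + z - y) = y - z := by abel
  have b : x + z - y - z = x - y := by abel
  rw [a, b, mul_comm]

theorem mo_sub_le1 (k : ℕ) {h : W p → ℝ} (hh : ContDiff ℝ 2 h) (x : W p) {M : ℝ}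
    (hM : ∀ z ∈ closedBall x ((1 / 2 : ℝ) ^ k), ‖fderiv ℝ h z‖ ≤ M) :
    |mo k h x - h x| ≤ M * (1 / 2 : ℝ) ^ k := by
  have hs : (0 : ℝ) < (1 / 2 : ℝ) ^ k := by positivity
  have hM0 : 0 ≤ M := (norm_nonneg _).trans (hM x (mem_closedBall_self hs.le))
  have hc : Continuous fun t => h (x - t) := hh.continuous.comp (continuous_const.sub continuous_id)
  have h1 : mo k h x - h x = ∫ t, (bk p k).normed volume t * (h (x - t) - h x) := by
    simp only [mul_sub]
    rw [integral_sub (int_mul k hc) (int_mul k continuous_const), integral_mul_const,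
      (bk p k).integral_normed, one_mul, mo_eq']
  rw [h1]
  refine int_bound k fun t ht => ?_
  have h2 : x - t ∈ closedBall x ((1 / 2 : ℝ) ^ k) := by
    rw [mem_closedBall, dist_eq_norm]; simpa using ht.le
  have h3 := (convex_closedBall x ((1 / 2 : ℝ) ^ k)).norm_image_sub_le_of_norm_fderiv_le
    (fun z _ => SJ.Calc1X.diff1 hh z) hM (mem_closedBall_self hs.le) h2
  rw [Real.norm_eq_abs] at h3
  refine h3.trans (mul_le_mul_of_nonneg_left ?_ hM0)
  simpa using ht.le

theorem mo_sub_le2 (k : ℕ) {h : W p → ℝ} (hh : ContDiff ℝ 2 h) (x : W p) {M : ℝ}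
    (hM : ∀ z ∈ closedBall x ((1 / 2 : ℝ) ^ k), ‖SJ.D2 h z‖ ≤ M) :
    |mo k h x - h x| ≤ M * ((1 / 2 : ℝ) ^ k) ^ 2 := by
  have hs : (0 : ℝ) < (1 / 2 : ℝ) ^ k := by positivity
  have hM0 : 0 ≤ M := (norm_nonneg (SJ.D2 h x)).trans (hM x (mem_closedBall_self hs.le))
  have hc : Continuous fun t => h (x - t) := hh.continuous.comp (continuous_const.sub continuous_id)
  have hodd : ∫ t, (bk p k).normed volume t * fderiv ℝ h x t = 0 := by
    have a := integral_neg_eq_self (fun t => (bk p k).normed volume t * fderiv ℝ h x t)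
      (volume : Measure (W p))
    simp only [ContDiffBump.normed_neg, map_neg, mul_neg, integral_neg] at a
    linarith
  have h1 : mo k h x - h x =
      ∫ t, (bk p k).normed volume t * (h (x - t) - h x + fderiv ℝ h x t) := by
    simp only [mul_sub, mul_add]
    have hi : Integrable (fun t => (bk p k).normed volume t * h (x - t) -
        (bk p k).normed volume t * h x) volume := (int_mul k hc).sub (int_mul k continuous_const)
    rw [integral_add hi (int_mul k (fderiv ℝ h x).continuous), hodd, add_zero,
      integral_sub (int_mul k hc) (int_mul k continuous_const), integral_mul_const,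
      (bk p k).integral_normed, one_mul, mo_eq']
  rw [h1]
  refine int_bound k fun t ht => ?_
  have h2 : x - t ∈ closedBall x ((1 / 2 : ℝ) ^ k) := by
    rw [mem_closedBall, dist_eq_norm]; simpa using ht.le
  have h4 : ∀ z ∈ closedBall x ((1 / 2 : ℝ) ^ k),
      ‖fderiv ℝ h z - fderiv ℝ h x‖ ≤ M * (1 / 2 : ℝ) ^ k := by
    intro z hz
    have h5 := (convex_closedBall x ((1 / 2 : ℝ) ^ k)).norm_image_sub_le_of_norm_fderiv_le
      (f := fderiv ℝ h) (fun z _ => SJ.Calc1X.diff2 hh z) hM (mem_closedBall_self hs.le) hz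
    refine h5.trans (mul_le_mul_of_nonneg_left ?_ hM0)
    rwa [mem_closedBall, dist_eq_norm] at hz
  have h3 := (convex_closedBall x ((1 / 2 : ℝ) ^ k)).norm_image_sub_le_of_norm_fderiv_le'
    (fun z _ => SJ.Calc1X.diff1 hh z) h4 (mem_closedBall_self hs.le) h2
  have h6 : h (x - t) - h x - fderiv ℝ h x (x - t - x) = h (x - t) - h x + fderiv ℝ h x t := by
    have : x - t - x = -t := by abel
    rw [this, map_neg, sub_neg_eq_add]
  rw [h6, Real.norm_eq_abs] at h3
  refine h3.trans ?_
  rw [sq, ← mul_assoc]
  refine mul_le_mul_of_nonneg_left ?_ (by positivity)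
  simpa using ht.le

theorem mo_tendsto {u : W p → ℝ} (hu : Integrable u volume) {x : W p} (hx : ContinuousAt u x) :
    Tendsto (fun k => mo k u x) atTop (𝓝 (u x)) := by
  simp only [mo_conv]
  exact ContDiffBump.convolution_tendsto_right (g := fun _ => u) (k := fun _ => x) rOut_tendsto
    (Eventually.of_forall fun _ => hu.aestronglyMeasurable) (hx.tendsto.comp tendsto_snd)
    tendsto_const_nhds

theorem mo_ae_tendsto {u : W p → ℝ} (hu : Integrable u volume) :
    ∀ᵐ x ∂(volume : Measure (W p)), Tendsto (fun k => mo k u x) atTop (𝓝 (u x)) := by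
  simp only [mo_conv]
  refine ContDiffBump.ae_convolution_tendsto_right_of_locallyIntegrable (K := 2) rOut_tendsto
    (Eventually.of_forall fun k => ?_) hu.locallyIntegrable
  simp only [bk]
  linarith

end SN
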