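import Mathlib
import Pool.Agent.MP_edaf86_an.N.MoB

namespace SN
open Set Filter Topology MeasureTheory Metric Function
open scoped ENNReal

variable {p : ℕ}

namespace MoCX

theorem expand {E : Type} [NormedAddCommGroup E] [NormedSpace ℝ E] (L : W p →L[ℝ] E) (v : W p) :
    L v = ∑ j, v j • L (Pi.single j 1) := by
  conv_lhs => rw [pi_eq_sum_univ' v]
  simp [map_sum]

theorem opn {E : Type} [NormedAddCommGroup E] [NormedSpace ℝ E] (L : W p →L[ℝ] E) {M : ℝ}
    (hM : 0 ≤ M) (h : ∀ j, ‖L (Pi.single j 1)‖ ≤ M) : ‖L‖ ≤ ((p : ℝ) + 2) * M := by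
  refine L.opNorm_le_bound (by positivity) fun v => ?_
  rw [expand]
  refine (norm_sum_le _ _).trans ((Finset.sum_le_card_nsmul _ _ (‖v‖ * M) fun j _ => ?_).trans ?_)
  · rw [norm_smul]
    exact mul_le_mul (norm_le_pi_norm v j) (h j) (norm_nonneg _) (norm_nonneg _)
  · simp only [Finset.card_univ, Fintype.card_fin, nsmul_eq_mul]
    push_cast
    exact le_of_eq (by ring)

theorem cont_toL : Continuous (toL (p := p)) :=
  ((LinearMap.toContinuousLinearMap (𝕜 := ℝ) (E := W p) (F' := W p)).toLinearMap ∘ₗ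
    (Matrix.toLin' (R := ℝ) (m := Fin (p + 2)) (n := Fin (p + 2))).toLinearMap
      ).continuous_of_finiteDimensional

theorem toL_single (M : Matrix (Fin (p + 2)) (Fin (p + 2)) ℝ) (a i : Fin (p + 2)) :
    toL M (Pi.single i 1) a = M a i := by
  simp [toL]

theorem fderiv_comp {F : W p → W p} (hF : ContDiff ℝ 2 F) (z v : W p) (a : Fin (p + 2)) :
    fderiv ℝ F z v a = fderiv ℝ (fun y => F y a) z v := by
  have h := (hasFDerivAt_pi'.1 (SJ.Calc1X.diff1 hF z).hasFDerivAt a).fderiv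
  rw [h]
  rfl

theorem split1 (k : ℕ) {u : W p → ℝ} (hu : Integrable u volume) (z : W p) :
    |mo k u z - mo (k + 1) u z| ≤
      |mo (k + 1) (mo k u) z - mo k u z| + |mo k (mo (k + 1) u) z - mo (k + 1) u z| := by
  rw [mo_comm (k + 1) k hu, abs_sub_comm _ (mo k u z)]
  exact abs_sub_le _ _ _

theorem half (k : ℕ) : (1 / 2 : ℝ) ^ (k + 1) ≤ (1 / 2 : ℝ) ^ k :=
  pow_le_pow_of_le_one (by norm_num) (by norm_num) k.le_succ

end MoCX

open MoCX

theorem exists_moll {q R : ℝ} (hq : 1 ≤ q) (hR : 0 < R) (x0 : W p) {f : W p → W p}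
    {Df : W p → Matrix (Fin (p + 2)) (Fin (p + 2)) ℝ} (h : SJ.W2q q (ball x0 (4 * R)) f Df)
    (hf : ContinuousOn f (ball x0 (4 * R))) :
    ∃ (k0 : ℕ) (C0 : ℝ) (g : W p → ℝ) (F : ℕ → W p → W p), (∀ y, 0 ≤ g y) ∧
      MemLp g (ENNReal.ofReal q) volume ∧
      Moll (ball x0 R) k0 C0 g f (fun y => toL (Df y)) F := by
  obtain ⟨Ω, hΩ⟩ : ∃ Ω, Ω = ball x0 (4 * R) := ⟨_, rfl⟩
  rw [← hΩ] at h hf
  have oΩ : IsOpen Ω := hΩ ▸ isOpen_ball
  have mΩ := oΩ.measurableSet
  have : IsFiniteMeasure (volume.restrict Ω) :=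
    isFiniteMeasure_restrict.2 (hΩ ▸ measure_ball_lt_top.ne)
  have hq' : 1 ≤ ENNReal.ofReal q := ENNReal.one_le_ofReal.2 hq
  choose w hw hw' using fun a i j => ((h a).2 i).2.2 j
  have i0 : ∀ a, IntegrableOn (fun x => f x a) Ω volume := fun a => (h a).1.integrable hq'
  have i1 : ∀ a i, IntegrableOn (fun x => Df x a i) Ω volume := fun a i =>
    ((h a).2 i).1.integrable hq'
  have i2 : ∀ a i j, IntegrableOn (w a i j) Ω volume := fun a i j => (hw a i j).integrable hq'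
  have j0 := fun a => (integrable_indicator_iff mΩ).2 (i0 a)
  have j1 := fun a i => (integrable_indicator_iff mΩ).2 (i1 a i)
  have j2 := fun a i j => (integrable_indicator_iff mΩ).2 (i2 a i j)
  obtain ⟨k0, hk0⟩ := exists_pow_lt_of_lt_one hR (show (1 / 2 : ℝ) < 1 by norm_num)
  have sk : ∀ k, k0 ≤ k → (1 / 2 : ℝ) ^ k < R := fun k hk =>
    (pow_le_pow_of_le_one (by norm_num) (by norm_num) hk).trans_lt hk0
  have sub : ∀ k, k0 ≤ k → ∀ z ∈ ball x0 (2 * R), closedBall z ((1 / 2 : ℝ) ^ k) ⊆ Ω := by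
    intro k hk z hz
    rw [hΩ]
    refine closedBall_subset_ball' ?_
    linarith [sk k hk, mem_ball.1 hz]
  have H1 := fun k hk z hz a i =>
    mo_fderiv k mΩ (i0 a) (i1 a i) ((h a).2 i).2.1 z (sub k hk z hz)
  have H2 := fun k hk z hz a i j =>
    mo_fderiv k mΩ (i1 a i) (i2 a i j) (hw' a i j) z (sub k hk z hz)
  generalize hu : (fun a => Ω.indicator fun x => f x a) = u
  generalize hU : (fun a i => Ω.indicator fun x => Df x a i) = U
  generalize hV : (fun a i j => Ω.indicator (w a i j)) = V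
  have eu : ∀ a, (Ω.indicator fun x => f x a) = u a := fun a => congrFun hu a
  have eU : ∀ a i, (Ω.indicator fun x => Df x a i) = U a i := fun a i =>
    congrFun (congrFun hU a) i
  have eV : ∀ a i j, Ω.indicator (w a i j) = V a i j := fun a i j =>
    congrFun (congrFun (congrFun hV a) i) j
  simp only [eu, eU, eV] at H1 H2 j0 j1 j2
  have H3 : ∀ k, k0 ≤ k → ∀ z ∈ ball x0 (2 * R), ∀ a i j,
      SJ.D2 (mo k (u a)) z (Pi.single j 1) (Pi.single i 1) = mo k (V a i j) z := by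
    intro k hk z hz a i j
    have e : (fun x => fderiv ℝ (mo k (u a)) x (Pi.single i 1)) =ᶠ[𝓝 z] mo k (U a i) := by
      filter_upwards [isOpen_ball.mem_nhds hz] with y hy using H1 k hk y hy a i
    rw [← H2 k hk z hz a i j, ← e.fderiv_eq,
      (SJ.Calc1X.has_eval (mo_contDiff k (j0 a)) z (Pi.single i 1)).fderiv]
    rfl
  obtain ⟨C, C0, hC⟩ := mo_abs_le p
  obtain ⟨g, hg⟩ : ∃ g : W p → ℝ, g = fun y => ∑ t : Fin (p + 2) × Fin (p + 2) × Fin (p + 2),
      |V t.1 t.2.1 t.2.2 y| := ⟨_, rfl⟩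
  have g0 : ∀ y, 0 ≤ g y := fun y => hg ▸ Finset.sum_nonneg fun _ _ => abs_nonneg _
  have g1 : Integrable g volume := hg ▸ integrable_finsetSum _ fun t _ => (j2 _ _ _).abs
  have g2 : ∀ a i j y, |V a i j y| ≤ g y := fun a i j y => hg ▸
    Finset.single_le_sum (f := fun t : Fin (p + 2) × Fin (p + 2) × Fin (p + 2) =>
      |V t.1 t.2.1 t.2.2 y|) (fun _ _ => abs_nonneg _) (Finset.mem_univ (a, i, j))
  obtain ⟨G, hG⟩ : ∃ G : ℕ → W p → ℝ, ∀ k z, G k z =
      ((2 : ℝ) ^ k) ^ (p + 2) * ∫ y in ball z (4 * (1 / 2 : ℝ) ^ k), g y := ⟨_, fun _ _ => rfl⟩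
  have G0 : ∀ k z, 0 ≤ G k z := fun k z =>
    hG k z ▸ mul_nonneg (by positivity) (integral_nonneg g0)
  have B0 : ∀ k l, l = k ∨ l = k + 1 → ∀ z, ∀ y ∈ closedBall z ((1 / 2 : ℝ) ^ k), ∀ a i j,
      |mo l (V a i j) y| ≤ C * 2 ^ (p + 2) * G k z := by
    intro k l hl z y hy a i j
    have s0 : (0 : ℝ) < (1 / 2 : ℝ) ^ k := by positivity
    have s1 : (1 / 2 : ℝ) ^ l ≤ (1 / 2 : ℝ) ^ k := by
      rcases hl with rfl | rfl
      exacts [le_rfl, half k]
    have s2 : ((2 : ℝ) ^ l) ^ (p + 2) ≤ 2 ^ (p + 2) * (2 ^ k) ^ (p + 2) := by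
      rw [← mul_pow, ← pow_succ']
      exact pow_le_pow_left₀ (by positivity) (pow_le_pow_right₀ one_le_two (by omega)) _
    have s3 : ∫ x in ball y (2 * (1 / 2 : ℝ) ^ l), |V a i j x| ≤
        ∫ x in ball z (4 * (1 / 2 : ℝ) ^ k), g x := by
      refine (integral_mono (j2 a i j).abs.integrableOn g1.integrableOn (g2 a i j)).trans ?_
      refine setIntegral_mono_set g1.integrableOn (Eventually.of_forall g0)
        (ball_subset_ball' ?_).eventuallyLE
      linarith [mem_closedBall.1 hy]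
    refine (hC l _ y (j2 a i j)).trans ?_
    rw [hG, mul_assoc, mul_assoc, ← mul_assoc ((2 : ℝ) ^ (p + 2))]
    exact mul_le_mul_of_nonneg_left (mul_le_mul s2 s3 (integral_nonneg fun _ => abs_nonneg _)
      (by positivity)) C0
  have M0 : ∀ k z, 0 ≤ C * 2 ^ (p + 2) * G k z := fun k z => mul_nonneg (by positivity) (G0 k z)
  have nb : ∀ k, k0 ≤ k → ∀ z ∈ ball x0 R, ∀ y ∈ closedBall z ((1 / 2 : ℝ) ^ k),
      y ∈ ball x0 (2 * R) := by
    intro k hk z hz
    refine closedBall_subset_ball' ?_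
    linarith [sk k hk, mem_ball.1 hz]
  have B1 : ∀ k, k0 ≤ k → ∀ l, l = k ∨ l = k + 1 → ∀ z ∈ ball x0 R,
      ∀ y ∈ closedBall z ((1 / 2 : ℝ) ^ k), ∀ a i,
      ‖fderiv ℝ (mo l (U a i)) y‖ ≤ ((p : ℝ) + 2) * (C * 2 ^ (p + 2) * G k z) := by
    intro k hk l hl z hz y hy a i
    refine opn _ (M0 k z) fun j => ?_
    rw [H2 l (by omega) y (nb k hk z hz y hy)]
    exact B0 k l hl z y hy a i j
  have B2 : ∀ k, k0 ≤ k → ∀ l, l = k ∨ l = k + 1 → ∀ z ∈ ball x0 R,
      ∀ y ∈ closedBall z ((1 / 2 : ℝ) ^ k), ∀ a,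
      ‖SJ.D2 (mo l (u a)) y‖ ≤ ((p : ℝ) + 2) * (((p : ℝ) + 2) * (C * 2 ^ (p + 2) * G k z)) := by
    intro k hk l hl z hz y hy a
    refine opn _ (mul_nonneg (by positivity) (M0 k z)) fun j => opn _ (M0 k z) fun i => ?_
    rw [H3 l (by omega) y (nb k hk z hz y hy)]
    exact B0 k l hl z y hy a i j
  have cd : ∀ k, ContDiff ℝ 2 fun z a => mo k (u a) z := fun k =>
    contDiff_pi.2 fun a => mo_contDiff k (j0 a)
  have ce : ∀ (k : ℕ) (z : W p), z ∈ closedBall z ((1 / 2 : ℝ) ^ k) := fun k z =>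
    mem_closedBall_self (by positivity)
  have inΩ : ∀ z ∈ ball x0 R, z ∈ Ω := fun z hz => hΩ ▸ ball_subset_ball (by linarith) hz
  refine ⟨k0, 2 * ((p : ℝ) + 2) ^ 2 * (C * 2 ^ (p + 2)), g, fun k z a => mo k (u a) z, g0, ?_,
    by positivity, cd, fun k hk z hz => ?_, fun k hk z hz => ?_, fun k hk z hz => ?_,
    fun z hz => ?_, ?_⟩
  · rw [hg]
    refine memLp_finsetSum _ fun t _ => MemLp.abs ?_
    rw [← eV]
    exact (memLp_indicator_iff_restrict mΩ).2 (hw _ _ _)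
  · have : ‖SJ.D2 (fun z a => mo k (u a) z) z‖ ≤
        ((p : ℝ) + 2) * (((p : ℝ) + 2) * (C * 2 ^ (p + 2) * G k z)) := by
      refine opn _ (mul_nonneg (by positivity) (M0 k z)) fun j => opn _ (M0 k z) fun i => ?_
      refine (pi_norm_le_iff_of_nonneg (M0 k z)).2 fun a => ?_
      have e := SJ.D2_clm_comp (ContinuousLinearMap.proj (R := ℝ) (φ := fun _ => ℝ) a) (cd k) z
        (Pi.single j 1) (Pi.single i 1)
      have e' : SJ.D2 (fun z a => mo k (u a) z) z (Pi.single j 1) (Pi.single i 1) a =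
          mo k (V a i j) z := e.symm.trans (H3 k hk z (nb k hk z hz z (ce k z)) a i j)
      rw [e']
      exact B0 k k (Or.inl rfl) z z (ce k z) a i j
    rw [mul_assoc, ← hG]
    nlinarith [mul_nonneg (sq_nonneg ((p : ℝ) + 2)) (M0 k z)]
  · rw [← hG]
    have n0 : 0 ≤ ((p : ℝ) + 2) * (C * 2 ^ (p + 2) * G k z) := mul_nonneg (by positivity) (M0 k z)
    have m0 : 0 ≤ 2 * (((p : ℝ) + 2) * (C * 2 ^ (p + 2) * G k z) * (1 / 2 : ℝ) ^ k) := by
      positivity
    refine (opn _ m0 fun i => (pi_norm_le_iff_of_nonneg m0).2 fun a => ?_).trans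
      (le_of_eq (by ring))
    have zz := nb k hk z hz z (ce k z)
    rw [_root_.sub_apply, Pi.sub_apply, fderiv_comp (cd k), fderiv_comp (cd (k + 1)),
      H1 k hk z zz, H1 (k + 1) (by omega) z zz]
    have h1 := mo_sub_le1 (k + 1) (mo_contDiff k (j1 a i)) z fun y hy =>
      B1 k hk k (Or.inl rfl) z hz y (closedBall_subset_closedBall (half k) hy) a i
    have h2 := mo_sub_le1 k (mo_contDiff (k + 1) (j1 a i)) z fun y hy =>
      B1 k hk (k + 1) (Or.inr rfl) z hz y hy a i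
    have h3 := mul_le_mul_of_nonneg_left (half k) n0
    have h4 := split1 k (j1 a i) z
    rw [Real.norm_eq_abs]
    linarith
  · rw [← hG]
    have n0 : 0 ≤ ((p : ℝ) + 2) * (((p : ℝ) + 2) * (C * 2 ^ (p + 2) * G k z)) :=
      mul_nonneg (by positivity) (mul_nonneg (by positivity) (M0 k z))
    have m0 : 0 ≤ 2 * (((p : ℝ) + 2) * (((p : ℝ) + 2) * (C * 2 ^ (p + 2) * G k z)) *
        ((1 / 2 : ℝ) ^ k) ^ 2) := by positivity
    refine ((pi_norm_le_iff_of_nonneg m0).2 fun a => ?_).trans (le_of_eq (by ring))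
    have h1 := mo_sub_le2 (k + 1) (mo_contDiff k (j0 a)) z fun y hy =>
      B2 k hk k (Or.inl rfl) z hz y (closedBall_subset_closedBall (half k) hy) a
    have h2 := mo_sub_le2 k (mo_contDiff (k + 1) (j0 a)) z fun y hy =>
      B2 k hk (k + 1) (Or.inr rfl) z hz y hy a
    have h3 := mul_le_mul_of_nonneg_left (pow_le_pow_left₀ (by positivity) (half k) 2) n0
    have h4 := split1 k (j0 a) z
    rw [Real.norm_eq_abs, Pi.sub_apply]
    linarith
  · refine tendsto_pi_nhds.2 fun a => ?_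
    have e : u a =ᶠ[𝓝 z] fun x => f x a := by
      filter_upwards [oΩ.mem_nhds (inΩ z hz)] with y hy
      rw [← eu, indicator_of_mem hy]
    rw [← e.eq_of_nhds]
    exact mo_tendsto (j0 a) (((continuous_apply a).continuousAt.comp
      (hf.continuousAt (oΩ.mem_nhds (inΩ z hz)))).congr e.symm)
  · have h1 : ∀ᵐ z ∂(volume : Measure (W p)), ∀ a i,
        Tendsto (fun k => mo k (U a i) z) atTop (𝓝 (U a i z)) :=
      ae_all_iff.2 fun a => ae_all_iff.2 fun i => mo_ae_tendsto (j1 a i)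
    filter_upwards [ae_restrict_of_ae h1, ae_restrict_mem measurableSet_ball] with z h2 hz
    have h3 : Tendsto (fun k => (Matrix.of fun a i => mo k (U a i) z)) atTop (𝓝 (Df z)) := by
      refine tendsto_pi_nhds.2 fun a => tendsto_pi_nhds.2 fun i => ?_
      have e : U a i z = Df z a i := by rw [← eU, indicator_of_mem (inΩ z hz)]
      exact e ▸ h2 a i
    refine ((cont_toL.tendsto _).comp h3).congr' ?_
    filter_upwards [eventually_ge_atTop k0] with k hk
    ext v a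
    rw [expand, expand (fderiv ℝ _ z)]
    simp only [Finset.sum_apply, Pi.smul_apply, Function.comp_apply, toL_single, fderiv_comp (cd k),
      H1 k hk z (nb k hk z hz z (ce k z)), Matrix.of_apply]

end SN
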