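import Mathlib
import Pool.Agent.MP_edaf86_an.N.MoC
import Pool.Agent.MP_edaf86_an.N.Jet
import Pool.Agent.MP_edaf86_an.N.LocAE
import Pool.Agent.MP_edaf86_an.N.Lin1

namespace SN
open Set Filter Topology MeasureTheory Metric Function
open scoped ENNReal

variable {p : ℕ}

namespace GlobX

/-- local sign and local non-degeneracy around each point of the domain -/
theorem loc {q : ℝ} (hq : 2 < q) {Ω : Set (W p)} (hO : IsOpen Ω)
    {f : W p → W p} {Df : W p → Matrix (Fin (p + 2)) (Fin (p + 2)) ℝ} (hf : ContinuousOn f Ω)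
    (hi : InjOn f Ω) (h : SJ.W2q q Ω f Df) {x0 : W p} (hx : x0 ∈ Ω) :
    ∃ R : ℝ, 0 < R ∧ (∃ b, ∀ᵐ x ∂(volume.restrict (ball x0 R)), 0 ≤ sg b * (Df x).det) ∧
      ∀ r : ℝ, 0 < r → r ≤ R → ¬ ∀ᵐ x ∂(volume.restrict (ball x0 r)), (Df x).det = 0 := by
  obtain ⟨ε, hε, hsub⟩ := Metric.isOpen_iff.1 hO x0 hx
  have hR : 0 < ε / 4 := by linarith
  have h4 : ball x0 (4 * (ε / 4)) ⊆ Ω := by rwa [show 4 * (ε / 4) = ε by ring]
  have h1 : ball x0 (ε / 4) ⊆ Ω := (ball_subset_ball (by linarith)).trans hsub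
  obtain ⟨k0, C0, g, F, hg0, hg, hM⟩ := exists_moll (by linarith : 1 ≤ q) hR x0
    (W2q_mono hO.measurableSet measurableSet_ball h4 h) (hf.mono h4)
  obtain ⟨Θ, C, ν, A, hC, hA⟩ := ctx_of_moll hq x0 hg0 hg hM (hf.mono h1) (hi.mono h1)
  refine ⟨ε / 4, hR, ?_, fun r hr hrR hz => ?_⟩
  · obtain ⟨b, hb⟩ := local_ae hC hR Subset.rfl
    refine ⟨b, ?_⟩
    filter_upwards [hb, hA] with x h1 h2
    rwa [h2, det_toL] at h1
  · refine local_nz hC hr (ball_subset_ball hrR) ?_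
    filter_upwards [hz, ae_restrict_of_ae_restrict_of_subset (ball_subset_ball hrR) hA] with x h1 h2
    rw [h2, det_toL, h1]

/-- points near which a property holds almost everywhere -/
def Near (P : W p → Prop) : Set (W p) :=
  {x | ∃ r : ℝ, 0 < r ∧ ∀ᵐ y ∂(volume.restrict (ball x r)), P y}

theorem near_open (P : W p → Prop) : IsOpen (Near P) := by
  refine Metric.isOpen_iff.2 ?_
  rintro x ⟨r, hr, h⟩
  refine ⟨r / 2, by linarith, fun y hy => ⟨r / 2, by linarith, ?_⟩⟩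
  refine ae_restrict_of_ae_restrict_of_subset (fun z hz => ?_) h
  rw [mem_ball] at hy hz ⊢
  linarith [dist_triangle z y x]

theorem ae_of_near {P : W p → Prop} {Ω : Set (W p)} (hO : IsOpen Ω) (h : Ω ⊆ Near P) :
    ∀ᵐ x ∂(volume.restrict Ω), P x := by
  rw [ae_restrict_iff' hO.measurableSet, ae_iff]
  refine measure_null_of_locally_null _ fun x hx => ?_
  have hxΩ : x ∈ Ω := by
    by_contra hn
    exact hx fun h' => absurd h' hn
  obtain ⟨r, hr, h1⟩ := h hxΩ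
  rw [ae_restrict_iff' measurableSet_ball, ae_iff] at h1
  refine ⟨{a | ¬ (a ∈ Ω → P a)} ∩ ball x r,
    inter_mem_nhdsWithin _ (ball_mem_nhds x hr), measure_mono_null (fun a ha => ?_) h1⟩
  exact fun h' => ha.1 fun _ => h' ha.2

end GlobX

theorem no_sign_change {q : ℝ} (hq : 2 < q) {Ω : Set (W p)} (hO : IsOpen Ω) (hc : IsConnected Ω)
    {f : W p → W p} {Df : W p → Matrix (Fin (p + 2)) (Fin (p + 2)) ℝ} (hf : ContinuousOn f Ω)
    (hi : InjOn f Ω) (h : SJ.W2q q Ω f Df) :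
    (∀ᵐ x ∂(volume.restrict Ω), 0 ≤ (Df x).det) ∨
      (∀ᵐ x ∂(volume.restrict Ω), (Df x).det ≤ 0) := by
  have hcov : Ω ⊆ GlobX.Near (fun x => 0 ≤ (Df x).det) ∪ GlobX.Near (fun x => (Df x).det ≤ 0) := by
    intro x hx
    obtain ⟨R, hR, ⟨b, hb⟩, -⟩ := GlobX.loc hq hO hf hi h hx
    cases b
    · exact Or.inr ⟨R, hR, by simpa [sg] using hb⟩
    · exact Or.inl ⟨R, hR, by simpa [sg] using hb⟩
  have hdis : Ω ∩ (GlobX.Near (fun x => 0 ≤ (Df x).det) ∩
      GlobX.Near (fun x => (Df x).det ≤ 0)) = ∅ := by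
    refine eq_empty_of_forall_notMem ?_
    rintro x ⟨hx, ⟨r1, hr1, h1⟩, ⟨r2, hr2, h2⟩⟩
    obtain ⟨R, hR, -, hnz⟩ := GlobX.loc hq hO hf hi h hx
    refine hnz (min R (min r1 r2)) (lt_min hR (lt_min hr1 hr2)) (min_le_left _ _) ?_
    filter_upwards [ae_restrict_of_ae_restrict_of_subset
        (ball_subset_ball ((min_le_right _ _).trans (min_le_left _ _))) h1,
      ae_restrict_of_ae_restrict_of_subset
        (ball_subset_ball ((min_le_right _ _).trans (min_le_right _ _))) h2] with y a1 a2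
    exact le_antisymm a2 a1
  rcases isPreconnected_iff_subset_of_disjoint.1 hc.isPreconnected _ _ (GlobX.near_open _)
    (GlobX.near_open _) hcov hdis with h1 | h1
  · exact Or.inl (GlobX.ae_of_near hO h1)
  · exact Or.inr (GlobX.ae_of_near hO h1)

end SN
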